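import Pool.Agent.Lib.H88V.Defs

/-!
# Project H88V, chunk A1: local biholomorphisms in charts
-/

open scoped Manifold ContDiff Topology Nat
open Filter Asymptotics Set

namespace Pool.Agent.Lib.H88V

variable {n : ℕ} {U : Type*} [TopologicalSpace U] [ChartedSpace (Fin n → ℂ) U]
  [IsManifold 𝓘(ℂ, Fin n → ℂ) ω U] {F : Type*} [NormedAddCommGroup F] [NormedSpace ℂ F]

/-- Proof. The source of the partial diffeomorphism is an open neighbourhood. -/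
theorem eventually_localDiffeo (Φ : F → U) (x₀ : F)
    (h : IsLocalDiffeomorphAt 𝓘(ℂ, F) 𝓘(ℂ, Fin n → ℂ) ω Φ x₀) :
    ∀ᶠ x in 𝓝 x₀, IsLocalDiffeomorphAt 𝓘(ℂ, F) 𝓘(ℂ, Fin n → ℂ) ω Φ x := by
  obtain ⟨D, hD, hE⟩ := h
  filter_upwards [D.open_source.mem_nhds hD] with x hx
  exact ⟨D, hx, hE⟩

/-- Proof. `e` is in the maximal atlas (`IsManifold.subset_maximalAtlas`), so `e ∘ Φ` is `ContMDiffAt … ω` at
`x₀` (`contMDiffAt_of_mem_maximalAtlas`, `ContMDiffAt.comp`, `IsLocalDiffeomorphAt.contMDiffAt`), that is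
`ContDiffAt ℂ ω` (`contMDiffAt_iff_contDiffAt`), that is analytic. -/
theorem chart_comp_analyticAt (Φ : F → U) (x₀ : F)
    (h : ContMDiffAt 𝓘(ℂ, F) 𝓘(ℂ, Fin n → ℂ) ω Φ x₀)
    (e : OpenPartialHomeomorph U (Fin n → ℂ)) (he : e ∈ atlas (Fin n → ℂ) U)
    (hx : Φ x₀ ∈ e.source) : AnalyticAt ℂ (fun x => e (Φ x)) x₀ := by
  have h1 : ContMDiffAt 𝓘(ℂ, Fin n → ℂ) 𝓘(ℂ, Fin n → ℂ) ω e (Φ x₀) :=
    contMDiffAt_of_mem_maximalAtlas (IsManifold.subset_maximalAtlas he) hx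
  have h2 : ContMDiffAt 𝓘(ℂ, F) 𝓘(ℂ, Fin n → ℂ) ω (e ∘ Φ) x₀ := h1.comp x₀ h
  exact h2.contDiffAt.analyticAt

/-- The local inverse of class `C^ω`. -/
theorem A1_inverse (Φ : F → U) (x₀ : F)
    (h : IsLocalDiffeomorphAt 𝓘(ℂ, F) 𝓘(ℂ, Fin n → ℂ) ω Φ x₀)
    (e : OpenPartialHomeomorph U (Fin n → ℂ)) (he : e ∈ atlas (Fin n → ℂ) U)
    (hx : Φ x₀ ∈ e.source) :
    ∃ Ψ : (Fin n → ℂ) → F, ContDiffAt ℂ ω Ψ (e (Φ x₀)) ∧ Ψ (e (Φ x₀)) = x₀ ∧
      (∀ᶠ x in 𝓝 x₀, Ψ (e (Φ x)) = x) ∧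
      ∀ᶠ u in 𝓝 (Φ x₀), Φ (Ψ (e u)) = u := by
  have hc : ContinuousAt Φ x₀ := h.contMDiffAt.continuousAt
  obtain ⟨D, hD, hE⟩ := h
  have hDx : Φ x₀ = D.toPartialEquiv x₀ := hE hD
  have hDt : Φ x₀ ∈ D.target := by
    rw [hDx]
    exact D.toPartialEquiv.map_source hD
  refine ⟨fun y => D.toPartialEquiv.symm (e.symm y), ?_, ?_, ?_, ?_⟩
  · have h1 : ContMDiffAt 𝓘(ℂ, Fin n → ℂ) 𝓘(ℂ, Fin n → ℂ) ω e.symm (e (Φ x₀)) :=
      contMDiffAt_symm_of_mem_maximalAtlas (IsManifold.subset_maximalAtlas he) (e.map_source hx)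
    have h2 : ContMDiffAt 𝓘(ℂ, Fin n → ℂ) 𝓘(ℂ, F) ω D.invFun (e.symm (e (Φ x₀))) := by
      rw [e.left_inv hx]
      exact D.contMDiffOn_invFun.contMDiffAt (D.open_target.mem_nhds hDt)
    have h3 : ContMDiffAt 𝓘(ℂ, Fin n → ℂ) 𝓘(ℂ, F) ω (D.invFun ∘ e.symm) (e (Φ x₀)) :=
      h2.comp (e (Φ x₀)) h1
    exact h3.contDiffAt
  · show D.toPartialEquiv.symm (e.symm (e (Φ x₀))) = x₀
    rw [e.left_inv hx, hDx, D.toPartialEquiv.left_inv hD]
  · filter_upwards [D.open_source.mem_nhds hD, hc.preimage_mem_nhds (e.open_source.mem_nhds hx)]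
      with x h1 h2
    have h3 : Φ x = D.toPartialEquiv x := hE h1
    show D.toPartialEquiv.symm (e.symm (e (Φ x))) = x
    rw [e.left_inv h2, h3, D.toPartialEquiv.left_inv h1]
  · filter_upwards [D.open_target.mem_nhds hDt, e.open_source.mem_nhds hx] with u h1 h2
    show Φ (D.toPartialEquiv.symm (e.symm (e u))) = u
    rw [e.left_inv h2]
    have h3 : Φ (D.toPartialEquiv.symm u) = D.toPartialEquiv (D.toPartialEquiv.symm u) :=
      hE (D.toPartialEquiv.map_target h1)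
    rw [h3, D.toPartialEquiv.right_inv h1]

/-- Proof. `e ∘ Φ` is a local diffeomorphism at `x₀` between vector spaces, so its derivative is invertible:
e.g. compose the partial diffeomorphism with `e` and differentiate the two compositions with the inverse
(`HasFDerivAt.comp`, both are the identity near the point), or use
`IsLocalDiffeomorphAt.mfderivToContinuousLinearEquiv` for `e ∘ Φ` (`isLocalDiffeomorphAt` of `e`) and
`mfderiv_eq_fderiv`. -/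
theorem chart_comp_fderiv (Φ : F → U) (x₀ : F)
    (h : IsLocalDiffeomorphAt 𝓘(ℂ, F) 𝓘(ℂ, Fin n → ℂ) ω Φ x₀)
    (e : OpenPartialHomeomorph U (Fin n → ℂ)) (he : e ∈ atlas (Fin n → ℂ) U)
    (hx : Φ x₀ ∈ e.source) :
    ∃ A : F ≃L[ℂ] (Fin n → ℂ), fderiv ℂ (fun x => e (Φ x)) x₀ = (A : F →L[ℂ] (Fin n → ℂ)) := by
  obtain ⟨Ψ, h1, h2, h3, h4⟩ := A1_inverse Φ x₀ h e he hx
  have hf : DifferentiableAt ℂ (fun x => e (Φ x)) x₀ :=
    (chart_comp_analyticAt Φ x₀ h.contMDiffAt e he hx).differentiableAt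
  have hg : DifferentiableAt ℂ Ψ (e (Φ x₀)) := h1.differentiableAt (by simp)
  -- the second composition near the point
  have h5 : ∀ᶠ y in 𝓝 (e (Φ x₀)), e (Φ (Ψ y)) = y := by
    have h6 : Tendsto e.symm (𝓝 (e (Φ x₀))) (𝓝 (Φ x₀)) := by
      have h7 := e.continuousAt_symm (e.map_source hx)
      rw [ContinuousAt, e.left_inv hx] at h7
      exact h7
    filter_upwards [h6.eventually h4, e.open_target.mem_nhds (e.map_source hx)] with y h8 h9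
    rw [e.right_inv h9] at h8
    rw [h8, e.right_inv h9]
  obtain ⟨A, hA⟩ : ∃ A, A = fderiv ℂ (fun x => e (Φ x)) x₀ := ⟨_, rfl⟩
  obtain ⟨B, hB⟩ : ∃ B, B = fderiv ℂ Ψ (e (Φ x₀)) := ⟨_, rfl⟩
  have hA' : HasFDerivAt (fun x => e (Φ x)) A x₀ := hA ▸ hf.hasFDerivAt
  have hB' : HasFDerivAt Ψ B (e (Φ x₀)) := hB ▸ hg.hasFDerivAt
  have h6 : B.comp A = ContinuousLinearMap.id ℂ F := by
    have h7 : HasFDerivAt (fun x => Ψ (e (Φ x))) (B.comp A) x₀ := hB'.comp x₀ hA'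
    have h8 : HasFDerivAt (fun x : F => x) (B.comp A) x₀ :=
      h7.congr_of_eventuallyEq (by filter_upwards [h3] with x hx using hx.symm)
    exact h8.unique (hasFDerivAt_id x₀)
  have h9 : A.comp B = ContinuousLinearMap.id ℂ (Fin n → ℂ) := by
    have h7 : HasFDerivAt (fun y => e (Φ (Ψ y))) (A.comp B) (e (Φ x₀)) := by
      have h10 : HasFDerivAt (fun x => e (Φ x)) A (Ψ (e (Φ x₀))) := by
        rw [h2]
        exact hA'
      exact h10.comp (e (Φ x₀)) hB'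
    have h8 : HasFDerivAt (fun y : Fin n → ℂ => y) (A.comp B) (e (Φ x₀)) :=
      h7.congr_of_eventuallyEq (by filter_upwards [h5] with x hx using hx.symm)
    exact h8.unique (hasFDerivAt_id _)
  refine ⟨ContinuousLinearEquiv.equivOfInverse A B (fun v => ?_) (fun v => ?_), ?_⟩
  · exact congrArg (fun L : F →L[ℂ] F => L v) h6
  · exact congrArg (fun L : (Fin n → ℂ) →L[ℂ] (Fin n → ℂ) => L v) h9
  · rw [← hA]
    rfl

/-- A local inverse. Proof. The inverse of the partial diffeomorphism; `Ψ` is analytic since it is the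
composition of `e.symm` (smooth on the target) and the inverse, a map between vector spaces. -/
theorem exists_local_inverse (Φ : F → U) (x₀ : F)
    (h : IsLocalDiffeomorphAt 𝓘(ℂ, F) 𝓘(ℂ, Fin n → ℂ) ω Φ x₀)
    (e : OpenPartialHomeomorph U (Fin n → ℂ)) (he : e ∈ atlas (Fin n → ℂ) U)
    (hx : Φ x₀ ∈ e.source) :
    ∃ Ψ : (Fin n → ℂ) → F, AnalyticAt ℂ Ψ (e (Φ x₀)) ∧ Ψ (e (Φ x₀)) = x₀ ∧
      (∀ᶠ x in 𝓝 x₀, Ψ (e (Φ x)) = x) ∧
      ∀ᶠ u in 𝓝 (Φ x₀), Φ (Ψ (e u)) = u := by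
  obtain ⟨A, -⟩ := chart_comp_fderiv Φ x₀ h e he hx
  have : FiniteDimensional ℂ F := A.symm.toLinearEquiv.finiteDimensional
  have : CompleteSpace F := FiniteDimensional.complete ℂ F
  obtain ⟨Ψ, h1, h2, h3, h4⟩ := A1_inverse Φ x₀ h e he hx
  exact ⟨Ψ, h1.analyticAt, h2, h3, h4⟩

end Pool.Agent.Lib.H88V
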