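import Pool.Agent.Lib.H88V.A1

/-!
# Project H88V, chunk A2: sections in the coordinates of a local biholomorphism
-/

open scoped Manifold ContDiff Topology Nat
open Filter Asymptotics Set

namespace Pool.Agent.Lib.H88V

variable {n : ℕ} {U : Type*} [TopologicalSpace U] [ChartedSpace (Fin n → ℂ) U]
  {F : Type*} [NormedAddCommGroup F] [NormedSpace ℂ F]

/-- The coefficient function of the section `s` in the coordinates given by the local biholomorphism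
`Φ : F → U`, where `F` is identified with `ℂⁿ` by `L`. -/
noncomputable def pull (L : F ≃L[ℂ] (Fin n → ℂ)) (Φ : F → U) {m : ℕ} (s : antiSections n U m)
    (x : F) : ℂ :=
  (((fderiv ℂ (fun q => chartAt (Fin n → ℂ) (Φ x) (Φ q)) x) ∘L
    (L.symm : (Fin n → ℂ) →L[ℂ] F)).det ^ m)⁻¹ *
    s.1 ⟨chartAt (Fin n → ℂ) (Φ x), chart_mem_atlas _ _⟩ (chartAt (Fin n → ℂ) (Φ x) (Φ x))

theorem pull_add (L : F ≃L[ℂ] (Fin n → ℂ)) (Φ : F → U) {m : ℕ} (s t : antiSections n U m)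
    (x : F) : pull L Φ (s + t) x = pull L Φ s x + pull L Φ t x := by
  unfold pull
  have h1 : ∀ (e : atlas (Fin n → ℂ) U) (y : Fin n → ℂ), (s + t).1 e y = s.1 e y + t.1 e y :=
    fun _ _ => rfl
  rw [h1, mul_add]

theorem pull_smul (L : F ≃L[ℂ] (Fin n → ℂ)) (Φ : F → U) {m : ℕ} (r : ℂ) (s : antiSections n U m)
    (x : F) : pull L Φ (r • s) x = r * pull L Φ s x := by
  unfold pull
  have h1 : ∀ (e : atlas (Fin n → ℂ) U) (y : Fin n → ℂ), (r • s).1 e y = r * s.1 e y :=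
    fun _ _ => rfl
  rw [h1]
  ring

variable [IsManifold 𝓘(ℂ, Fin n → ℂ) ω U]

theorem A2_det_comp (A B : (Fin n → ℂ) →L[ℂ] (Fin n → ℂ)) : (A ∘L B).det = A.det * B.det := by
  unfold ContinuousLinearMap.det
  exact LinearMap.det_comp _ _

theorem A2_det_ne (A : F ≃L[ℂ] (Fin n → ℂ)) (L : F ≃L[ℂ] (Fin n → ℂ)) :
    ((A : F →L[ℂ] (Fin n → ℂ)) ∘L (L.symm : (Fin n → ℂ) →L[ℂ] F)).det ≠ 0 := by
  have h1 : ((A : F →L[ℂ] (Fin n → ℂ)) ∘L (L.symm : (Fin n → ℂ) →L[ℂ] F)) =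
      ((L.symm.trans A : (Fin n → ℂ) ≃L[ℂ] (Fin n → ℂ)) : (Fin n → ℂ) →L[ℂ] (Fin n → ℂ)) := rfl
  rw [h1]
  have h2 := (L.symm.trans A).toLinearEquiv.isUnit_det'
  exact h2.ne_zero

theorem A2_det_eq (A : (Fin n → ℂ) →L[ℂ] (Fin n → ℂ)) : A.det =
    ∑ σ : Equiv.Perm (Fin n), ((Equiv.Perm.sign σ : ℤ) : ℂ) * ∏ i, A (Pi.single i 1) (σ i) := by
  have h1 : A.det = (LinearMap.toMatrix' (A : (Fin n → ℂ) →ₗ[ℂ] (Fin n → ℂ))).det := by
    rw [LinearMap.det_toMatrix']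
  rw [h1, Matrix.det_apply']
  rfl

/-- `pull` may be computed in any chart. Proof. Let `e' = chartAt (Φ x)` and `t = e'.symm ≫ₕ e` the change
of charts, `t (e' (Φ q)) = e (Φ q)` for `q` near `x` (`Φ` is continuous at `x`). So
`D(e ∘ Φ) x = D(e ∘ e'.symm)(e' (Φ x)) ∘ D(e' ∘ Φ) x` and the determinants multiply
(`LinearMap.det_comp`; `D(e ∘ e'.symm)(…)` is an endomorphism of `ℂⁿ`). The transformation law of `s` gives
`s e (e (Φ x)) = det(D(e ∘ e'.symm)(e' (Φ x)))^m * s e' (e' (Φ x))`. The determinant of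
`D(e ∘ e'.symm)(…)` is not `0` since that of `D(e ∘ Φ) x ∘ L.symm` is not `0` (`chart_comp_fderiv`). -/
theorem pull_eq (L : F ≃L[ℂ] (Fin n → ℂ)) (Φ : F → U) (x : F)
    (h : IsLocalDiffeomorphAt 𝓘(ℂ, F) 𝓘(ℂ, Fin n → ℂ) ω Φ x)
    (e : atlas (Fin n → ℂ) U) (hx : Φ x ∈ e.1.source) {m : ℕ} (s : antiSections n U m) :
    pull L Φ s x = (((fderiv ℂ (fun q => e.1 (Φ q)) x) ∘L
      (L.symm : (Fin n → ℂ) →L[ℂ] F)).det ^ m)⁻¹ * s.1 e (e.1 (Φ x)) := by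
  set e' : atlas (Fin n → ℂ) U := ⟨chartAt (Fin n → ℂ) (Φ x), chart_mem_atlas _ _⟩ with he'
  have hx' : Φ x ∈ e'.1.source := mem_chart_source _ _
  set y' : Fin n → ℂ := e'.1 (Φ x) with hy'
  have hy't : y' ∈ e'.1.target := e'.1.map_source hx'
  have hsy : e'.1.symm y' = Φ x := e'.1.left_inv hx'
  have hΦc : ContinuousAt Φ x := h.contMDiffAt.continuousAt
  have hd' : DifferentiableAt ℂ (fun q => e'.1 (Φ q)) x :=
    (chart_comp_analyticAt Φ x h.contMDiffAt e'.1 e'.2 hx').differentiableAt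
  have hG : AnalyticAt ℂ (fun y => e.1 (e'.1.symm y)) y' := by
    refine chart_comp_analyticAt (fun y => e'.1.symm y) y' ?_ e.1 e.2 (by rw [hsy]; exact hx)
    have h1 : ContMDiffOn 𝓘(ℂ, Fin n → ℂ) 𝓘(ℂ, Fin n → ℂ) ω e'.1.symm e'.1.target :=
      contMDiffOn_chart_symm
    exact h1.contMDiffAt (e'.1.open_target.mem_nhds hy't)
  have hev : (fun q => e.1 (Φ q)) =ᶠ[𝓝 x]
      (fun y => e.1 (e'.1.symm y)) ∘ fun q => e'.1 (Φ q) := by
    have h1 : ∀ᶠ q in 𝓝 x, Φ q ∈ e'.1.source := hΦc (e'.1.open_source.mem_nhds hx')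
    filter_upwards [h1] with q hq
    simp only [Function.comp_apply]
    rw [e'.1.left_inv hq]
  have hchain : fderiv ℂ (fun q => e.1 (Φ q)) x =
      (fderiv ℂ (fun y => e.1 (e'.1.symm y)) y') ∘L (fderiv ℂ (fun q => e'.1 (Φ q)) x) := by
    rw [hev.fderiv_eq]
    exact fderiv_comp x hG.differentiableAt hd'
  have hlaw := s.2.2.2 e' e y' (by
    rw [OpenPartialHomeomorph.trans_source]
    exact ⟨hy't, by
      rw [Set.mem_preimage]
      change e'.1.symm y' ∈ _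
      rw [hsy]
      exact hx⟩)
  rw [hsy] at hlaw
  have hcomp : (e.1 ∘ e'.1.symm : (Fin n → ℂ) → (Fin n → ℂ)) = fun y => e.1 (e'.1.symm y) := rfl
  rw [hcomp] at hlaw
  obtain ⟨A, hA⟩ := chart_comp_fderiv Φ x h e.1 e.2 hx
  have hne : ((fderiv ℂ (fun q => e.1 (Φ q)) x) ∘L (L.symm : (Fin n → ℂ) →L[ℂ] F)).det ≠ 0 := by
    rw [hA]
    exact A2_det_ne A L
  have hdet : ((fderiv ℂ (fun q => e.1 (Φ q)) x) ∘L (L.symm : (Fin n → ℂ) →L[ℂ] F)).det =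
      (fderiv ℂ (fun y => e.1 (e'.1.symm y)) y').det *
        ((fderiv ℂ (fun q => e'.1 (Φ q)) x) ∘L (L.symm : (Fin n → ℂ) →L[ℂ] F)).det := by
    rw [hchain, ContinuousLinearMap.comp_assoc, A2_det_comp]
  rw [hdet] at hne
  have hG0 : (fderiv ℂ (fun y => e.1 (e'.1.symm y)) y').det ≠ 0 := left_ne_zero_of_mul hne
  have hD0 : ((fderiv ℂ (fun q => e'.1 (Φ q)) x) ∘L (L.symm : (Fin n → ℂ) →L[ℂ] F)).det ≠ 0 :=
    right_ne_zero_of_mul hne
  rw [hdet, hlaw]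
  change (((fderiv ℂ (fun q => e'.1 (Φ q)) x) ∘L (L.symm : (Fin n → ℂ) →L[ℂ] F)).det ^ m)⁻¹ *
    s.1 e' y' = _
  rw [mul_pow]
  field_simp

/-- Proof. Near `x` use `pull_eq` with the fixed chart `e = chartAt (Φ x)` (`eventually_localDiffeo`,
continuity of `Φ`): `e ∘ Φ` is analytic at `x` (`chart_comp_analyticAt`), so is its derivative
(`AnalyticAt.fderiv`), and the determinant is a polynomial function (analytic; e.g.
`ContinuousLinearMap.det` through `LinearMap.toMatrix` and `Matrix.det_apply`), it is not `0` at `x`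
(`chart_comp_fderiv`), and `s e` is analytic at `e (Φ x) ∈ e.target`. -/
theorem pull_analyticAt (L : F ≃L[ℂ] (Fin n → ℂ)) (Φ : F → U) (x : F)
    (h : IsLocalDiffeomorphAt 𝓘(ℂ, F) 𝓘(ℂ, Fin n → ℂ) ω Φ x) {m : ℕ} (s : antiSections n U m) :
    AnalyticAt ℂ (pull L Φ s) x := by
  set e : atlas (Fin n → ℂ) U := ⟨chartAt (Fin n → ℂ) (Φ x), chart_mem_atlas _ _⟩ with he
  have hx : Φ x ∈ e.1.source := mem_chart_source _ _
  have hΦc : ContinuousAt Φ x := h.contMDiffAt.continuousAt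
  have han : AnalyticAt ℂ (fun q => e.1 (Φ q)) x :=
    chart_comp_analyticAt Φ x h.contMDiffAt e.1 e.2 hx
  have hdet : AnalyticAt ℂ (fun y => ((fderiv ℂ (fun q => e.1 (Φ q)) y) ∘L
      (L.symm : (Fin n → ℂ) →L[ℂ] F)).det) x := by
    have h1 : (fun y => ((fderiv ℂ (fun q => e.1 (Φ q)) y) ∘L
        (L.symm : (Fin n → ℂ) →L[ℂ] F)).det) = fun y => ∑ σ : Equiv.Perm (Fin n),
          ((Equiv.Perm.sign σ : ℤ) : ℂ) *
            ∏ i, (fderiv ℂ (fun q => e.1 (Φ q)) y) (L.symm (Pi.single i 1)) (σ i) := by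
      funext y
      rw [A2_det_eq]
      rfl
    rw [h1]
    refine Finset.analyticAt_fun_sum _ fun σ _ => ?_
    refine analyticAt_const.mul ?_
    refine Finset.analyticAt_fun_prod _ fun i _ => ?_
    have h2 : AnalyticAt ℂ (fderiv ℂ (fun q => e.1 (Φ q))) x := han.fderiv
    have h3 : AnalyticAt ℂ (fun A : F →L[ℂ] (Fin n → ℂ) => A (L.symm (Pi.single i 1)) (σ i))
        (fderiv ℂ (fun q => e.1 (Φ q)) x) :=
      (((ContinuousLinearMap.proj (σ i) : (Fin n → ℂ) →L[ℂ] ℂ)).comp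
        (ContinuousLinearMap.apply ℂ (Fin n → ℂ) (L.symm (Pi.single i 1)))).analyticAt _
    exact h3.comp h2
  obtain ⟨A, hA⟩ := chart_comp_fderiv Φ x h e.1 e.2 hx
  have hne : ((fderiv ℂ (fun q => e.1 (Φ q)) x) ∘L (L.symm : (Fin n → ℂ) →L[ℂ] F)).det ≠ 0 := by
    rw [hA]
    exact A2_det_ne A L
  have hs : AnalyticAt ℂ (fun y => s.1 e (e.1 (Φ y))) x := by
    have h1 : AnalyticAt ℂ (s.1 e) (e.1 (Φ x)) := s.2.1 e _ (e.1.map_source hx)
    exact AnalyticAt.comp (g := s.1 e) (f := fun q => e.1 (Φ q)) h1 han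
  have hfin := ((hdet.pow m).inv (pow_ne_zero m hne)).mul hs
  refine hfin.congr ?_
  have h1 : ∀ᶠ q in 𝓝 x, Φ q ∈ e.1.source := hΦc (e.1.open_source.mem_nhds hx)
  filter_upwards [h1, eventually_localDiffeo Φ x h] with q hq hq2
  rw [pull_eq L Φ q hq2 e hq s]
  rfl

end Pool.Agent.Lib.H88V
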