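import Pool.Agent.Lib.H88V.An
import Pool.Agent.Lib.H88V.A2

/-!
# Project H88V, chunk A3: change of local biholomorphism
-/

open scoped Manifold ContDiff Topology Nat
open Filter Asymptotics Set

namespace Pool.Agent.Lib.H88V

/-- Proof. In the chart `e = chartAt (Φ₀ x)` (which contains `Φ₁ (θ x) = Φ₀ x`):
`e ∘ Φ₀ = (e ∘ Φ₁) ∘ θ` near `x`, so `D(e ∘ Φ₀) x = D(e ∘ Φ₁)(θ x) ∘ Dθ x` and
`D(e ∘ Φ₀) x ∘ L.symm = (D(e ∘ Φ₁)(θ x) ∘ L'.symm) ∘ (L' ∘ Dθ x ∘ L.symm)`; the determinant is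
multiplicative (`LinearMap.det_comp`). Use `pull_eq` for both. -/
theorem pull_comp' {n : ℕ} {U : Type*} [TopologicalSpace U] [ChartedSpace (Fin n → ℂ) U]
    [IsManifold 𝓘(ℂ, Fin n → ℂ) ω U] {F F' : Type*} [NormedAddCommGroup F] [NormedSpace ℂ F]
    [NormedAddCommGroup F'] [NormedSpace ℂ F']
    (L : F ≃L[ℂ] (Fin n → ℂ)) (L' : F' ≃L[ℂ] (Fin n → ℂ)) (Φ₀ : F → U) (Φ₁ : F' → U)
    (θ : F → F') (x : F)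
    (h₀ : IsLocalDiffeomorphAt 𝓘(ℂ, F) 𝓘(ℂ, Fin n → ℂ) ω Φ₀ x)
    (h₁ : IsLocalDiffeomorphAt 𝓘(ℂ, F') 𝓘(ℂ, Fin n → ℂ) ω Φ₁ (θ x))
    (hθ : DifferentiableAt ℂ θ x) (hΦ : Φ₀ =ᶠ[𝓝 x] Φ₁ ∘ θ) {m : ℕ} (s : antiSections n U m) :
    pull L Φ₀ s x = (((L' : F' →L[ℂ] (Fin n → ℂ)) ∘L fderiv ℂ θ x ∘L
      (L.symm : (Fin n → ℂ) →L[ℂ] F)).det ^ m)⁻¹ * pull L' Φ₁ s (θ x) := by
  have hx : Φ₀ x = Φ₁ (θ x) := hΦ.eq_of_nhds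
  have hsrc : Φ₁ (θ x) ∈ (chartAt (Fin n → ℂ) (Φ₀ x)).source := by
    rw [← hx]
    exact mem_chart_source _ _
  have hd : DifferentiableAt ℂ (fun q => chartAt (Fin n → ℂ) (Φ₀ x) (Φ₁ q)) (θ x) :=
    (chart_comp_analyticAt Φ₁ (θ x) h₁.contMDiffAt _ (chart_mem_atlas _ _) hsrc).differentiableAt
  have hD : fderiv ℂ (fun q => chartAt (Fin n → ℂ) (Φ₀ x) (Φ₀ q)) x =
      (fderiv ℂ (fun q => chartAt (Fin n → ℂ) (Φ₀ x) (Φ₁ q)) (θ x)) ∘L (fderiv ℂ θ x) := by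
    rw [← fderiv_comp x hd hθ]
    apply Filter.EventuallyEq.fderiv_eq
    filter_upwards [hΦ] with q hq
    simp only [Function.comp_apply] at hq ⊢
    rw [hq]
  rw [pull_eq L' Φ₁ (θ x) h₁ ⟨chartAt (Fin n → ℂ) (Φ₀ x), chart_mem_atlas _ _⟩ hsrc s]
  unfold pull
  rw [hD]
  have hdet : ((fderiv ℂ (fun q => chartAt (Fin n → ℂ) (Φ₀ x) (Φ₁ q)) (θ x) ∘L fderiv ℂ θ x) ∘L
      (L.symm : (Fin n → ℂ) →L[ℂ] F)).det =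
      ((fderiv ℂ (fun q => chartAt (Fin n → ℂ) (Φ₀ x) (Φ₁ q)) (θ x)) ∘L
        (L'.symm : (Fin n → ℂ) →L[ℂ] F')).det *
      ((L' : F' →L[ℂ] (Fin n → ℂ)) ∘L fderiv ℂ θ x ∘L (L.symm : (Fin n → ℂ) →L[ℂ] F)).det := by
    unfold ContinuousLinearMap.det
    rw [← LinearMap.det_comp]
    refine congrArg _ ?_
    ext v
    simp
  rw [hdet, mul_pow, mul_inv, ← hx]
  ring

/-- Proof. The previous theorem with `L' = L`, and `det (L ∘ Dθ x ∘ L.symm) = det (Dθ x)`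
(`LinearMap.det_conj`). -/
theorem pull_comp {n : ℕ} {U : Type*} [TopologicalSpace U] [ChartedSpace (Fin n → ℂ) U]
    [IsManifold 𝓘(ℂ, Fin n → ℂ) ω U] {F : Type*} [NormedAddCommGroup F] [NormedSpace ℂ F]
    (L : F ≃L[ℂ] (Fin n → ℂ)) (Φ₀ Φ₁ : F → U) (θ : F → F) (x : F)
    (h₀ : IsLocalDiffeomorphAt 𝓘(ℂ, F) 𝓘(ℂ, Fin n → ℂ) ω Φ₀ x)
    (h₁ : IsLocalDiffeomorphAt 𝓘(ℂ, F) 𝓘(ℂ, Fin n → ℂ) ω Φ₁ (θ x))
    (hθ : DifferentiableAt ℂ θ x) (hΦ : Φ₀ =ᶠ[𝓝 x] Φ₁ ∘ θ) {m : ℕ} (s : antiSections n U m) :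
    pull L Φ₀ s x = ((fderiv ℂ θ x).det ^ m)⁻¹ * pull L Φ₁ s (θ x) := by
  rw [pull_comp' L L Φ₀ Φ₁ θ x h₀ h₁ hθ hΦ s]
  have h : ((L : F →L[ℂ] (Fin n → ℂ)) ∘L fderiv ℂ θ x ∘L
      (L.symm : (Fin n → ℂ) →L[ℂ] F)).det = (fderiv ℂ θ x).det := by
    unfold ContinuousLinearMap.det
    exact LinearMap.det_conj (fderiv ℂ θ x : F →ₗ[ℂ] F) L.toLinearEquiv
  rw [h]

/-- Proof. In the basis of `Tube p c` (`Basis.prod`, `Pi.basisFun`) the matrix is diagonal; or use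
`LinearMap.det_prodMap`-type lemmas and `LinearMap.det_smul`: the map is
`prodMap (-(z^2)⁻¹ • id) (prodMap (z⁻¹ • id) id)`. -/
theorem det_diag {p c : ℕ} (z : ℂ) (A : Tube p c →L[ℂ] Tube p c)
    (hA : ∀ a v w, A (a, v, w) = (-(z ^ 2)⁻¹ * a, z⁻¹ • v, w)) :
    A.det = -(z ^ 2)⁻¹ * (z⁻¹) ^ p := by
  unfold ContinuousLinearMap.det
  have h : (A : Tube p c →ₗ[ℂ] Tube p c) =
      LinearMap.prodMap ((-(z ^ 2)⁻¹ : ℂ) • (LinearMap.id : ℂ →ₗ[ℂ] ℂ))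
        (LinearMap.prodMap ((z⁻¹ : ℂ) • (LinearMap.id : (Fin p → ℂ) →ₗ[ℂ] (Fin p → ℂ)))
          (LinearMap.id : (Fin c → ℂ) →ₗ[ℂ] (Fin c → ℂ))) := by
    refine LinearMap.ext fun x => ?_
    obtain ⟨a, v, w⟩ := x
    exact hA a v w
  rw [h, LinearMap.det_prodMap, LinearMap.det_prodMap, LinearMap.det_smul, LinearMap.det_smul]
  simp

end Pool.Agent.Lib.H88V
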