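import Pool.Agent.Lib.H88V.A2

/-!
# Project H88V, chunk A4: divisors given by germs `Φ ∘ G`
-/

open scoped Manifold ContDiff Topology Nat
open Filter Asymptotics Set

namespace Pool.Agent.Lib.H88V

variable {n : ℕ} {U : Type*} [TopologicalSpace U] [ChartedSpace (Fin n → ℂ) U]
  [IsManifold 𝓘(ℂ, Fin n → ℂ) ω U] {F : Type*} [NormedAddCommGroup F] [NormedSpace ℂ F]

/-- The determinant of the derivative of `e ∘ Φ` in the coordinates `L`. -/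
noncomputable def a4_det (L : F ≃L[ℂ] (Fin n → ℂ)) (Φ : F → U) (p x : F) : ℂ :=
  ((fderiv ℂ (fun q => chartAt (Fin n → ℂ) (Φ p) (Φ q)) x) ∘L
    (L.symm : (Fin n → ℂ) →L[ℂ] F)).det

theorem a4_analytic (Φ : F → U) (p : F)
    (hΦ : IsLocalDiffeomorphAt 𝓘(ℂ, F) 𝓘(ℂ, Fin n → ℂ) ω Φ p) :
    AnalyticAt ℂ (fun q => chartAt (Fin n → ℂ) (Φ p) (Φ q)) p :=
  chart_comp_analyticAt Φ p hΦ.contMDiffAt _ (chart_mem_atlas _ _) (mem_chart_source _ _)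

theorem a4_continuousAt (L : F ≃L[ℂ] (Fin n → ℂ)) (Φ : F → U) (p : F)
    (hΦ : IsLocalDiffeomorphAt 𝓘(ℂ, F) 𝓘(ℂ, Fin n → ℂ) ω Φ p) :
    ContinuousAt (a4_det L Φ p) p := by
  have : FiniteDimensional ℂ F := L.symm.toLinearEquiv.finiteDimensional
  have : CompleteSpace F := FiniteDimensional.complete ℂ F
  have h1 : ContinuousAt (fderiv ℂ (fun q => chartAt (Fin n → ℂ) (Φ p) (Φ q))) p :=
    (a4_analytic Φ p hΦ).fderiv.continuousAt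
  have h2 : ContinuousAt (fun x => (fderiv ℂ (fun q => chartAt (Fin n → ℂ) (Φ p) (Φ q)) x) ∘L
      (L.symm : (Fin n → ℂ) →L[ℂ] F)) p := h1.clm_comp continuousAt_const
  exact ContinuousLinearMap.continuous_det.continuousAt.comp h2

theorem a4_ne_zero (L : F ≃L[ℂ] (Fin n → ℂ)) (Φ : F → U) (p : F)
    (hΦ : IsLocalDiffeomorphAt 𝓘(ℂ, F) 𝓘(ℂ, Fin n → ℂ) ω Φ p) : a4_det L Φ p p ≠ 0 := by
  obtain ⟨A, hA⟩ := chart_comp_fderiv Φ p hΦ _ (chart_mem_atlas _ _) (mem_chart_source _ _)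
  rw [a4_det, hA]
  have h1 := (L.symm.trans A).toLinearEquiv.isUnit_det'
  exact h1.ne_zero

theorem jac_comp (L : F ≃L[ℂ] (Fin n → ℂ)) (Φ : F → U) (G : (Fin n → ℂ) → F)
    (hG : AnalyticAt ℂ G 0) (hΦ : IsLocalDiffeomorphAt 𝓘(ℂ, F) 𝓘(ℂ, Fin n → ℂ) ω Φ (G 0)) :
    ∃ δ : ℝ, 0 < δ ∧ ∀ᶠ y in 𝓝 (0 : Fin n → ℂ),
      δ * ‖((L : F →L[ℂ] (Fin n → ℂ)) ∘L fderiv ℂ G y).det‖ ≤ ‖jac (fun y => Φ (G y)) y‖ := by
  have : FiniteDimensional ℂ F := L.symm.toLinearEquiv.finiteDimensional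
  have : CompleteSpace F := FiniteDimensional.complete ℂ F
  have hGc : ContinuousAt G 0 := hG.continuousAt
  have hc : ContinuousAt (fun y => a4_det L Φ (G 0) (G y)) 0 :=
    ContinuousAt.comp (g := a4_det L Φ (G 0)) (f := G) (a4_continuousAt L Φ (G 0) hΦ) hGc
  have h0 : a4_det L Φ (G 0) (G 0) ≠ 0 := a4_ne_zero L Φ (G 0) hΦ
  have hpos : 0 < ‖a4_det L Φ (G 0) (G 0)‖ := norm_pos_iff.mpr h0
  refine ⟨‖a4_det L Φ (G 0) (G 0)‖ / 2, by positivity, ?_⟩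
  have h1 : ∀ᶠ y in 𝓝 (0 : Fin n → ℂ), ‖a4_det L Φ (G 0) (G 0)‖ / 2 < ‖a4_det L Φ (G 0) (G y)‖ :=
    hc.norm.eventually (lt_mem_nhds (half_lt_self hpos))
  have h2 : ∀ᶠ y in 𝓝 (0 : Fin n → ℂ), AnalyticAt ℂ G y := hG.eventually_analyticAt
  have h3 : ∀ᶠ y in 𝓝 (0 : Fin n → ℂ),
      AnalyticAt ℂ (fun q => chartAt (Fin n → ℂ) (Φ (G 0)) (Φ q)) (G y) :=
    hGc.eventually (a4_analytic Φ (G 0) hΦ).eventually_analyticAt
  filter_upwards [h1, h2, h3] with y hy1 hy2 hy3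
  have hd : HasFDerivAt (fun y => chartAt (Fin n → ℂ) (Φ (G 0)) (Φ (G y)))
      ((fderiv ℂ (fun q => chartAt (Fin n → ℂ) (Φ (G 0)) (Φ q)) (G y)) ∘L fderiv ℂ G y) y :=
    HasFDerivAt.comp y (g := fun q => chartAt (Fin n → ℂ) (Φ (G 0)) (Φ q))
      hy3.differentiableAt.hasFDerivAt hy2.differentiableAt.hasFDerivAt
  have hj : jac (fun y => Φ (G y)) y = a4_det L Φ (G 0) (G y) *
      ((L : F →L[ℂ] (Fin n → ℂ)) ∘L fderiv ℂ G y).det := by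
    have hd' : fderiv ℂ (fun y => chartAt (Fin n → ℂ) (Φ (G 0)) (Φ (G y))) y =
        ((fderiv ℂ (fun q => chartAt (Fin n → ℂ) (Φ (G 0)) (Φ q)) (G y)) ∘L
          (L.symm : (Fin n → ℂ) →L[ℂ] F)) ∘L ((L : F →L[ℂ] (Fin n → ℂ)) ∘L fderiv ℂ G y) := by
      rw [hd.fderiv]
      ext v
      simp
    change (fderiv ℂ (fun y => chartAt (Fin n → ℂ) (Φ (G 0)) (Φ (G y))) y).det = _
    rw [hd']
    exact LinearMap.det_comp _ _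
  rw [hj, norm_mul]
  exact mul_le_mul_of_nonneg_right hy1.le (norm_nonneg _)

theorem along_isBigO (L : F ≃L[ℂ] (Fin n → ℂ)) (Φ : F → U) (G : (Fin n → ℂ) → F)
    (hG : AnalyticAt ℂ G 0) (hΦ : IsLocalDiffeomorphAt 𝓘(ℂ, F) 𝓘(ℂ, Fin n → ℂ) ω Φ (G 0))
    {m : ℕ} (s : antiSections n U m) :
    along (fun y => Φ (G y)) s =O[𝓝 0] fun y => pull L Φ s (G y) := by
  have hGc : ContinuousAt G 0 := hG.continuousAt
  have hc : ContinuousAt (fun y => a4_det L Φ (G 0) (G y)) 0 :=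
    ContinuousAt.comp (g := a4_det L Φ (G 0)) (f := G) (a4_continuousAt L Φ (G 0) hΦ) hGc
  have h0 : a4_det L Φ (G 0) (G 0) ≠ 0 := a4_ne_zero L Φ (G 0) hΦ
  have h1 : ∀ᶠ y in 𝓝 (0 : Fin n → ℂ), a4_det L Φ (G 0) (G y) ≠ 0 := hc.eventually_ne h0
  have h2 : ∀ᶠ y in 𝓝 (0 : Fin n → ℂ),
      IsLocalDiffeomorphAt 𝓘(ℂ, F) 𝓘(ℂ, Fin n → ℂ) ω Φ (G y) :=
    hGc.eventually (eventually_localDiffeo Φ (G 0) hΦ)
  have hΦc : ContinuousAt Φ (G 0) := hΦ.contMDiffAt.continuousAt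
  have h3 : ∀ᶠ y in 𝓝 (0 : Fin n → ℂ), Φ (G y) ∈ (chartAt (Fin n → ℂ) (Φ (G 0))).source := by
    have hΦG : ContinuousAt (fun y => Φ (G y)) 0 := ContinuousAt.comp (g := Φ) (f := G) hΦc hGc
    exact hΦG.eventually_mem ((chartAt (Fin n → ℂ) (Φ (G 0))).open_source.mem_nhds
      (mem_chart_source _ _))
  have heq : along (fun y => Φ (G y)) s =ᶠ[𝓝 0]
      fun y => a4_det L Φ (G 0) (G y) ^ m * pull L Φ s (G y) := by
    filter_upwards [h1, h2, h3] with y hy1 hy2 hy3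
    rw [pull_eq L Φ (G y) hy2 ⟨chartAt (Fin n → ℂ) (Φ (G 0)), chart_mem_atlas _ _⟩ hy3 s]
    change _ = a4_det L Φ (G 0) (G y) ^ m * ((a4_det L Φ (G 0) (G y) ^ m)⁻¹ * _)
    rw [mul_inv_cancel_left₀ (pow_ne_zero m hy1)]
    rfl
  have hb : (fun y => a4_det L Φ (G 0) (G y) ^ m) =O[𝓝 0] fun _ => (1 : ℂ) :=
    (hc.pow m).isBigO_one ℂ
  refine heq.trans_isBigO ?_
  have h4 := hb.mul (isBigO_refl (fun y => pull L Φ s (G y)) (𝓝 0))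
  simpa using h4

theorem exists_divisor (L : F ≃L[ℂ] (Fin n → ℂ)) (Φ : F → U) (G : (Fin n → ℂ) → F)
    (hG : AnalyticAt ℂ G 0) (hΦ : IsLocalDiffeomorphAt 𝓘(ℂ, F) 𝓘(ℂ, Fin n → ℂ) ω Φ (G 0))
    (ℓ : (Fin n → ℂ) →L[ℂ] ℂ) (hℓ : ℓ ≠ 0) (a : ℕ)
    (hdet : ¬ ((fun y => ((L : F →L[ℂ] (Fin n → ℂ)) ∘L fderiv ℂ G y).det)
      =O[𝓝 0] fun y => ℓ y ^ a)) :
    ∃ D : DivisorOver n U, (D.g = fun y => Φ (G y)) ∧ D.ℓ = ℓ ∧ D.logDiscrepancy ≤ a := by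
  have : FiniteDimensional ℂ F := L.symm.toLinearEquiv.finiteDimensional
  have : CompleteSpace F := FiniteDimensional.complete ℂ F
  obtain ⟨δ, hδ, hev⟩ := jac_comp L Φ G hG hΦ
  have hO : (fun y => ((L : F →L[ℂ] (Fin n → ℂ)) ∘L fderiv ℂ G y).det) =O[𝓝 0]
      jac (fun y => Φ (G y)) := by
    refine IsBigO.of_bound δ⁻¹ ?_
    filter_upwards [hev] with y hy
    rw [inv_mul_eq_div, le_div_iff₀ hδ, mul_comm]
    exact hy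
  have hnot : ¬ (jac (fun y => Φ (G y)) =O[𝓝 0] fun y => ℓ y ^ a) := fun h => hdet (hO.trans h)
  have hhol : ContMDiffAt 𝓘(ℂ, Fin n → ℂ) 𝓘(ℂ, Fin n → ℂ) ω (fun y => Φ (G y)) 0 :=
    ContMDiffAt.comp (g := Φ) (f := G) 0 hΦ.contMDiffAt hG.contDiffAt.contMDiffAt
  have hjac : ¬ (jac (fun y => Φ (G y)) =ᶠ[𝓝 0] 0) := by
    intro h
    exact hnot (h.trans_isBigO (isBigO_zero _ _))
  refine ⟨⟨fun y => Φ (G y), ℓ, hhol, hℓ, hjac⟩, rfl, rfl, ?_⟩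
  exact Nat.sInf_le hnot

theorem mem_sub_of_isBigO (L : F ≃L[ℂ] (Fin n → ℂ)) (Φ : F → U) (G : (Fin n → ℂ) → F)
    (hG : AnalyticAt ℂ G 0) (hΦ : IsLocalDiffeomorphAt 𝓘(ℂ, F) 𝓘(ℂ, Fin n → ℂ) ω Φ (G 0))
    (D : DivisorOver n U) (hD : D.g = fun y => Φ (G y)) {m k : ℕ} (s : antiSections n U m)
    (h : (fun y => pull L Φ s (G y)) =O[𝓝 0] fun y => D.ℓ y ^ k) : s ∈ D.sub m k := by
  change along D.g s =O[𝓝 0] fun y => D.ℓ y ^ k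
  rw [hD]
  exact (along_isBigO L Φ G hG hΦ s).trans h

end Pool.Agent.Lib.H88V
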