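import Pool.Agent.Lib.H88V.A3

/-!
# Project H88V, chunk A5: sections along a standard curve
-/

open scoped Manifold ContDiff Topology Nat
open Filter Asymptotics Set

namespace Pool.Agent.Lib.H88V

/-- Proof. `an₀`, `an₁`: `pull_analyticAt`. For `z ≠ 0` let `θ` be from `C.glue`; then `κ x =
((fderiv ℂ θ x).det ^ m)⁻¹` is continuous at `(z,0,0)` (`AnalyticAt.fderiv`, continuity of `det`, value not
`0`) with `‖κ (z,0,0)‖ = ‖z‖^(m (p+2))` by `det_diag`, and `pull_comp` holds for all `x` near `(z,0,0)`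
(`eventually_localDiffeo` for `Φ₀`, and for `Φ₁` at `θ x` by continuity of `θ`;
`Filter.Eventually.eventually_nhds` for `Φ₀ = Φ₁ ∘ θ`). -/
theorem glued_pull {n : ℕ} {U : Type*} [TopologicalSpace U] [ChartedSpace (Fin n → ℂ) U]
    [IsManifold 𝓘(ℂ, Fin n → ℂ) ω U] {p c : ℕ} (C : StandardCurve n U p c)
    (L : Tube p c ≃L[ℂ] (Fin n → ℂ)) {m : ℕ} (s : antiSections n U m) :
    Glued (m * (p + 2)) (pull L C.Φ₀ s) (pull L C.Φ₁ s) := by
  refine ⟨fun z => pull_analyticAt L C.Φ₀ (z, 0, 0) (C.bihol₀ z) s,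
    fun z => pull_analyticAt L C.Φ₁ (z, 0, 0) (C.bihol₁ z) s, fun z hz => ?_⟩
  obtain ⟨θ, hθ, hθ0, hE, hD⟩ := C.glue z hz
  have hdet : (fderiv ℂ θ (z, 0, 0)).det = -(z ^ 2)⁻¹ * (z⁻¹) ^ p := det_diag z _ hD
  have hne : (fderiv ℂ θ (z, 0, 0)).det ≠ 0 := by
    rw [hdet]
    exact mul_ne_zero (neg_ne_zero.2 (inv_ne_zero (pow_ne_zero _ hz)))
      (pow_ne_zero _ (inv_ne_zero hz))
  refine ⟨θ, fun x => ((fderiv ℂ θ x).det ^ m)⁻¹, hθ, hθ0, hD, ?_, ?_, ?_⟩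
  · have h1 : ContinuousAt (fderiv ℂ θ) (z, 0, 0) := hθ.fderiv.continuousAt
    have h2 : ContinuousAt (fun x => (fderiv ℂ θ x).det) (z, 0, 0) :=
      ContinuousLinearMap.continuous_det.continuousAt.comp h1
    exact (h2.pow m).inv₀ (pow_ne_zero _ hne)
  · show ‖((fderiv ℂ θ (z, 0, 0)).det ^ m)⁻¹‖ = ‖z‖ ^ (m * (p + 2))
    rw [hdet, norm_inv, norm_pow, norm_mul, norm_neg, norm_inv, norm_pow, norm_pow, norm_inv,
      inv_pow, ← mul_inv, inv_pow, inv_inv, ← pow_add, ← pow_mul]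
    congr 1
    ring
  · have h1 : ∀ᶠ x in 𝓝 ((z, 0, 0) : Tube p c),
        IsLocalDiffeomorphAt 𝓘(ℂ, Tube p c) 𝓘(ℂ, Fin n → ℂ) ω C.Φ₁ (θ x) := by
      have h2 := eventually_localDiffeo C.Φ₁ (z⁻¹, 0, 0) (C.bihol₁ z⁻¹)
      have h3 : Tendsto θ (𝓝 (z, 0, 0)) (𝓝 (z⁻¹, 0, 0)) := by
        rw [← hθ0]
        exact hθ.continuousAt
      exact h3.eventually h2
    filter_upwards [eventually_localDiffeo C.Φ₀ (z, 0, 0) (C.bihol₀ z), h1,
      hθ.eventually_analyticAt, hE.eventually_nhds] with x h4 h5 h6 h7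
    exact pull_comp L C.Φ₀ C.Φ₁ θ x h4 h5 h6.differentiableAt h7 s

/-- Proof. `IsLocalDiffeomorphAt.mfderivToContinuousLinearEquiv` for `C.bihol₀ 0` (tangent spaces of vector
spaces and of `U` are the model spaces by definition), or `chart_comp_fderiv`. The dimensions give the second
statement. -/
theorem exists_linear {n : ℕ} {U : Type*} [TopologicalSpace U] [ChartedSpace (Fin n → ℂ) U]
    [IsManifold 𝓘(ℂ, Fin n → ℂ) ω U] {p c : ℕ} (C : StandardCurve n U p c) :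
    Nonempty (Tube p c ≃L[ℂ] (Fin n → ℂ)) ∧ n = p + 1 + c := by
  obtain ⟨A, -⟩ := chart_comp_fderiv C.Φ₀ (0, 0, 0) (C.bihol₀ 0)
    (chartAt (Fin n → ℂ) (C.Φ₀ (0, 0, 0))) (chart_mem_atlas _ _) (mem_chart_source _ _)
  refine ⟨⟨A⟩, ?_⟩
  have h := A.toLinearEquiv.finrank_eq
  rw [Module.finrank_prod, Module.finrank_prod, Module.finrank_self, Module.finrank_fin_fun,
    Module.finrank_fin_fun, Module.finrank_fin_fun] at h
  omega

end Pool.Agent.Lib.H88V
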