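import Pool.Agent.Lib.H88V.Defs

/-!
# Project H88V: definitions for the local analysis along a curve
-/

open scoped Topology Nat
open Filter Asymptotics Set

namespace Pool.Agent.Lib.H88V

/-- The part of weight `k` of `f` along the zero section `ℂ × 0 × 0`, for the weights `a` of the
coordinates of `ℂᵖ` and `b` of the coordinates of `ℂᶜ`: the coefficient of `ζ^k` in
`f (z, ζ^a v, ζ^b w)`. -/
noncomputable def coef {p c : ℕ} (a b k : ℕ) (f : Tube p c → ℂ) (x : Tube p c) : ℂ :=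
  ((k ! : ℕ) : ℂ)⁻¹ *
    iteratedDeriv k (fun ζ : ℂ => f (x.1, ζ ^ a • x.2.1, ζ ^ b • x.2.2)) 0

/-- Two functions near the zero section glued like a section of a line bundle of degree `N` on the
curve. -/
structure Glued {p c : ℕ} (N : ℕ) (f₀ f₁ : Tube p c → ℂ) : Prop where
  an₀ : ∀ z : ℂ, AnalyticAt ℂ f₀ (z, 0, 0)
  an₁ : ∀ z : ℂ, AnalyticAt ℂ f₁ (z, 0, 0)
  glue : ∀ z : ℂ, z ≠ 0 → ∃ (θ : Tube p c → Tube p c) (κ : Tube p c → ℂ),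
    AnalyticAt ℂ θ (z, 0, 0) ∧ θ (z, 0, 0) = (z⁻¹, 0, 0) ∧
    (∀ a v w, fderiv ℂ θ (z, 0, 0) (a, v, w) = (-(z ^ 2)⁻¹ * a, z⁻¹ • v, w)) ∧
    ContinuousAt κ (z, 0, 0) ∧ ‖κ (z, 0, 0)‖ = ‖z‖ ^ N ∧
    f₀ =ᶠ[𝓝 (z, 0, 0)] fun x => κ x * f₁ (θ x)

/-- The monomials on `Tube p c`. -/
def mono {p c : ℕ} (r : ℕ) (I : Fin p → ℕ) (J : Fin c → ℕ) (x : Tube p c) : ℂ :=
  x.1 ^ r * (∏ i, x.2.1 i ^ I i) * ∏ j, x.2.2 j ^ J j

/-- The monomials `z^r v^I w^J` with `r + |I| = j` and `a |I| + b |J| = k`. -/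
def monos {p c : ℕ} (a b j k : ℕ) : Set (Tube p c → ℂ) :=
  {g | ∃ (r : ℕ) (I : Fin p → ℕ) (J : Fin c → ℕ), r + ∑ i, I i = j ∧
    a * ∑ i, I i + b * ∑ i, J i = k ∧ g = mono r I J}

end Pool.Agent.Lib.H88V
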