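import Pool.Agent.Lib.H88V.An

/-!
# Project H88V, chunk B1: derivatives with a parameter
-/

open scoped Topology Nat
open Filter Asymptotics Set

namespace Pool.Agent.Lib.H88V

/-- Proof. Induction on `k`. For `k = 0` this is `hH` (`iteratedDeriv_zero`). Let
`H' q = iteratedDeriv k (fun ζ => H (ζ, q.2)) q.1`, analytic at `(0, x₀)` by induction, hence analytic
at all points near `(0, x₀)` (`AnalyticAt.eventually_analyticAt`), in particular differentiable there.
For such `q`, `iteratedDeriv (k+1) (fun ζ => H (ζ, q.2)) q.1 = deriv (fun ζ => H' (ζ, q.2)) q.1`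
(`iteratedDeriv_succ`) `= fderiv ℂ H' q (1, 0)` (chain rule with `ζ ↦ (ζ, q.2)`). The function
`q ↦ fderiv ℂ H' q (1, 0)` is analytic at `(0, x₀)` by `AnalyticAt.fderiv` (and composition with the
continuous linear map `A ↦ A (1, 0)`), and analyticity is preserved under eventual equality. -/
theorem analyticAt_iteratedDeriv_param {X : Type*} [NormedAddCommGroup X] [NormedSpace ℂ X]
    (H : ℂ × X → ℂ) (x₀ : X) (hH : AnalyticAt ℂ H (0, x₀)) (k : ℕ) :
    AnalyticAt ℂ (fun q : ℂ × X => iteratedDeriv k (fun ζ => H (ζ, q.2)) q.1) (0, x₀) := by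
  induction k with
  | zero =>
    simp only [iteratedDeriv_zero]
    exact hH
  | succ k ih =>
    set H' : ℂ × X → ℂ := fun q => iteratedDeriv k (fun ζ => H (ζ, q.2)) q.1 with hH'
    have h1 : ∀ᶠ q : ℂ × X in 𝓝 (0, x₀),
        iteratedDeriv (k + 1) (fun ζ => H (ζ, q.2)) q.1 = fderiv ℂ H' q (1, 0) := by
      filter_upwards [ih.eventually_analyticAt] with q hq
      rw [iteratedDeriv_succ]
      have h2 : (iteratedDeriv k fun ζ => H (ζ, q.2)) = fun ζ => H' (ζ, q.2) := rfl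
      rw [h2]
      have h3 : HasFDerivAt H' (fderiv ℂ H' q) (q.1, q.2) := hq.differentiableAt.hasFDerivAt
      have h4 : HasDerivAt (fun ζ : ℂ => (ζ, q.2)) ((1 : ℂ), (0 : X)) q.1 :=
        (hasDerivAt_id q.1).prodMk (hasDerivAt_const q.1 q.2)
      have h5 := h3.comp_hasDerivAt q.1 h4
      exact h5.deriv
    have h2 : AnalyticAt ℂ (fun q : ℂ × X => fderiv ℂ H' q (1, 0)) (0, x₀) := by
      have h3 : AnalyticAt ℂ (fderiv ℂ H') (0, x₀) := ih.fderiv
      exact ((ContinuousLinearMap.apply ℂ ℂ ((1 : ℂ), (0 : X))).analyticAt _).fun_comp_of_eq h3 rfl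
    exact h2.congr (h1.mono fun q hq => hq.symm)

/-- Proof. Compose the previous theorem with `x ↦ (0, x)`. -/
theorem analyticAt_iteratedDeriv_param_zero {X : Type*} [NormedAddCommGroup X] [NormedSpace ℂ X]
    (H : ℂ × X → ℂ) (x₀ : X) (hH : AnalyticAt ℂ H (0, x₀)) (k : ℕ) :
    AnalyticAt ℂ (fun x : X => iteratedDeriv k (fun ζ => H (ζ, x)) 0) x₀ := by
  have h1 := analyticAt_iteratedDeriv_param H x₀ hH k
  have h2 : AnalyticAt ℂ (fun x : X => ((0 : ℂ), x)) x₀ :=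
    analyticAt_const.prod analyticAt_id
  exact h1.fun_comp_of_eq h2 rfl

/-- Proof. The inner function is analytic in `(ζ, x)` (polynomial in the coordinates), its value at
`(0, x)` is `(x.1, 0, 0)` as `a, b ≥ 1`. -/
theorem tube_analyticAt {p c : ℕ} (a b : ℕ) (ha : 1 ≤ a) (hb : 1 ≤ b) (f : Tube p c → ℂ)
    (x : Tube p c) (hf : AnalyticAt ℂ f (x.1, 0, 0)) :
    AnalyticAt ℂ (fun q : ℂ × Tube p c => f (q.2.1, q.1 ^ a • q.2.2.1, q.1 ^ b • q.2.2.2))
      (0, x) := by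
  have ha0 : a ≠ 0 := by omega
  have hb0 : b ≠ 0 := by omega
  have e1 : AnalyticAt ℂ (fun q : ℂ × Tube p c => q.1) (0, x) := analyticAt_fst
  have e2 : AnalyticAt ℂ (fun q : ℂ × Tube p c => q.2) (0, x) := analyticAt_snd
  have e3 : AnalyticAt ℂ (fun q : ℂ × Tube p c => q.2.1) (0, x) :=
    (ContinuousLinearMap.fst ℂ ℂ _ |>.analyticAt x).fun_comp_of_eq e2 rfl
  have e4 : AnalyticAt ℂ (fun q : ℂ × Tube p c => q.2.2) (0, x) :=
    (ContinuousLinearMap.snd ℂ ℂ _ |>.analyticAt x).fun_comp_of_eq e2 rfl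
  have e5 : AnalyticAt ℂ (fun q : ℂ × Tube p c => q.2.2.1) (0, x) :=
    (ContinuousLinearMap.fst ℂ _ _ |>.analyticAt x.2).fun_comp_of_eq e4 rfl
  have e6 : AnalyticAt ℂ (fun q : ℂ × Tube p c => q.2.2.2) (0, x) :=
    (ContinuousLinearMap.snd ℂ _ _ |>.analyticAt x.2).fun_comp_of_eq e4 rfl
  have e7 : AnalyticAt ℂ
      (fun q : ℂ × Tube p c => ((q.2.1, q.1 ^ a • q.2.2.1, q.1 ^ b • q.2.2.2) : Tube p c))
      (0, x) := e3.prod (((e1.pow a).smul e5).prod ((e1.pow b).smul e6))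
  refine AnalyticAt.fun_comp_of_eq (g := f) hf e7 ?_
  simp [ha0, hb0]

/-- Proof. `tube_analyticAt` and `analyticAt_iteratedDeriv_param_zero`. -/
theorem coef_analyticAt {p c : ℕ} (a b k : ℕ) (ha : 1 ≤ a) (hb : 1 ≤ b) (f : Tube p c → ℂ)
    (x : Tube p c) (hf : AnalyticAt ℂ f (x.1, 0, 0)) : AnalyticAt ℂ (coef a b k f) x := by
  have h1 := analyticAt_iteratedDeriv_param_zero
    (fun q : ℂ × Tube p c => f (q.2.1, q.1 ^ a • q.2.2.1, q.1 ^ b • q.2.2.2)) x
    (tube_analyticAt a b ha hb f x hf) k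
  exact analyticAt_const.mul h1

end Pool.Agent.Lib.H88V
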