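import Pool.Agent.Lib.H88V.An

/-!
# Project H88V, chunk B2: one variable lemmas
-/

open scoped Topology Nat
open Filter Asymptotics Set

namespace Pool.Agent.Lib.H88V

/-- Proof. Cauchy estimates (`Complex.norm_iteratedDeriv_le_of_forall_mem_sphere_norm_le`) on the circle
of radius `r → 0`: `‖iteratedDeriv j h 0‖ ≤ j! C r^k / r^j → 0` for `j < k`. -/
theorem iteratedDeriv_eq_zero_of_isBigO (h : ℂ → ℂ) (hh : AnalyticAt ℂ h 0) (k : ℕ)
    (hO : h =O[𝓝 0] fun ζ => ζ ^ k) : ∀ j < k, iteratedDeriv j h 0 = 0 := by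
  intro j hj
  obtain ⟨C, hC, hb⟩ := hO.exists_pos
  obtain ⟨δ, hδ, hball⟩ := Metric.eventually_nhds_iff.1 (hh.eventually_analyticAt.and hb.bound)
  have hev : ∀ᶠ r in 𝓝[>] (0 : ℝ), ‖iteratedDeriv j h 0‖ ≤ (j ! : ℝ) * C * r ^ (k - j) := by
    filter_upwards [Ioo_mem_nhdsGT hδ] with r hr
    have hd : DiffContOnCl ℂ h (Metric.ball 0 r) := by
      apply DifferentiableOn.diffContOnCl
      intro z hz
      have hz' : dist z 0 < δ := by
        have := Metric.closure_ball_subset_closedBall hz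
        rw [Metric.mem_closedBall] at this
        exact lt_of_le_of_lt this hr.2
      exact (hball hz').1.differentiableAt.differentiableWithinAt
    have h1 := Complex.norm_iteratedDeriv_le_of_forall_mem_sphere_norm_le (C := C * r ^ k) j hr.1 hd (by
      intro z hz
      have hz' : ‖z‖ = r := by simpa using hz
      have h2 := (hball (y := z) (by rw [dist_zero_right, hz']; exact hr.2)).2
      rwa [norm_pow, hz'] at h2)
    refine h1.trans (le_of_eq ?_)
    have h3 : r ^ k = r ^ (k - j) * r ^ j := by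
      rw [← pow_add]
      congr 1
      omega
    rw [h3]
    have h4 : r ^ j ≠ 0 := pow_ne_zero _ hr.1.ne'
    field_simp
  have hlim : Tendsto (fun r : ℝ => (j ! : ℝ) * C * r ^ (k - j)) (𝓝[>] (0 : ℝ)) (𝓝 0) := by
    have h1 : Continuous fun r : ℝ => (j ! : ℝ) * C * r ^ (k - j) := by fun_prop
    have h2 := h1.tendsto 0
    rw [zero_pow (by omega : k - j ≠ 0), mul_zero] at h2
    exact h2.mono_left nhdsWithin_le_nhds
  exact norm_le_zero_iff.1 (ge_of_tendsto hlim hev)

/-- Proof. Cauchy estimates on the circle of radius `r → ∞`: `‖iteratedDeriv j u 0‖ ≤ j! C r^N / r^j → 0`. -/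
theorem iteratedDeriv_eq_zero_of_growth (u : ℂ → ℂ) (hu : ∀ z, AnalyticAt ℂ u z) (N : ℕ) (C R : ℝ)
    (hO : ∀ z, R ≤ ‖z‖ → ‖u z‖ ≤ C * ‖z‖ ^ N) : ∀ j, N < j → iteratedDeriv j u 0 = 0 := by
  intro j hj
  have hev : ∀ᶠ r in (atTop : Filter ℝ), ‖iteratedDeriv j u 0‖ ≤ (j ! : ℝ) * C * (r ^ (j - N))⁻¹ := by
    filter_upwards [eventually_ge_atTop (max R 1)] with r hr
    have hrR : R ≤ r := (le_max_left _ _).trans hr
    have hr1 : 1 ≤ r := (le_max_right _ _).trans hr
    have hr0 : 0 < r := by linarith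
    have hd : DiffContOnCl ℂ u (Metric.ball 0 r) := by
      apply Differentiable.diffContOnCl
      exact fun z => (hu z).differentiableAt
    have h1 := Complex.norm_iteratedDeriv_le_of_forall_mem_sphere_norm_le (C := C * r ^ N) j hr0 hd (by
      intro z hz
      have hz' : ‖z‖ = r := by simpa using hz
      have h2 := hO z (by rw [hz']; exact hrR)
      rwa [hz'] at h2)
    refine h1.trans (le_of_eq ?_)
    have h3 : r ^ j = r ^ (j - N) * r ^ N := by
      rw [← pow_add]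
      congr 1
      omega
    rw [h3]
    have h4 : r ^ N ≠ 0 := pow_ne_zero _ hr0.ne'
    have h5 : r ^ (j - N) ≠ 0 := pow_ne_zero _ hr0.ne'
    field_simp
  have hlim : Tendsto (fun r : ℝ => (j ! : ℝ) * C * (r ^ (j - N))⁻¹) atTop (𝓝 0) := by
    have h1 := (tendsto_pow_atTop (α := ℝ) (n := j - N) (by omega)).inv_tendsto_atTop
    have h2 := h1.const_mul ((j ! : ℝ) * C)
    rwa [mul_zero] at h2
  exact norm_le_zero_iff.1 (ge_of_tendsto hlim hev)

/-- Proof. All Taylor coefficients of `u` at `0` vanish, so `u` vanishes near `0` (the power series is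
zero; or `AnalyticAt` with all iterated derivatives zero), and the identity theorem
(`AnalyticOnNhd.eq_of_eventuallyEq`) gives `u = 0`. Alternatively `Differentiable ℂ u` and
`Complex.taylorSeries_eq_of_entire`. -/
theorem eq_zero_of_iteratedDeriv (u : ℂ → ℂ) (hu : ∀ z, AnalyticAt ℂ u z)
    (h : ∀ j, iteratedDeriv j u 0 = 0) : ∀ z, u z = 0 := by
  intro z
  have hd : Differentiable ℂ u := fun z => (hu z).differentiableAt
  have h1 := Complex.hasSum_taylorSeries_of_entire hd 0 z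
  have h2 : (fun n : ℕ => (n ! : ℂ)⁻¹ • (z - 0) ^ n • iteratedDeriv n u 0) = fun _ => 0 := by
    funext n
    rw [h n, smul_zero, smul_zero]
  rw [h2] at h1
  exact h1.unique hasSum_zero

/-- A version of the lemma of Schwarz with a constant. Proof. By Cauchy, the Taylor coefficients satisfy
`‖iteratedDeriv j h 0 / j!‖ ≤ C / ρ^j`, and they vanish for `j < k`; for `‖ζ‖ ≤ ρ / 2`,
`‖h ζ‖ ≤ ∑_{j ≥ k} C (‖ζ‖/ρ)^j ≤ 2 C (‖ζ‖/ρ)^k` (`Complex.hasSum_taylorSeries_on_ball`, on the ball of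
radius `ρ`; geometric series with ratio at most `1/2`). -/
theorem schwarz_pow (h : ℂ → ℂ) (ρ C : ℝ) (hρ : 0 < ρ)
    (hh : ∀ ζ, ‖ζ‖ ≤ ρ → AnalyticAt ℂ h ζ) (hC : ∀ ζ, ‖ζ‖ ≤ ρ → ‖h ζ‖ ≤ C) (k : ℕ)
    (h0 : ∀ j < k, iteratedDeriv j h 0 = 0) (ζ : ℂ) (hζ : ‖ζ‖ ≤ ρ / 2) :
    ‖h ζ‖ ≤ 2 * C * (‖ζ‖ / ρ) ^ k := by
  have hC0 : 0 ≤ C := (norm_nonneg _).trans (hC 0 (by rw [norm_zero]; exact hρ.le))
  have hcl : ∀ z ∈ Metric.closedBall (0 : ℂ) ρ, AnalyticAt ℂ h z := fun z hz => hh z (by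
    simpa using hz)
  have hd : DiffContOnCl ℂ h (Metric.ball 0 ρ) := by
    apply DifferentiableOn.diffContOnCl
    intro z hz
    exact (hcl z (Metric.closure_ball_subset_closedBall hz)).differentiableAt.differentiableWithinAt
  have hcoef : ∀ j, ‖iteratedDeriv j h 0‖ ≤ (j ! : ℝ) * C / ρ ^ j := fun j =>
    Complex.norm_iteratedDeriv_le_of_forall_mem_sphere_norm_le j hρ hd (by
      intro z hz
      have hz' : ‖z‖ = ρ := by simpa using hz
      exact hC z hz'.le)
  have hζb : ζ ∈ Metric.ball (0 : ℂ) ρ := by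
    rw [mem_ball_zero_iff]
    linarith
  have hsum := Complex.hasSum_taylorSeries_on_ball (f := h) (c := 0) (r := ρ)
    (fun z hz => (hcl z (Metric.ball_subset_closedBall hz)).differentiableAt.differentiableWithinAt) hζb
  have hsum2 := (hasSum_nat_add_iff' k).2 hsum
  rw [Finset.sum_eq_zero, sub_zero, sub_zero] at hsum2
  · set q : ℝ := ‖ζ‖ / ρ with hq
    have hq0 : 0 ≤ q := by positivity
    have hq1 : q ≤ 1 / 2 := by
      rw [hq, div_le_iff₀ hρ]
      linarith
    have hgeo := (hasSum_geometric_of_lt_one hq0 (by linarith)).mul_left (C * q ^ k)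
    have h1 := hsum2.norm_le_of_bounded hgeo (by
      intro j
      rw [norm_smul, norm_smul, norm_inv, norm_pow, Complex.norm_natCast]
      have h2 := hcoef (j + k)
      have hf : (0 : ℝ) < ((j + k)! : ℝ) := by exact_mod_cast Nat.factorial_pos _
      calc (((j + k)! : ℝ))⁻¹ * (‖ζ‖ ^ (j + k) * ‖iteratedDeriv (j + k) h 0‖) ≤
          (((j + k)! : ℝ))⁻¹ * (‖ζ‖ ^ (j + k) * (((j + k)! : ℝ) * C / ρ ^ (j + k))) := by
            gcongr
        _ = C * q ^ k * q ^ j := by
            rw [hq, div_pow, div_pow, pow_add, pow_add]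
            field_simp)
    refine h1.trans ?_
    have h3 : (1 - q)⁻¹ ≤ 2 := by
      rw [inv_le_comm₀ (by linarith) (by norm_num)]
      linarith
    have h4 : 0 ≤ C * q ^ k := by positivity
    calc C * q ^ k * (1 - q)⁻¹ ≤ C * q ^ k * 2 := mul_le_mul_of_nonneg_left h3 h4
      _ = 2 * C * q ^ k := by ring
  · intro j hj
    rw [h0 j (Finset.mem_range.1 hj), smul_zero, smul_zero]

/-- Proof. If all derivatives of order `≤ N` of `u` vanish at `0` (`iteratedDeriv_eq_zero_of_isBigO` with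
`N + 1 ≤ k`) and those of order `> N` vanish by hypothesis then `u = 0` by `eq_zero_of_iteratedDeriv`. -/
theorem eq_zero_of_order_of_degree (u : ℂ → ℂ) (hu : ∀ z, AnalyticAt ℂ u z) (N k : ℕ)
    (hd : ∀ j, N < j → iteratedDeriv j u 0 = 0) (hk : N < k) (hO : u =O[𝓝 0] fun ζ => ζ ^ k) :
    ∀ z, u z = 0 := by
  apply eq_zero_of_iteratedDeriv u hu
  intro j
  by_cases hj : N < j
  · exact hd j hj
  · exact iteratedDeriv_eq_zero_of_isBigO u (hu 0) k hO j (by omega)

end Pool.Agent.Lib.H88V
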