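import Pool.Agent.Lib.H88V.B1
import Pool.Agent.Lib.H88V.B2

/-!
# Project H88V, chunk B3: order of vanishing, uniformly in a parameter
-/

open scoped Topology Nat
open Filter Asymptotics Set

namespace Pool.Agent.Lib.H88V

theorem b3_slice {X : Type*} [NormedAddCommGroup X] [NormedSpace ℂ X]
    (H : ℂ × X → ℂ) (ζ : ℂ) (x : X) (hH : AnalyticAt ℂ H (ζ, x)) :
    AnalyticAt ℂ (fun ζ => H (ζ, x)) ζ :=
  AnalyticAt.comp (g := H) (f := fun ζ : ℂ => (ζ, x)) hH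
    (analyticAt_id.prod analyticAt_const)

/-- Proof. `H` is analytic and bounded by a constant `C` near `(0, x₀)`: choose `ρ > 0` and a neighbourhood
`N` of `x₀` such that this holds on `{‖ζ‖ ≤ ρ} × N` and the hypothesis `h0` holds on `N`. For `x ∈ N` apply
`schwarz_pow` to `ζ ↦ H (ζ, x)` (analytic as the composition of `H` with `ζ ↦ (ζ, x)`). -/
theorem isBigO_pow_of_iteratedDeriv {X : Type*} [NormedAddCommGroup X] [NormedSpace ℂ X]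
    (H : ℂ × X → ℂ) (x₀ : X) (hH : AnalyticAt ℂ H (0, x₀)) (k : ℕ)
    (h0 : ∀ᶠ x in 𝓝 x₀, ∀ j < k, iteratedDeriv j (fun ζ => H (ζ, x)) 0 = 0) :
    H =O[𝓝 (0, x₀)] fun q => q.1 ^ k := by
  have h1 := hH.eventually_analyticAt
  have h2 : ∀ᶠ q in 𝓝 ((0 : ℂ), x₀), ‖H q‖ < ‖H (0, x₀)‖ + 1 :=
    hH.continuousAt.norm.eventually_lt continuousAt_const (by linarith)
  have h3 := h1.and h2
  rw [nhds_prod_eq, eventually_prod_iff] at h3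
  obtain ⟨pa, ha, pb, hb, hab⟩ := h3
  obtain ⟨ε, hε, hball⟩ := Metric.eventually_nhds_iff.1 ha
  have hcl : ∀ ζ : ℂ, ‖ζ‖ ≤ ε / 2 → pa ζ := by
    intro ζ hζ
    apply hball
    rw [dist_zero_right]
    linarith
  have hC : 0 ≤ ‖H (0, x₀)‖ + 1 := by positivity
  apply IsBigO.of_bound (2 * (‖H (0, x₀)‖ + 1) / (ε / 2) ^ k)
  have e1 : ∀ᶠ q in 𝓝 ((0 : ℂ), x₀), ‖q.1‖ ≤ ε / 2 / 2 := by
    have : ContinuousAt (fun q : ℂ × X => ‖q.1‖) ((0 : ℂ), x₀) := continuousAt_fst.norm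
    have := this.eventually_lt (continuousAt_const (y := ε / 2 / 2)) (by simp; linarith)
    exact this.mono fun q hq => hq.le
  have e2 : ∀ᶠ q in 𝓝 ((0 : ℂ), x₀), pb q.2 := by
    have : Tendsto (fun q : ℂ × X => q.2) (𝓝 ((0 : ℂ), x₀)) (𝓝 x₀) := continuousAt_snd
    exact this.eventually hb
  have e3 : ∀ᶠ q in 𝓝 ((0 : ℂ), x₀), ∀ j < k, iteratedDeriv j (fun ζ => H (ζ, q.2)) 0 = 0 := by
    have : Tendsto (fun q : ℂ × X => q.2) (𝓝 ((0 : ℂ), x₀)) (𝓝 x₀) := continuousAt_snd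
    exact this.eventually h0
  filter_upwards [e1, e2, e3] with q q1 q2 q3
  have key := schwarz_pow (fun ζ => H (ζ, q.2)) (ε / 2) (‖H (0, x₀)‖ + 1) (by linarith)
    (fun ζ hζ => b3_slice H ζ q.2 (hab (hcl ζ hζ) q2).1)
    (fun ζ hζ => (hab (hcl ζ hζ) q2).2.le) k q3 q.1 q1
  have : 2 * (‖H (0, x₀)‖ + 1) * (‖q.1‖ / (ε / 2)) ^ k =
      2 * (‖H (0, x₀)‖ + 1) / (ε / 2) ^ k * ‖q.1 ^ k‖ := by
    rw [norm_pow, div_pow]
    ring
  rw [← this]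
  exact key

/-- Proof. Apply the previous theorem with `k + 1` to
`H₁ q = H q - q.1 ^ k * (k!)⁻¹ * iteratedDeriv k (fun ζ => H (ζ, q.2)) 0`, which is analytic at `(0, x₀)`
(`analyticAt_iteratedDeriv_param_zero`): for `x` near `x₀` the derivatives of `ζ ↦ H₁ (ζ, x)` at `0` of
order `j < k` are those of `H`, that is `0`, and the derivative of order `k` is `0`
(`iteratedDeriv_sub`, `iteratedDeriv_const_mul`, derivatives of `ζ^k` at `0`). -/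
theorem isBigO_sub_leading {X : Type*} [NormedAddCommGroup X] [NormedSpace ℂ X]
    (H : ℂ × X → ℂ) (x₀ : X) (hH : AnalyticAt ℂ H (0, x₀)) (k : ℕ)
    (h0 : ∀ᶠ x in 𝓝 x₀, ∀ j < k, iteratedDeriv j (fun ζ => H (ζ, x)) 0 = 0) :
    (fun q : ℂ × X => H q - q.1 ^ k * (((k ! : ℕ) : ℂ)⁻¹ *
      iteratedDeriv k (fun ζ => H (ζ, q.2)) 0)) =O[𝓝 (0, x₀)] fun q => q.1 ^ (k + 1) := by
  have hD := analyticAt_iteratedDeriv_param_zero H x₀ hH k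
  have hH1 : AnalyticAt ℂ (fun q : ℂ × X => H q - q.1 ^ k * (((k ! : ℕ) : ℂ)⁻¹ *
      iteratedDeriv k (fun ζ => H (ζ, q.2)) 0)) (0, x₀) := by
    have hD2 : AnalyticAt ℂ (fun q : ℂ × X => iteratedDeriv k (fun ζ => H (ζ, q.2)) 0) (0, x₀) :=
      AnalyticAt.comp (g := fun x : X => iteratedDeriv k (fun ζ => H (ζ, x)) 0)
        (f := fun q : ℂ × X => q.2) hD analyticAt_snd
    exact hH.sub ((analyticAt_fst.pow k).mul (analyticAt_const.mul hD2))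
  apply isBigO_pow_of_iteratedDeriv _ x₀ hH1 (k + 1)
  have h1 : ∀ᶠ x in 𝓝 x₀, AnalyticAt ℂ H (0, x) := by
    have : Tendsto (fun x : X => ((0 : ℂ), x)) (𝓝 x₀) (𝓝 ((0 : ℂ), x₀)) :=
      (Continuous.prodMk_right (0 : ℂ)).tendsto x₀
    exact this.eventually hH.eventually_analyticAt
  filter_upwards [h0, h1] with x hx hx1
  intro j hj
  have hs : AnalyticAt ℂ (fun ζ => H (ζ, x)) 0 := b3_slice H 0 x hx1
  show iteratedDeriv j (fun ζ : ℂ => H (ζ, x) - ζ ^ k * (((k ! : ℕ) : ℂ)⁻¹ *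
      iteratedDeriv k (fun ζ => H (ζ, x)) 0)) 0 = 0
  have hc : AnalyticAt ℂ (fun ζ : ℂ => ζ ^ k * (((k ! : ℕ) : ℂ)⁻¹ *
      iteratedDeriv k (fun ζ => H (ζ, x)) 0)) 0 := (analyticAt_id.pow k).mul analyticAt_const
  rw [iteratedDeriv_fun_sub hs.contDiffAt hc.contDiffAt,
    iteratedDeriv_mul_const_field, iteratedDeriv_fun_pow_zero]
  rcases Nat.lt_succ_iff_lt_or_eq.1 hj with h | h
  · rw [hx j h, if_neg h.ne]
    simp
  · subst h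
    have hf : ((j ! : ℕ) : ℂ) ≠ 0 := by exact_mod_cast Nat.factorial_ne_zero j
    rw [if_pos rfl, ← mul_assoc, mul_inv_cancel₀ hf, one_mul, sub_self]

/-- Proof. By `isBigO_sub_leading`, `(ζ^k)⁻¹ H (ζ, x) - (k!)⁻¹ ∂^k H (0, x) = O(ζ)`, and
`x ↦ iteratedDeriv k (fun ζ => H (ζ, x)) 0` is continuous at `x₀`. -/
theorem tendsto_leading {X α : Type*} [NormedAddCommGroup X] [NormedSpace ℂ X]
    (H : ℂ × X → ℂ) (x₀ : X) (hH : AnalyticAt ℂ H (0, x₀)) (k : ℕ)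
    (h0 : ∀ᶠ x in 𝓝 x₀, ∀ j < k, iteratedDeriv j (fun ζ => H (ζ, x)) 0 = 0)
    (l : Filter α) (ζ : α → ℂ) (x : α → X) (hζ : Tendsto ζ l (𝓝 0)) (hζ0 : ∀ᶠ i in l, ζ i ≠ 0)
    (hx : Tendsto x l (𝓝 x₀)) :
    Tendsto (fun i => (ζ i ^ k)⁻¹ * H (ζ i, x i)) l
      (𝓝 (((k ! : ℕ) : ℂ)⁻¹ * iteratedDeriv k (fun ζ => H (ζ, x₀)) 0)) := by
  have hD := analyticAt_iteratedDeriv_param_zero H x₀ hH k
  have hB := isBigO_sub_leading H x₀ hH k h0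
  have hpair : Tendsto (fun i => (ζ i, x i)) l (𝓝 ((0 : ℂ), x₀)) := hζ.prodMk_nhds hx
  have hB2 := hB.comp_tendsto hpair
  have hlim : Tendsto (fun i => ((k ! : ℕ) : ℂ)⁻¹ *
      iteratedDeriv k (fun ζ => H (ζ, x i)) 0) l
      (𝓝 (((k ! : ℕ) : ℂ)⁻¹ * iteratedDeriv k (fun ζ => H (ζ, x₀)) 0)) := by
    have : Tendsto (fun x : X => iteratedDeriv k (fun ζ => H (ζ, x)) 0) (𝓝 x₀)
      (𝓝 (iteratedDeriv k (fun ζ => H (ζ, x₀)) 0)) := hD.continuousAt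
    exact (this.comp hx).const_mul _
  have hO : (fun i => (ζ i ^ k)⁻¹ * H (ζ i, x i) - ((k ! : ℕ) : ℂ)⁻¹ *
      iteratedDeriv k (fun ζ => H (ζ, x i)) 0) =O[l] ζ := by
    have hm := (isBigO_refl (fun i => (ζ i ^ k)⁻¹) l).mul hB2
    refine (hm.congr' ?_ ?_)
    · filter_upwards [hζ0] with i hi
      have hp : ζ i ^ k ≠ 0 := pow_ne_zero _ hi
      show (ζ i ^ k)⁻¹ * (H (ζ i, x i) - ζ i ^ k * (((k ! : ℕ) : ℂ)⁻¹ *
      iteratedDeriv k (fun ζ => H (ζ, x i)) 0)) = _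
      rw [mul_sub, inv_mul_cancel_left₀ hp]
    · filter_upwards [hζ0] with i hi
      have hp : ζ i ^ k ≠ 0 := pow_ne_zero _ hi
      show (ζ i ^ k)⁻¹ * (ζ i) ^ (k + 1) = ζ i
      rw [pow_succ, inv_mul_cancel_left₀ hp]
  have hz := hO.trans_tendsto hζ
  have := hz.add hlim
  simpa using this

theorem b3_zero {p c : ℕ} (a b k : ℕ) (f : Tube p c → ℂ) (x : Tube p c)
    (h0 : ∀ᶠ y in 𝓝 x, ∀ j < k, coef a b j f y = 0) :
    ∀ᶠ y in 𝓝 x, ∀ j < k, iteratedDeriv j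
      (fun ζ : ℂ => f (y.1, ζ ^ a • y.2.1, ζ ^ b • y.2.2)) 0 = 0 := by
  filter_upwards [h0] with y hy j hj
  have h1 := hy j hj
  unfold coef at h1
  have hf : ((j ! : ℕ) : ℂ)⁻¹ ≠ 0 := inv_ne_zero (by exact_mod_cast Nat.factorial_ne_zero j)
  exact (mul_eq_zero.1 h1).resolve_left hf

/-- Proof. `tendsto_leading` for `k` at the point `x`. Here `coef a b j f y = 0` means that the `j`-th
derivative vanishes (`(j!)⁻¹ ≠ 0`). -/
theorem tendsto_coef {α : Type*} {p c : ℕ} (a b k : ℕ) (ha : 1 ≤ a) (hb : 1 ≤ b)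
    (f : Tube p c → ℂ) (x : Tube p c) (hf : AnalyticAt ℂ f (x.1, 0, 0))
    (h0 : ∀ᶠ y in 𝓝 x, ∀ j < k, coef a b j f y = 0)
    (l : Filter α) (ζ : α → ℂ) (y : α → Tube p c) (hζ : Tendsto ζ l (𝓝 0))
    (hζ0 : ∀ᶠ i in l, ζ i ≠ 0) (hy : Tendsto y l (𝓝 x)) :
    Tendsto (fun i => (ζ i ^ k)⁻¹ * f ((y i).1, ζ i ^ a • (y i).2.1, ζ i ^ b • (y i).2.2)) l
      (𝓝 (coef a b k f x)) := by
  have hH := tube_analyticAt a b ha hb f x hf
  exact tendsto_leading (fun q : ℂ × Tube p c => f (q.2.1, q.1 ^ a • q.2.2.1, q.1 ^ b • q.2.2.2))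
    x hH k (b3_zero a b k f x h0) l ζ y hζ hζ0 hy

/-- Proof. `isBigO_pow_of_iteratedDeriv`. -/
theorem isBigO_coef {p c : ℕ} (a b k : ℕ) (ha : 1 ≤ a) (hb : 1 ≤ b)
    (f : Tube p c → ℂ) (x : Tube p c) (hf : AnalyticAt ℂ f (x.1, 0, 0))
    (h0 : ∀ᶠ y in 𝓝 x, ∀ j < k, coef a b j f y = 0) :
    (fun q : ℂ × Tube p c => f (q.2.1, q.1 ^ a • q.2.2.1, q.1 ^ b • q.2.2.2))
      =O[𝓝 (0, x)] fun q => q.1 ^ k := by
  have hH := tube_analyticAt a b ha hb f x hf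
  exact isBigO_pow_of_iteratedDeriv
    (fun q : ℂ × Tube p c => f (q.2.1, q.1 ^ a • q.2.2.1, q.1 ^ b • q.2.2.2))
    x hH k (b3_zero a b k f x h0)

end Pool.Agent.Lib.H88V
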