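import Pool.Agent.Lib.H88V.B3

/-!
# Project H88V, chunk B4: leading parts are glued
-/

open scoped Topology Nat
open Filter Asymptotics Set

namespace Pool.Agent.Lib.H88V

/-- The transition map on weighted lines. Proof. `θ` is analytic, so
`θ (x₀ + y) = θ x₀ + Dθ y + O(‖y‖²)` (`HasFPowerSeriesAt.isBigO_sub_partialSum_pow` for `n = 2`, the linear
term being `fderiv`), `x₀ = (z, 0, 0)`. Put `y = (0, ζ^a v, ζ^b w)`, `‖y‖ = O(ζ^a)` since `a ≤ b`. So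
`θ (z, ζ^a v, ζ^b w) = (z⁻¹, ζ^a z⁻¹ v, ζ^b w) + O(ζ^(2a))`. The three limits follow as `2a > b ≥ a ≥ 1`. -/
theorem transition_tendsto {p c : ℕ} (θ : Tube p c → Tube p c) (z : ℂ)
    (hθ : AnalyticAt ℂ θ (z, 0, 0)) (h1 : θ (z, 0, 0) = (z⁻¹, 0, 0))
    (h2 : ∀ a v w, fderiv ℂ θ (z, 0, 0) (a, v, w) = (-(z ^ 2)⁻¹ * a, z⁻¹ • v, w))
    (a b : ℕ) (ha : 1 ≤ a) (hab : a ≤ b) (hb : b < 2 * a) (v : Fin p → ℂ) (w : Fin c → ℂ) :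
    Tendsto (fun ζ : ℂ => (((θ (z, ζ ^ a • v, ζ ^ b • w)).1,
      (ζ ^ a)⁻¹ • (θ (z, ζ ^ a • v, ζ ^ b • w)).2.1,
      (ζ ^ b)⁻¹ • (θ (z, ζ ^ a • v, ζ ^ b • w)).2.2) : Tube p c)) (𝓝[≠] 0)
      (𝓝 (z⁻¹, z⁻¹ • v, w)) := by
  sorry

/-- Proof. Let `θ, κ` be from `hg.glue`. For `ζ ≠ 0` small,
`f₀ (z, ζ^a v, ζ^b w) = κ (…) f₁ (θ (z, ζ^a v, ζ^b w))` and
`θ (z, ζ^a v, ζ^b w) = (y.1, ζ^a y.2.1, ζ^b y.2.2)` with `y = y(ζ)` the function of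
`transition_tendsto`, which tends to `(z⁻¹, z⁻¹ v, w)`. By `tendsto_coef` for `f₁` (filter `𝓝[≠] 0`),
`(ζ^k)⁻¹ f₀ (z, ζ^a v, ζ^b w) → κ (z,0,0) coef a b k f₁ (z⁻¹, z⁻¹ v, w)`. In particular
`f₀ (z, ζ^a v, ζ^b w) = O(ζ^k)` on `𝓝[≠] 0`, so on `𝓝 0` (at `ζ = 0`, `k ≥ 1`, by continuity; or use
Taylor), and `iteratedDeriv_eq_zero_of_isBigO` gives `coef a b j f₀ (z,v,w) = 0` for `j < k`. Then the limit
is also `coef a b k f₀ (z,v,w)` (one variable: apply `tendsto_leading` with `X = Unit` or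
`isBigO_sub_leading`, or the Taylor expansion), and limits are unique. Norms: `‖κ (z,0,0)‖ = ‖z‖^N`. -/
theorem Glued.leading {p c N : ℕ} {f₀ f₁ : Tube p c → ℂ} (hg : Glued N f₀ f₁) (a b k : ℕ)
    (ha : 1 ≤ a) (hab : a ≤ b) (hb : b < 2 * a) (h1 : ∀ j < k, ∀ x, coef a b j f₁ x = 0)
    (z : ℂ) (hz : z ≠ 0) (v : Fin p → ℂ) (w : Fin c → ℂ) :
    (∀ j < k, coef a b j f₀ (z, v, w) = 0) ∧
      ‖coef a b k f₀ (z, v, w)‖ = ‖z‖ ^ N * ‖coef a b k f₁ (z⁻¹, z⁻¹ • v, w)‖ := by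
  sorry

/-- Proof. Strong induction on `j`: assume `coef a b i f₁ = 0` for `i < j`, `j < k`. By `Glued.leading`
for `j` and `coef a b j f₀ = 0` we get `coef a b j f₁ (z⁻¹, z⁻¹ v, w) = 0` for all `z ≠ 0`, `v`, `w`; so
`coef a b j f₁ (z', v', w') = 0` for all `z' ≠ 0` (take `z = z'⁻¹`, `v = z v'`). For `z' = 0` use the
continuity of `coef a b j f₁` (`coef_analyticAt`). -/
theorem Glued.vanish {p c N : ℕ} {f₀ f₁ : Tube p c → ℂ} (hg : Glued N f₀ f₁) (a b k : ℕ)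
    (ha : 1 ≤ a) (hab : a ≤ b) (hb : b < 2 * a) (h0 : ∀ j < k, ∀ x, coef a b j f₀ x = 0) :
    ∀ j < k, ∀ x, coef a b j f₁ x = 0 := by
  sorry

end Pool.Agent.Lib.H88V
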