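import Pool.Agent.Lib.H88V.B4

/-!
# Project H88V, chunk B5: the leading parts are polynomials of bounded degree
-/

open scoped Topology Nat
open Filter Asymptotics Set

namespace Pool.Agent.Lib.H88V

/-- Proof. `φ t = coef a b k f₀ (t z, t v, w)` is entire (`coef_analyticAt` and composition). By
`Glued.vanish` and `Glued.leading`, for `t ≠ 0`,
`‖φ t‖ = ‖t z‖^N ‖coef a b k f₁ ((t z)⁻¹, (t z)⁻¹ t v, w)‖` and
`((t z)⁻¹, (t z)⁻¹ t v, w) = ((t z)⁻¹, z⁻¹ v, w) → (0, z⁻¹ v, w)` as `t → ∞`; so the last factor is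
bounded for `‖t‖` large (continuity of `coef a b k f₁` at `(0, z⁻¹ v, w)`). Apply
`iteratedDeriv_eq_zero_of_growth`. -/
theorem Glued.degree_one {p c N : ℕ} {f₀ f₁ : Tube p c → ℂ} (hg : Glued N f₀ f₁) (a b k : ℕ)
    (ha : 1 ≤ a) (hab : a ≤ b) (hb : b < 2 * a) (h0 : ∀ j < k, ∀ x, coef a b j f₀ x = 0)
    (z : ℂ) (hz : z ≠ 0) (v : Fin p → ℂ) (w : Fin c → ℂ) (j : ℕ) (hj : N < j) :
    iteratedDeriv j (fun t : ℂ => coef a b k f₀ (t * z, t • v, w)) 0 = 0 := by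
  sorry

/-- Proof. As before with `φ z = coef a b k f₀ (z, v, w)`: for `z ≠ 0`,
`‖φ z‖ = ‖z‖^N ‖coef a b k f₁ (z⁻¹, z⁻¹ v, w)‖`, and `(z⁻¹, z⁻¹ v, w) → (0, 0, w)`. -/
theorem Glued.degree_zero {p c N : ℕ} {f₀ f₁ : Tube p c → ℂ} (hg : Glued N f₀ f₁) (a b k : ℕ)
    (ha : 1 ≤ a) (hab : a ≤ b) (hb : b < 2 * a) (h0 : ∀ j < k, ∀ x, coef a b j f₀ x = 0)
    (v : Fin p → ℂ) (w : Fin c → ℂ) (j : ℕ) (hj : N < j) :
    iteratedDeriv j (fun z : ℂ => coef a b k f₀ (z, v, w)) 0 = 0 := by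
  sorry

/-- Proof. Strong induction on `k < K`: assume `coef a b i f₀ = 0` for `i < k`. For `z ≠ 0` the entire
function `φ t = coef a b k f₀ (t z, t v, w)` has all derivatives at `0` equal to `0`: those of order
`j ≤ N` by hypothesis, those of order `j > N` by `Glued.degree_one`. So `φ 1 = 0`
(`eq_zero_of_iteratedDeriv`). For `z = 0` use continuity. -/
theorem Glued.eq_zero {p c N : ℕ} {f₀ f₁ : Tube p c → ℂ} (hg : Glued N f₀ f₁) (a b K : ℕ)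
    (ha : 1 ≤ a) (hab : a ≤ b) (hb : b < 2 * a)
    (h : ∀ k < K, ∀ j ≤ N, ∀ x : Tube p c,
      iteratedDeriv j (fun t : ℂ => coef a b k f₀ (t * x.1, t • x.2.1, x.2.2)) 0 = 0) :
    ∀ k < K, ∀ x, coef a b k f₀ x = 0 := by
  sorry

end Pool.Agent.Lib.H88V
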