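import Pool.Agent.Lib.H88V.T4

/-!
# Project H88V, chunk C1: the sum of the counts
-/

open scoped Nat
open Finset

namespace Pool.Agent.Lib.H88V

/-- The number of monomials `z^r v^I w^J` with `r + |I| ≤ N` and `a |I| + b |J| < K`. -/
def cnt (a b p c N K : ℕ) : ℕ := ∑ k ∈ range K, ∑ j ∈ range (N + 1), cardS p c a b j k

/-- Proof. Exchange the sums: a triple `(j, i, l)` with `i ≤ j ≤ N` contributes
`multichoose p i * multichoose c l` to the summand of `K < J` iff `k = a i + b l ≤ K`, that is at most
`J - (a i + b l)` times (natural subtraction; `0` if `a i + b l ≥ J`), and there are `N + 1 - i` values of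
`j`. When `a i + b l < J` then `l < J` (`b ≥ 1`), so `l` is in `range (J + 1)`. -/
theorem sum_cnt_le (a b p c N J : ℕ) (hb : 1 ≤ b) :
    ∑ K ∈ range J, cnt a b p c N (K + 1) ≤
      ∑ i ∈ range (N + 1), (N + 1 - i) * Nat.multichoose p i *
        ∑ l ∈ range (J + 1), Nat.multichoose c l * (J - (a * i + b * l)) := by
  sorry

end Pool.Agent.Lib.H88V
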