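import Mathlib

/-!
# Project H88V, chunk C2: sums of multichoose numbers
-/

open scoped Nat
open Finset

namespace Pool.Agent.Lib.H88V

/-- Proof. Induction on `y` with `Nat.multichoose_succ_succ` (hockey stick). -/
theorem sum_multichoose (c y : ℕ) :
    ∑ l ∈ range (y + 1), Nat.multichoose c l = Nat.multichoose (c + 1) y := by
  induction y with
  | zero => simp
  | succ y ih =>
    rw [sum_range_succ, ih, Nat.multichoose_succ_succ]
    ring

/-- Proof. Induction on `y`, by `sum_multichoose`. -/
theorem sum_multichoose_mul (c y : ℕ) :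
    ∑ l ∈ range (y + 1), Nat.multichoose c l * (y + 1 - l) = Nat.multichoose (c + 2) y := by
  induction y with
  | zero => simp
  | succ y ih =>
    rw [Nat.multichoose_succ_succ (c + 1) y, ← ih, ← sum_multichoose c (y + 1),
      sum_range_succ _ (y + 1), sum_range_succ _ (y + 1)]
    have h : ∑ l ∈ range (y + 1), Nat.multichoose c l * (y + 1 + 1 - l) =
        ∑ l ∈ range (y + 1), Nat.multichoose c l +
          ∑ l ∈ range (y + 1), Nat.multichoose c l * (y + 1 - l) := by
      rw [← sum_add_distrib]
      refine sum_congr rfl fun l hl => ?_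
      rw [mem_range] at hl
      have : y + 1 + 1 - l = 1 + (y + 1 - l) := by omega
      rw [this, mul_add, mul_one]
    rw [h]
    have : y + 1 + 1 - (y + 1) = 1 := by omega
    rw [this]
    ring

/-- Vandermonde. Proof. Generating functions, or induction on `p` with `sum_multichoose`, or induction on
`p` and `N` with `Nat.multichoose_succ_succ`. -/
theorem vandermonde_multichoose (p q N : ℕ) :
    ∑ i ∈ range (N + 1), Nat.multichoose p i * Nat.multichoose q (N - i) =
      Nat.multichoose (p + q) N := by
  induction p generalizing N with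
  | zero =>
    rw [sum_range_succ']
    have : ∑ i ∈ range N, Nat.multichoose 0 (i + 1) * Nat.multichoose q (N - (i + 1)) = 0 :=
      sum_eq_zero fun i _ => by rw [Nat.multichoose_zero_succ, zero_mul]
    rw [this]
    simp
  | succ p ihp =>
    induction N with
    | zero => simp
    | succ N ihN =>
      have e : p + 1 + q = (p + q) + 1 := by omega
      rw [e, Nat.multichoose_succ_succ, ← e, ← ihN, ← ihp (N + 1), sum_range_succ' _ (N + 1),
        sum_range_succ' _ (N + 1)]
      have h : ∑ i ∈ range (N + 1), Nat.multichoose (p + 1) (i + 1) *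
          Nat.multichoose q (N + 1 - (i + 1)) =
          ∑ i ∈ range (N + 1), Nat.multichoose p (i + 1) * Nat.multichoose q (N + 1 - (i + 1)) +
          ∑ i ∈ range (N + 1), Nat.multichoose (p + 1) i * Nat.multichoose q (N - i) := by
        rw [← sum_add_distrib]
        refine sum_congr rfl fun i _ => ?_
        rw [Nat.multichoose_succ_succ, Nat.add_sub_add_right]
        ring
      rw [h]
      simp only [Nat.multichoose_zero_right]
      ring

/-- Proof. `multichoose (q + 1) y = C(y + q, q) ≤ (y + q)^q / q!` (`Nat.choose_le_pow_div`). -/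
theorem multichoose_le (q y : ℕ) :
    (Nat.multichoose (q + 1) y : ℝ) ≤ ((y : ℝ) + q) ^ q / (q ! : ℝ) := by
  have h1 : Nat.multichoose (q + 1) y = (y + q).choose q := by
    rw [Nat.multichoose_eq, show q + 1 + y - 1 = y + q by omega]
    exact (Nat.choose_symm_add)
  rw [h1]
  have := Nat.choose_le_pow_div (α := ℝ) q (y + q)
  push_cast at this
  exact this

/-- Proof. `(k+1)! multichoose (k+2) y = (y+1)(y+2)⋯(y+k+1) ≥ (y+1) y^k`
(`Nat.ascFactorial_eq_factorial_mul_choose`, `Nat.pow_succ_le_ascFactorial`). -/
theorem pow_le_multichoose (k y : ℕ) :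
    (y + 1) * y ^ k ≤ (k + 1)! * Nat.multichoose (k + 2) y := by
  have h1 : Nat.multichoose (k + 2) y = (y + (k + 1)).choose (k + 1) := by
    rw [Nat.multichoose_eq, show k + 2 + y - 1 = y + (k + 1) by omega]
    exact (Nat.choose_symm_add)
  rw [h1, ← Nat.ascFactorial_eq_factorial_mul_choose]
  refine le_trans ?_ (Nat.pow_succ_le_ascFactorial (y + 1) (k + 1))
  rw [pow_succ', mul_comm (y + 1) (y ^ k), mul_comm (y + 1) ((y + 1) ^ k)]
  exact Nat.mul_le_mul_right _ (Nat.pow_le_pow_left (Nat.le_succ y) k)

/-- Proof. Let `Y = ⌈X / b⌉`. If `Y = 0` the sum is `0`. `X - b l ≤ b (Y - l)` (natural subtraction), so the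
sum is `≤ b ∑_{l < Y} multichoose c l (Y - l) = b * multichoose (c + 2) (Y - 1)`
`≤ b (Y + c)^(c+1) / (c+1)!` and `Y ≤ X / b + 1`. -/
theorem inner_sum_le (b c X J : ℕ) (hb : 1 ≤ b) :
    ((∑ l ∈ range (J + 1), Nat.multichoose c l * (X - b * l) : ℕ) : ℝ) ≤
      b * ((X : ℝ) / b + c + 1) ^ (c + 1) / ((c + 1)! : ℝ) := by
  have hb0 : (0 : ℝ) < b := by exact_mod_cast hb
  rcases Nat.eq_zero_or_pos X with hX | hX
  · subst hX
    have : ∑ l ∈ range (J + 1), Nat.multichoose c l * (0 - b * l) = 0 :=
      sum_eq_zero fun l _ => by rw [Nat.zero_sub, mul_zero]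
    rw [this, Nat.cast_zero]
    positivity
  · obtain ⟨y, hy⟩ : ∃ y : ℕ, y = (X - 1) / b := ⟨_, rfl⟩
    have hy1 : b * y ≤ X - 1 := by
      rw [hy]
      exact Nat.mul_div_le _ _
    have hy2 : X ≤ b * (y + 1) := by
      have := Nat.lt_mul_div_succ (X - 1) (by omega : 0 < b)
      rw [← hy] at this
      omega
    have h1 : ∑ l ∈ range (J + 1), Nat.multichoose c l * (X - b * l) ≤
        b * Nat.multichoose (c + 2) y := by
      calc ∑ l ∈ range (J + 1), Nat.multichoose c l * (X - b * l)
          ≤ ∑ l ∈ range (J + 1), b * (Nat.multichoose c l * (y + 1 - l)) := by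
            refine sum_le_sum fun l _ => ?_
            have : X - b * l ≤ b * (y + 1 - l) := by
              rw [Nat.mul_sub]
              exact Nat.sub_le_sub_right hy2 _
            calc Nat.multichoose c l * (X - b * l) ≤ Nat.multichoose c l * (b * (y + 1 - l)) :=
                  Nat.mul_le_mul_left _ this
              _ = b * (Nat.multichoose c l * (y + 1 - l)) := by ring
        _ ≤ ∑ l ∈ range (max (J + 1) (y + 1)), b * (Nat.multichoose c l * (y + 1 - l)) :=
            sum_le_sum_of_subset (range_subset_range.2 (le_max_left _ _))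
        _ = ∑ l ∈ range (y + 1), b * (Nat.multichoose c l * (y + 1 - l)) := by
            symm
            refine sum_subset (range_subset_range.2 (le_max_right _ _)) fun l _ hl => ?_
            rw [mem_range, not_lt] at hl
            rw [Nat.sub_eq_zero_of_le hl, mul_zero, mul_zero]
        _ = b * Nat.multichoose (c + 2) y := by
            rw [← mul_sum, sum_multichoose_mul]
    have h2 := multichoose_le (c + 1) y
    have h3 : (y : ℝ) ≤ (X : ℝ) / b := by
      rw [le_div_iff₀ hb0]
      have : y * b ≤ X := by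
        rw [mul_comm]
        omega
      exact_mod_cast this
    have h4 : ((∑ l ∈ range (J + 1), Nat.multichoose c l * (X - b * l) : ℕ) : ℝ) ≤
        b * (Nat.multichoose (c + 2) y : ℝ) := by exact_mod_cast h1
    refine h4.trans ?_
    rw [mul_div_assoc]
    refine mul_le_mul_of_nonneg_left (h2.trans ?_) hb0.le
    push_cast
    refine div_le_div_of_nonneg_right ?_ (by positivity)
    refine pow_le_pow_left₀ (by positivity) ?_ _
    linarith

/-- Proof. `(N + 1 - i) (N - i)^k ≤ (k+1)! multichoose (k+2) (N - i)` by `pow_le_multichoose`,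
`vandermonde_multichoose p (k+2) N` and `multichoose_le (p + k + 1) N`. -/
theorem outer_sum_le (p k N : ℕ) :
    ((∑ i ∈ range (N + 1), Nat.multichoose p i * ((N + 1 - i) * (N - i) ^ k) : ℕ) : ℝ) ≤
      ((k + 1)! : ℝ) * ((N : ℝ) + p + k + 1) ^ (p + k + 1) / ((p + k + 1)! : ℝ) := by
  have h1 : ∑ i ∈ range (N + 1), Nat.multichoose p i * ((N + 1 - i) * (N - i) ^ k) ≤
      (k + 1)! * Nat.multichoose (p + k + 1 + 1) N := by
    calc ∑ i ∈ range (N + 1), Nat.multichoose p i * ((N + 1 - i) * (N - i) ^ k)
        ≤ ∑ i ∈ range (N + 1), (k + 1)! * (Nat.multichoose p i * Nat.multichoose (k + 2) (N - i)) := by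
          refine sum_le_sum fun i hi => ?_
          rw [mem_range] at hi
          have h2 := pow_le_multichoose k (N - i)
          have h3 : N - i + 1 = N + 1 - i := by omega
          rw [h3] at h2
          calc Nat.multichoose p i * ((N + 1 - i) * (N - i) ^ k)
              ≤ Nat.multichoose p i * ((k + 1)! * Nat.multichoose (k + 2) (N - i)) :=
                Nat.mul_le_mul_left _ h2
            _ = (k + 1)! * (Nat.multichoose p i * Nat.multichoose (k + 2) (N - i)) := by ring
      _ = (k + 1)! * Nat.multichoose (p + k + 1 + 1) N := by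
          rw [← mul_sum, vandermonde_multichoose]
          rfl
  have h2 := multichoose_le (p + k + 1) N
  have h4 : ((∑ i ∈ range (N + 1), Nat.multichoose p i * ((N + 1 - i) * (N - i) ^ k) : ℕ) : ℝ) ≤
      ((k + 1)! : ℝ) * (Nat.multichoose (p + k + 1 + 1) N : ℝ) := by exact_mod_cast h1
  refine h4.trans ?_
  rw [mul_div_assoc]
  refine mul_le_mul_of_nonneg_left (h2.trans (le_of_eq ?_)) (by positivity)
  push_cast
  congr 2
  ring

end Pool.Agent.Lib.H88V
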