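import Pool.Agent.Lib.H88V.C1
import Pool.Agent.Lib.H88V.C2

/-!
# Project H88V, chunk C3: the bound for the sum of the counts
-/

open scoped Nat
open Finset

namespace Pool.Agent.Lib.H88V

theorem c3_inner (M c m N i J : ℕ) (hM : 1 ≤ M) (hJ : J = M * (2 * c * m + N)) (hi : i ≤ N) :
    ((∑ l ∈ range (J + 1), Nat.multichoose c l * (J - (M * i + (2 * M - 1) * l)) : ℕ) : ℝ) ≤
      (2 * M - 1 : ℝ) * (M / (2 * M - 1)) ^ (c + 1) / ((c + 1)! : ℝ) *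
        (((N - i : ℕ) : ℝ) + (2 * c * m + 2 * (c + 1))) ^ (c + 1) := by
  have hb : 1 ≤ 2 * M - 1 := by omega
  have hbr : ((2 * M - 1 : ℕ) : ℝ) = 2 * (M : ℝ) - 1 := by
    rw [Nat.cast_sub (by omega)]; push_cast; ring
  have h1 := inner_sum_le (2 * M - 1) c (J - M * i) J hb
  have h2 : ∀ l, J - (M * i + (2 * M - 1) * l) = J - M * i - (2 * M - 1) * l := by
    intro l; rw [Nat.sub_sub]
  simp only [h2]
  refine h1.trans ?_
  rw [hbr]
  have hM' : (1 : ℝ) ≤ M := by exact_mod_cast hM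
  have hbpos : (0 : ℝ) < 2 * M - 1 := by linarith
  have hX : ((J - M * i : ℕ) : ℝ) = M * (2 * c * m + ((N - i : ℕ) : ℝ)) := by
    have : J - M * i = M * (2 * c * m + (N - i)) := by
      rw [hJ, ← Nat.mul_sub]
      congr 1
      omega
    rw [this]; push_cast; ring
  rw [hX]
  have hy : (0 : ℝ) ≤ ((N - i : ℕ) : ℝ) := Nat.cast_nonneg _
  have hc : (0 : ℝ) ≤ c := Nat.cast_nonneg _
  have hm : (0 : ℝ) ≤ m := Nat.cast_nonneg _
  have hf : (0 : ℝ) < ((c + 1)! : ℝ) := by exact_mod_cast Nat.factorial_pos _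
  have h3 : (M : ℝ) * (2 * c * m + ((N - i : ℕ) : ℝ)) / (2 * M - 1) + c + 1 ≤
      (M / (2 * M - 1)) * (((N - i : ℕ) : ℝ) + (2 * c * m + 2 * (c + 1))) := by
    have e : (M / (2 * M - 1)) * (((N - i : ℕ) : ℝ) + (2 * c * m + 2 * (c + 1))) -
        ((M : ℝ) * (2 * c * m + ((N - i : ℕ) : ℝ)) / (2 * M - 1) + c + 1) =
        (c + 1) / (2 * M - 1) := by
      have hne : ((M : ℝ) * 2 - 1) ≠ 0 := by
        have : (0 : ℝ) < (M : ℝ) * 2 - 1 := by linarith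
        exact this.ne'
      field_simp
      ring
    have e2 : (0 : ℝ) ≤ (c + 1) / (2 * M - 1) := by positivity
    linarith
  have h0 : (0 : ℝ) ≤ (M : ℝ) * (2 * c * m + ((N - i : ℕ) : ℝ)) / (2 * M - 1) + c + 1 := by
    have : (0 : ℝ) ≤ (M : ℝ) * (2 * c * m + ((N - i : ℕ) : ℝ)) / (2 * M - 1) := by positivity
    linarith
  have h4 := pow_le_pow_left₀ h0 h3 (c + 1)
  rw [mul_pow] at h4
  calc (2 * (M : ℝ) - 1) * ((M : ℝ) * (2 * c * m + ((N - i : ℕ) : ℝ)) / (2 * M - 1) + c + 1) ^ (c + 1)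
        / ((c + 1)! : ℝ)
      ≤ (2 * (M : ℝ) - 1) * ((M / (2 * M - 1)) ^ (c + 1) *
          (((N - i : ℕ) : ℝ) + (2 * c * m + 2 * (c + 1))) ^ (c + 1)) / ((c + 1)! : ℝ) := by
        gcongr
    _ = _ := by ring

/-- Proof. Put `a = M`, `b = 2M - 1`, `N = m (p + 2)`, `J = M (p + 2 + 2 c) m` in `sum_cnt_le`. For `i ≤ N`,
`J - (M i + b l) = X - b l` with `X = J - M i = M (2 c m + (N - i))`. By `inner_sum_le` the inner sum is at
most `b (X/b + c + 1)^(c+1)/(c+1)!`, and `X/b + c + 1 ≤ (M/b) (2 c m + (N - i) + 2 (c + 1))` because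
`b ≤ 2 M`. Expand `(y + (2 c m + 2 (c + 1)))^(c+1)`, `y = N - i`, by the binomial theorem (`add_pow`):
`∑_k y^k (2 c m + 2 (c+1))^(c+1-k) C(c+1, k)`, exchange the sums and use `outer_sum_le`. -/
theorem sum_cnt_bound (M p c m : ℕ) (hM : 1 ≤ M) :
    ((∑ K ∈ range (M * (p + 2 + 2 * c) * m), cnt M (2 * M - 1) p c (m * (p + 2)) (K + 1) : ℕ) : ℝ) ≤
      (2 * M - 1 : ℝ) * (M / (2 * M - 1)) ^ (c + 1) / ((c + 1)! : ℝ) *
        ∑ k ∈ range (c + 2), ((c + 1).choose k : ℝ) * (2 * c * m + 2 * (c + 1)) ^ (c + 1 - k) *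
          (((k + 1)! : ℝ) * ((m * (p + 2) : ℝ) + p + k + 1) ^ (p + k + 1) /
            ((p + k + 1)! : ℝ)) := by
  have hb : 1 ≤ 2 * M - 1 := by omega
  have hM' : (1 : ℝ) ≤ M := by exact_mod_cast hM
  have hbpos : (0 : ℝ) < 2 * M - 1 := by linarith
  have hf : (0 : ℝ) < ((c + 1)! : ℝ) := by exact_mod_cast Nat.factorial_pos _
  obtain ⟨N, hN⟩ : ∃ N, N = m * (p + 2) := ⟨_, rfl⟩
  obtain ⟨J, hJ⟩ : ∃ J, J = M * (p + 2 + 2 * c) * m := ⟨_, rfl⟩
  have hJN : J = M * (2 * c * m + N) := by rw [hJ, hN]; ring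
  have hNr : (m * (p + 2) : ℝ) = (N : ℝ) := by rw [hN]; push_cast; ring
  rw [← hN, ← hJ, hNr]
  have h1 := sum_cnt_le M (2 * M - 1) p c N J hb
  have h2 : ((∑ K ∈ range J, cnt M (2 * M - 1) p c N (K + 1) : ℕ) : ℝ) ≤
      ((∑ i ∈ range (N + 1), (N + 1 - i) * Nat.multichoose p i *
        ∑ l ∈ range (J + 1), Nat.multichoose c l * (J - (M * i + (2 * M - 1) * l)) : ℕ) : ℝ) := by
    exact_mod_cast h1
  refine h2.trans ?_
  obtain ⟨A, hA⟩ : ∃ A : ℝ, A = (2 * M - 1 : ℝ) * (M / (2 * M - 1)) ^ (c + 1) / ((c + 1)! : ℝ) :=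
    ⟨_, rfl⟩
  have hA0 : 0 ≤ A := by rw [hA]; positivity
  obtain ⟨q, hq⟩ : ∃ q : ℝ, q = (2 * c * m + 2 * (c + 1)) := ⟨_, rfl⟩
  have hq0 : 0 ≤ q := by rw [hq]; positivity
  rw [← hA, ← hq]
  have h3 : ((∑ i ∈ range (N + 1), (N + 1 - i) * Nat.multichoose p i *
        ∑ l ∈ range (J + 1), Nat.multichoose c l * (J - (M * i + (2 * M - 1) * l)) : ℕ) : ℝ) ≤
      ∑ i ∈ range (N + 1), (((N + 1 - i) * Nat.multichoose p i : ℕ) : ℝ) *
        (A * (((N - i : ℕ) : ℝ) + q) ^ (c + 1)) := by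
    rw [Nat.cast_sum]
    refine Finset.sum_le_sum fun i hi => ?_
    have hi' : i ≤ N := by
      have := Finset.mem_range.mp hi
      omega
    rw [Nat.cast_mul]
    refine mul_le_mul_of_nonneg_left ?_ (Nat.cast_nonneg _)
    have h4 := c3_inner M c m N i J hM hJN hi'
    rw [← hA, ← hq] at h4
    exact h4
  refine h3.trans ?_
  have h5 : ∑ i ∈ range (N + 1), (((N + 1 - i) * Nat.multichoose p i : ℕ) : ℝ) *
        (A * (((N - i : ℕ) : ℝ) + q) ^ (c + 1)) =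
      A * ∑ k ∈ range (c + 2), ((c + 1).choose k : ℝ) * q ^ (c + 1 - k) *
        ((∑ i ∈ range (N + 1), Nat.multichoose p i * ((N + 1 - i) * (N - i) ^ k) : ℕ) : ℝ) := by
    simp only [add_pow]
    rw [Finset.mul_sum]
    simp only [Finset.mul_sum, Nat.cast_sum]
    rw [Finset.sum_comm]
    refine Finset.sum_congr rfl fun k _ => Finset.sum_congr rfl fun i _ => ?_
    push_cast
    ring
  rw [h5]
  refine mul_le_mul_of_nonneg_left ?_ hA0
  refine Finset.sum_le_sum fun k _ => ?_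
  refine mul_le_mul_of_nonneg_left ?_ (by positivity)
  exact outer_sum_le p k N

end Pool.Agent.Lib.H88V
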