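import Pool.Agent.Lib.H88V.N0

/-!
# Project H88V, chunk N2: bounds for `T`, `R` and `S`
-/

open scoped Nat
open Finset

namespace Pool.Agent.Lib.H88V

theorem TT_nonneg (μ k : ℕ) : 0 ≤ TT μ k := by
  sorry

/-- Proof. `C(μ+1, k) k! = (μ+1) μ (μ-1) ⋯ (μ+2-k)` (`Nat.descFactorial_eq_factorial_mul_choose`), so
`T(μ, k) = (k+1) 2^(-k) * (μ (μ+1) μ (μ-1) ⋯ (μ+2-k)) / ((μ+1) μ^k)`. For `k = 0` the last factor is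
`μ/(μ+1) ≤ 1`; for `k ≥ 1` it is `∏_{i=0}^{k-2} (μ - i)/μ * …`: precisely
`μ (μ+1) (μ)_{k-1} / ((μ+1) μ^k) = (μ)_{k-1} / μ^(k-1) ≤ 1` where `(μ)_{k-1} = μ.descFactorial (k-1) ≤ μ^(k-1)`
(`Nat.descFactorial_le_pow`, `Nat.succ_descFactorial_succ`). -/
theorem TT_le (μ k : ℕ) (hμ : 1 ≤ μ) : TT μ k ≤ (k + 1 : ℝ) / 2 ^ k := by
  sorry

theorem RR_nonneg (m k : ℕ) : 0 ≤ RR m k := by
  sorry

/-- Proof. `R(m, k+1) = R(m, k) * m/(m+k)`. -/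
theorem RR_anti (m k l : ℕ) (hm : 1 ≤ m) (hkl : k ≤ l) : RR m l ≤ RR m k := by
  sorry

theorem RR_zero (m : ℕ) (hm : 1 ≤ m) : RR m 0 = 1 := by
  sorry

theorem RR_le_one (m k : ℕ) (hm : 1 ≤ m) : RR m k ≤ 1 := by
  sorry

/-- Proof. Induction: `∑_{k<n} (k+1)/2^k = 4 - (2n+4)/2^n`. -/
theorem sum_geom (n : ℕ) : ∑ k ∈ range n, ((k : ℝ) + 1) / 2 ^ k = 4 - (2 * n + 4) / 2 ^ n := by
  sorry

/-- Proof. `TT_le`, `RR_le_one`, `sum_geom`. -/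
theorem SS_le_four (m μ : ℕ) (hm : 1 ≤ m) (hμ : 1 ≤ μ) : SS m μ ≤ 4 := by
  sorry

/-- Proof. `R(m, k) ≤ 1`. -/
theorem SS_le_sum (m μ : ℕ) (hm : 1 ≤ m) : SS m μ ≤ ∑ k ∈ range (μ + 2), TT μ k := by
  sorry

/-- Proof. For `k ≤ 4` use `T(μ,k) ≤ (k+1)/2^k`, for `k ≥ 5` also `R(m, k) ≤ R(m, 5)`, and
`∑_{k ≥ 5} (k+1)/2^k ≤ 4 - (1 + 1 + 3/4 + 1/2 + 5/16) = 7/16` by `sum_geom`. If `μ + 2 < 5` the sum has fewer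
terms; all are nonnegative. `R(m,0) = R(m,1) = 1`, `R(m,2) = m/(m+1)`,
`R(m,3) = m²/((m+1)(m+2))`, `R(m,4) = m³/((m+1)(m+2)(m+3))`, `R(m,5) ≤ R(m,4)`. -/
theorem SS_le_bar (m μ : ℕ) (hm : 1 ≤ m) (hμ : 1 ≤ μ) :
    SS m μ ≤ 2 + 3 / 4 * (m / (m + 1)) + 1 / 2 * (m ^ 2 / ((m + 1) * (m + 2))) +
      3 / 4 * (m ^ 3 / ((m + 1) * (m + 2) * (m + 3)) : ℝ) := by
  sorry

end Pool.Agent.Lib.H88V
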