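import Pool.Agent.Lib.H88V.N1
import Pool.Agent.Lib.H88V.N2

/-!
# Project H88V, chunk N4: the strips `m = 3, …, 8`
-/

open scoped Nat
open Finset

namespace Pool.Agent.Lib.H88V

theorem n4_aux (m μ μ₀ : ℕ) (hm : 1 ≤ m) (h0 : 1 ≤ μ₀) (hμ : μ₀ ≤ μ)
    (h : KK m μ₀ * (2 + 3 / 4 * (m / (m + 1)) + 1 / 2 * (m ^ 2 / ((m + 1) * (m + 2))) +
      3 / 4 * (m ^ 3 / ((m + 1) * (m + 2) * (m + 3)) : ℝ)) ≤ 1) :
    KK m μ * SS m μ ≤ 1 := by
  have h1 := KK_anti_right m μ₀ μ h0 hμ hm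
  have h2 := SS_le_bar m μ hm (h0.trans hμ)
  have h3 := KK_pos m μ
  have h4 : 0 ≤ SS m μ := Finset.sum_nonneg fun k _ => mul_nonneg (TT_nonneg μ k) (RR_nonneg m k)
  refine le_trans ?_ h
  exact mul_le_mul h1 h2 h4 (KK_pos m μ₀).le

/-- Proof. `K(m, μ) ≤ K(m, μ₀)` (`KK_anti_right`), `S(m, μ) ≤ S̄(m)` (`SS_le_bar`), and
`K(m, μ₀) S̄(m) ≤ 1` (rational numbers, `norm_num [KK, phi, Nat.factorial]`) with
`μ₀ = 7, 6, 5, 5, 5, 5` for `m = 3, 4, 5, 6, 7, 8` (values of the product: 0.99866, 0.98037, 0.99388, 0.98306,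
0.97576, 0.97063). -/
theorem main_strip_m (m μ : ℕ)
    (h : (m = 3 ∧ 7 ≤ μ) ∨ (m = 4 ∧ 6 ≤ μ) ∨ (5 ≤ m ∧ m ≤ 8 ∧ 5 ≤ μ)) :
    KK m μ * SS m μ ≤ 1 := by
  rcases h with ⟨h1, h2⟩ | ⟨h1, h2⟩ | ⟨h1, h2, h3⟩
  · subst h1
    rcases (by omega : μ = 7 ∨ μ = 8 ∨ 9 ≤ μ) with h | h | h
    · subst h
      norm_num [KK, SS, TT, RR, phi, Nat.factorial, Finset.sum_range_succ, Nat.choose]
    · subst h
      norm_num [KK, SS, TT, RR, phi, Nat.factorial, Finset.sum_range_succ, Nat.choose]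
    · exact n4_aux 3 μ 9 (by norm_num) (by norm_num) h (by norm_num [KK, phi, Nat.factorial])
  · subst h1
    rcases (by omega : μ = 6 ∨ 7 ≤ μ) with h | h
    · subst h
      norm_num [KK, SS, TT, RR, phi, Nat.factorial, Finset.sum_range_succ, Nat.choose]
    · exact n4_aux 4 μ 7 (by norm_num) (by norm_num) h (by norm_num [KK, phi, Nat.factorial])
  · have hm : m = 5 ∨ m = 6 ∨ m = 7 ∨ m = 8 := by omega
    rcases hm with h | h | h | h
    · subst h
      rcases (by omega : μ = 5 ∨ 6 ≤ μ) with h | h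
      · subst h
        norm_num [KK, SS, TT, RR, phi, Nat.factorial, Finset.sum_range_succ, Nat.choose]
      · exact n4_aux 5 μ 6 (by norm_num) (by norm_num) h (by norm_num [KK, phi, Nat.factorial])
    · subst h
      rcases (by omega : μ = 5 ∨ 6 ≤ μ) with h | h
      · subst h
        norm_num [KK, SS, TT, RR, phi, Nat.factorial, Finset.sum_range_succ, Nat.choose]
      · exact n4_aux 6 μ 6 (by norm_num) (by norm_num) h (by norm_num [KK, phi, Nat.factorial])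
    · subst h
      exact n4_aux 7 μ 5 (by norm_num) (by norm_num) h3 (by norm_num [KK, phi, Nat.factorial])
    · subst h
      exact n4_aux 8 μ 5 (by norm_num) (by norm_num) h3 (by norm_num [KK, phi, Nat.factorial])

end Pool.Agent.Lib.H88V
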