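import Pool.Agent.Lib.H88V.N1
import Pool.Agent.Lib.H88V.N2

/-!
# Project H88V, chunk N5: the strips `μ = 2, …, 8`
-/

open scoped Nat
open Finset

namespace Pool.Agent.Lib.H88V

theorem n5_step (m₀ m μ : ℕ) (h0 : 1 ≤ m₀) (hm : m₀ ≤ m) (hμ : 1 ≤ μ)
    (hc : KK m₀ μ * ∑ k ∈ range (μ + 2), TT μ k ≤ 1) : KK m μ * SS m μ ≤ 1 := by
  have h1 : 0 ≤ SS m μ :=
    Finset.sum_nonneg fun k _ => mul_nonneg (TT_nonneg μ k) (RR_nonneg m k)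
  exact (mul_le_mul (KK_anti_left m₀ m μ h0 hm hμ) (SS_le_sum m μ (h0.trans hm)) h1
    (KK_pos m₀ μ).le).trans hc

theorem n5_two : KK 26 2 * ∑ k ∈ range (2 + 2), TT 2 k ≤ 1 := by
  norm_num [KK, phi, TT, Finset.sum_range_succ, Nat.factorial, Nat.choose]

theorem n5_three : KK 7 3 * ∑ k ∈ range (3 + 2), TT 3 k ≤ 1 := by
  norm_num [KK, phi, TT, Finset.sum_range_succ, Nat.factorial, Nat.choose]

theorem n5_four : KK 6 4 * ∑ k ∈ range (4 + 2), TT 4 k ≤ 1 := by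
  norm_num [KK, phi, TT, Finset.sum_range_succ, Nat.factorial, Nat.choose]

theorem n5_five : KK 6 5 * ∑ k ∈ range (5 + 2), TT 5 k ≤ 1 := by
  norm_num [KK, phi, TT, Finset.sum_range_succ, Nat.factorial, Nat.choose]

theorem n5_six : KK 5 6 * ∑ k ∈ range (6 + 2), TT 6 k ≤ 1 := by
  norm_num [KK, phi, TT, Finset.sum_range_succ, Nat.factorial, Nat.choose]

theorem n5_seven : KK 5 7 * ∑ k ∈ range (7 + 2), TT 7 k ≤ 1 := by
  norm_num [KK, phi, TT, Finset.sum_range_succ, Nat.factorial, Nat.choose]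

theorem n5_eight : KK 5 8 * ∑ k ∈ range (8 + 2), TT 8 k ≤ 1 := by
  norm_num [KK, phi, TT, Finset.sum_range_succ, Nat.factorial, Nat.choose]

/-- Proof. `K(m, μ) ≤ K(m₀, μ)` (`KK_anti_left`), `S(m, μ) ≤ ∑_k T(μ, k)` (`SS_le_sum`), and the product is
`≤ 1` (rational numbers, `norm_num [KK, phi, TT, Finset.sum_range_succ, Nat.factorial, Nat.choose]`) for
`m₀ = 26, 7, 6, 6, 5, 5, 5` and `μ = 2, 3, 4, 5, 6, 7, 8` (values 0.99958, 0.99961, 0.99047, 0.97167, 0.99833,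
0.99117, 0.98567). For `μ = 2`: `∑_k T(2, k) = 8/3` and `K(26, 2) = φ(26) φ(2)/(2 φ(27))
= 1/(1 + 1/26)^26` (`phi_succ`). -/
theorem main_strip_mu (m μ : ℕ)
    (h : (μ = 2 ∧ 26 ≤ m) ∨ (μ = 3 ∧ 7 ≤ m) ∨ (μ = 4 ∧ 6 ≤ m) ∨ (μ = 5 ∧ 6 ≤ m) ∨
      (6 ≤ μ ∧ μ ≤ 8 ∧ 5 ≤ m)) :
    KK m μ * SS m μ ≤ 1 := by
  rcases h with ⟨rfl, hm⟩ | ⟨rfl, hm⟩ | ⟨rfl, hm⟩ | ⟨rfl, hm⟩ | ⟨h6, h8, hm⟩
  · exact n5_step 26 m 2 (by norm_num) hm (by norm_num) n5_two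
  · exact n5_step 7 m 3 (by norm_num) hm (by norm_num) n5_three
  · exact n5_step 6 m 4 (by norm_num) hm (by norm_num) n5_four
  · exact n5_step 6 m 5 (by norm_num) hm (by norm_num) n5_five
  · obtain rfl | rfl | rfl : μ = 6 ∨ μ = 7 ∨ μ = 8 := by omega
    · exact n5_step 5 m 6 (by norm_num) hm (by norm_num) n5_six
    · exact n5_step 5 m 7 (by norm_num) hm (by norm_num) n5_seven
    · exact n5_step 5 m 8 (by norm_num) hm (by norm_num) n5_eight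

end Pool.Agent.Lib.H88V
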