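import Pool.Agent.Lib.H88V.N1
import Pool.Agent.Lib.H88V.N2

/-!
# Project H88V, chunk N6: the remaining cases
-/

open scoped Nat
open Finset

namespace Pool.Agent.Lib.H88V

/-- Proof. `interval_cases m` and `norm_num [KK, SS, TT, RR, phi, Finset.sum_range_succ, Nat.factorial]`
(for `μ = 2`: `K(m, 2) = 1/(1+1/m)^m` by `phi_succ` and `φ(2) = 2`,
`S(m,2) = 5/3 + 3m/(4(m+1)) + m²/(4(m+1)(m+2))`). -/
theorem main_finite_two (m : ℕ) (hm : 3 ≤ m) (hm' : m ≤ 25) : KK m 2 * SS m 2 ≤ 1 := by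
  interval_cases m <;>
    norm_num [KK, SS, TT, RR, phi, Finset.sum_range_succ, Nat.factorial, Nat.choose]

/-- Proof. Finitely many rational checks, as before. -/
theorem main_finite (m μ : ℕ)
    (h : (μ = 3 ∧ 3 ≤ m ∧ m ≤ 6) ∨ (μ = 4 ∧ 3 ≤ m ∧ m ≤ 5) ∨ (μ = 5 ∧ 3 ≤ m ∧ m ≤ 5) ∨
      (6 ≤ μ ∧ μ ≤ 8 ∧ 3 ≤ m ∧ m ≤ 4)) :
    KK m μ * SS m μ ≤ 1 := by
  rcases h with ⟨rfl, h1, h2⟩ | ⟨rfl, h1, h2⟩ | ⟨rfl, h1, h2⟩ | ⟨h3, h4, h1, h2⟩
  · interval_cases m <;>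
      norm_num [KK, SS, TT, RR, phi, Finset.sum_range_succ, Nat.factorial, Nat.choose]
  · interval_cases m <;>
      norm_num [KK, SS, TT, RR, phi, Finset.sum_range_succ, Nat.factorial, Nat.choose]
  · interval_cases m <;>
      norm_num [KK, SS, TT, RR, phi, Finset.sum_range_succ, Nat.factorial, Nat.choose]
  · interval_cases μ <;> interval_cases m <;>
      norm_num [KK, SS, TT, RR, phi, Finset.sum_range_succ, Nat.factorial, Nat.choose]

end Pool.Agent.Lib.H88V
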