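import Pool.Agent.Lib.H88V.N3
import Pool.Agent.Lib.H88V.N4
import Pool.Agent.Lib.H88V.N5
import Pool.Agent.Lib.H88V.N6

/-!
# Project H88V, chunk N7: the numerical inequality
-/

open scoped Nat
open Finset

namespace Pool.Agent.Lib.H88V

/-- Proof. Case distinction: `m = 2` (`main_two`); `m, μ ≥ 9` (`main_quadrant`); `3 ≤ m ≤ 8` and `μ ≥ 9`
(`main_strip_m`); `m ≥ 3` and `2 ≤ μ ≤ 8`: `main_strip_mu`, `main_finite_two`, `main_finite`. -/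
theorem main_ineq (m μ : ℕ) (hm : 2 ≤ m) (hμ : 2 ≤ μ) : KK m μ * SS m μ ≤ 1 := by
  sorry

/-- The sum obtained from the count of monomials. -/
noncomputable def ZZ (p c : ℕ) : ℝ :=
  ∑ k ∈ range (c + 2), ((c + 1).choose k : ℝ) * (2 * c : ℝ) ^ (c + 1 - k) * ((k + 1)! : ℝ) *
    (p + 2 : ℝ) ^ (p + k + 1) / ((p + k + 1)! : ℝ)

/-- Proof. With `m = p + 2`, `μ = c`, `n = p + 1 + c = m + μ - 1`,
`ZZ p c = (2μ)^(μ+1) * m^(m-1)/(m-1)! * ((μ+1)/μ) * S(m, μ)` termwise, `m^(m-1)/(m-1)! = φ(m)`, and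
`K(m, μ) S(m, μ) ≤ 1` is `φ(m) (μ^μ/μ!) S ≤ 2 n^n/n!`. So
`n! ZZ = n! 2^(μ+1) μ^(μ+1) φ(m) ((μ+1)/μ) S = n! 2^(μ+1) (μ+1)! φ(μ) φ(m) S ≤ 2^(μ+2) (μ+1)! n^n`
(`μ^(μ+1) (μ+1)/μ = μ^μ (μ+1) = (μ+1)! φ(μ)`). -/
theorem numeric (p c : ℕ) (hc : 2 ≤ c) :
    ((p + 1 + c)! : ℝ) * ZZ p c ≤
      2 ^ (c + 2) * ((c + 1)! : ℝ) * ((p + 1 + c : ℕ) : ℝ) ^ (p + 1 + c) := by
  sorry

end Pool.Agent.Lib.H88V
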