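import Pool.Agent.Lib.H88V.C3
import Pool.Agent.Lib.H88V.N7

/-!
# Project H88V, chunk C4: limits
-/

open scoped Nat Topology
open Finset Filter

namespace Pool.Agent.Lib.H88V

/-- Proof. `β m = n! * (right side of sum_cnt_bound) / m^(n+1)`. Termwise
`(2 c m + 2 (c+1))^(c+1-k) (m (p+2) + p + k + 1)^(p+k+1) / m^(n+1) → (2c)^(c+1-k) (p+2)^(p+k+1)` since
`(c + 1 - k) + (p + k + 1) = n + 1`, `n = p + 1 + c` (write it as the product of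
`((2 c m + 2(c+1))/m)^(c+1-k)` and `((m (p+2) + p + k + 1)/m)^(p+k+1)`). -/
theorem exists_beta (M p c : ℕ) (hM : 1 ≤ M) : ∃ β : ℕ → ℝ,
    Tendsto β atTop (𝓝 (((p + 1 + c)! : ℝ) * ((2 * M - 1 : ℝ) * (M / (2 * M - 1)) ^ (c + 1) /
      ((c + 1)! : ℝ)) * ZZ p c)) ∧
    ∀ᶠ m : ℕ in atTop, ((p + 1 + c)! : ℝ) *
      (∑ j ∈ range (M * (p + 2 + 2 * c) * m),
        (cnt M (2 * M - 1) p c (m * (p + 2)) (j + 1) : ℝ)) / (m : ℝ) ^ (p + 1 + c + 1) ≤ β m := by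
  sorry

/-- Proof. Divide by `M`: with `r = (2M-1)/M → 2`, `(p + 2 + 2c - p - r c) V ≤ n! r^(-c) ZZ / (c+1)!`. Let
`M → ∞`: `2 V ≤ n! 2^(-c) ZZ / (c+1)! ≤ 4 n^n` by `numeric`. -/
theorem limit_M (p c : ℕ) (hc : 2 ≤ c) (V : ℝ)
    (h : ∀ M : ℕ, 1 ≤ M → ((M * (p + 2 + 2 * c) : ℕ) - (M * p + (2 * M - 1) * c : ℕ) : ℝ) * V ≤
      ((p + 1 + c)! : ℝ) * ((2 * M - 1 : ℝ) * (M / (2 * M - 1)) ^ (c + 1) /
        ((c + 1)! : ℝ)) * ZZ p c) :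
    V ≤ 2 * ((p + 1 + c : ℕ) : ℝ) ^ (p + 1 + c) := by
  sorry

end Pool.Agent.Lib.H88V
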