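import Pool.Agent.Lib.H88V.An

/-!
# Project H88V, chunk D1: the weighted blow-up chart
-/

open scoped Topology Nat
open Filter Asymptotics Set

namespace Pool.Agent.Lib.H88V

/-- The chart `(z, η, ω) ↦ (z, t^a η, t^b (1, ω₁, …))`, `t = ω₀`, of the blow-up of the zero section with
weights `a, b`. -/
noncomputable def blow {p c : ℕ} (a b : ℕ) (i₀ : Fin c) (x : Tube p c) : Tube p c :=
  (x.1, x.2.2 i₀ ^ a • x.2.1, x.2.2 i₀ ^ b • Function.update x.2.2 i₀ 1)

/-- Proof. All components are polynomials in the coordinates. -/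
theorem blow_analyticAt {p c : ℕ} (a b : ℕ) (i₀ : Fin c) (x : Tube p c) :
    AnalyticAt ℂ (blow a b i₀) x := by
  sorry

/-- Proof. Differentiate componentwise at `x = (0, 0, t e_{i₀})`: the derivative of `t^a η` at `η = 0` is
`t^a η'`; the component `i₀` of `t^b (1, ω)` is `t^b`; the component `i ≠ i₀` is `t^b ω_i` with `ω_i = 0`
at `x`. -/
theorem blow_fderiv {p c : ℕ} (a b : ℕ) (ha : 1 ≤ a) (hb : 1 ≤ b) (i₀ : Fin c) (t : ℂ)
    (x' : Tube p c) :
    fderiv ℂ (blow a b i₀) ((0, 0, t • Pi.single i₀ 1) : Tube p c) x' =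
      (x'.1, t ^ a • x'.2.1, fun i => if i = i₀ then b * t ^ (b - 1) * x'.2.2 i₀
        else t ^ b * x'.2.2 i) := by
  sorry

/-- Proof. The matrix of `A` in the standard basis is diagonal, with entries `1`, `t^a` (`p` times),
`b t^(b-1)` once and `t^b` (`c - 1` times). -/
theorem det_blow {p c : ℕ} (a b : ℕ) (i₀ : Fin c) (t : ℂ) (A : Tube p c →L[ℂ] Tube p c)
    (hA : ∀ x', A x' = (x'.1, t ^ a • x'.2.1, fun i => if i = i₀ then b * t ^ (b - 1) * x'.2.2 i₀
        else t ^ b * x'.2.2 i)) :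
    A.det = t ^ (a * p) * (b * t ^ (b - 1)) * t ^ (b * (c - 1)) := by
  sorry

end Pool.Agent.Lib.H88V
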