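import Pool.Agent.Lib.H88V.A4
import Pool.Agent.Lib.H88V.A5
import Pool.Agent.Lib.H88V.B3
import Pool.Agent.Lib.H88V.D1

/-!
# Project H88V, chunk D2: the divisor over the curve
-/

open scoped Manifold ContDiff Topology Nat
open Filter Asymptotics Set

namespace Pool.Agent.Lib.H88V

/-- the linear form `y ↦ (L.symm y).2.2 i₀` -/
noncomputable def d2_ell {n p c : ℕ} (L : Tube p c ≃L[ℂ] (Fin n → ℂ)) (i₀ : Fin c) :
    (Fin n → ℂ) →L[ℂ] ℂ :=
  (ContinuousLinearMap.proj i₀ : (Fin c → ℂ) →L[ℂ] ℂ) ∘L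
    (ContinuousLinearMap.snd ℂ (Fin p → ℂ) (Fin c → ℂ)) ∘L
    (ContinuousLinearMap.snd ℂ ℂ ((Fin p → ℂ) × (Fin c → ℂ))) ∘L
    (L.symm : (Fin n → ℂ) →L[ℂ] Tube p c)

theorem d2_ell_apply {n p c : ℕ} (L : Tube p c ≃L[ℂ] (Fin n → ℂ)) (i₀ : Fin c)
    (y : Fin n → ℂ) : d2_ell L i₀ y = (L.symm y).2.2 i₀ := rfl

theorem d2_det {n p c : ℕ} (L : Tube p c ≃L[ℂ] (Fin n → ℂ)) (i₀ : Fin c) (a b : ℕ)
    (ha : 1 ≤ a) (hb : 1 ≤ b) (t : ℂ) :
    ((L : Tube p c →L[ℂ] (Fin n → ℂ)) ∘L fderiv ℂ (fun y => blow a b i₀ (L.symm y))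
      (L ((0, 0, t • Pi.single i₀ 1) : Tube p c))).det = b * t ^ (a * p + b * c - 1) := by
  obtain ⟨x, hx⟩ : ∃ x : Tube p c, x = (0, 0, t • Pi.single i₀ 1) := ⟨_, rfl⟩
  have h1 : fderiv ℂ (fun y => blow a b i₀ (L.symm y)) (L x) =
      (fderiv ℂ (blow a b i₀) x) ∘L (L.symm : (Fin n → ℂ) →L[ℂ] Tube p c) := by
    have hd : DifferentiableAt ℂ (blow a b i₀) (L.symm (L x)) :=
      (blow_analyticAt a b i₀ _).differentiableAt
    have h2 : HasFDerivAt (fun y => L.symm y) (L.symm : (Fin n → ℂ) →L[ℂ] Tube p c) (L x) :=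
      L.symm.hasFDerivAt
    have h3 := hd.hasFDerivAt.comp (L x) h2
    rw [L.symm_apply_apply] at h3
    exact h3.fderiv
  rw [← hx, h1]
  have h4 : (fderiv ℂ (blow a b i₀) x).det =
      t ^ (a * p) * (b * t ^ (b - 1)) * t ^ (b * (c - 1)) := by
    refine det_blow a b i₀ t _ fun x' => ?_
    rw [hx]
    exact blow_fderiv a b ha hb i₀ t x'
  have h5 : ((L : Tube p c →L[ℂ] (Fin n → ℂ)) ∘L ((fderiv ℂ (blow a b i₀) x) ∘L
      (L.symm : (Fin n → ℂ) →L[ℂ] Tube p c))).det = (fderiv ℂ (blow a b i₀) x).det := by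
    have := LinearMap.det_conj ((fderiv ℂ (blow a b i₀) x : Tube p c →L[ℂ] Tube p c) :
      Tube p c →ₗ[ℂ] Tube p c) L.toLinearEquiv
    exact this
  rw [h5, h4]
  have hc : 1 ≤ c := by
    have := i₀.isLt
    omega
  have h6 : a * p + b * c - 1 = a * p + (b - 1) + b * (c - 1) := by
    obtain ⟨c', rfl⟩ : ∃ c', c = c' + 1 := ⟨c - 1, by omega⟩
    obtain ⟨b', rfl⟩ : ∃ b', b = b' + 1 := ⟨b - 1, by omega⟩
    simp only [Nat.add_sub_cancel]
    have : (b' + 1) * (c' + 1) = (b' + 1) * c' + b' + 1 := by ring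
    omega
  rw [h6, pow_add, pow_add]
  ring

theorem d2_not_isBigO (b N : ℕ) (hb : 1 ≤ b) (hN : 1 ≤ N) :
    ¬ ((fun t : ℂ => (b : ℂ) * t ^ (N - 1)) =O[𝓝 0] fun t => t ^ N) := by
  intro h
  obtain ⟨C, hC⟩ := h.bound
  have hb' : (0 : ℝ) < b := by exact_mod_cast hb
  have h1 : ∀ᶠ t in 𝓝[≠] (0 : ℂ), (b : ℝ) ≤ C * ‖t‖ := by
    filter_upwards [hC.filter_mono nhdsWithin_le_nhds, self_mem_nhdsWithin] with t ht ht0
    have ht0' : t ≠ 0 := ht0
    have hpos : 0 < ‖t‖ ^ (N - 1) := pow_pos (norm_pos_iff.mpr ht0') _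
    rw [norm_mul, norm_pow, norm_pow, Complex.norm_natCast] at ht
    have e : ‖t‖ ^ N = ‖t‖ * ‖t‖ ^ (N - 1) := by
      rw [← pow_succ']
      congr 1
      omega
    rw [e, ← mul_assoc] at ht
    exact le_of_mul_le_mul_right ht hpos
  have h2 : Tendsto (fun t : ℂ => C * ‖t‖) (𝓝[≠] (0 : ℂ)) (𝓝 0) := by
    have : Tendsto (fun t : ℂ => C * ‖t‖) (𝓝 (0 : ℂ)) (𝓝 (C * ‖(0 : ℂ)‖)) :=
      (continuous_const.mul continuous_norm).tendsto _
    rw [norm_zero, mul_zero] at this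
    exact this.mono_left nhdsWithin_le_nhds
  have h3 := ge_of_tendsto h2 h1
  linarith

theorem d2_pull {n : ℕ} {U : Type*} [TopologicalSpace U]
    [ChartedSpace (Fin n → ℂ) U] [IsManifold 𝓘(ℂ, Fin n → ℂ) ω U] {p c : ℕ}
    (C : StandardCurve n U p c) (L : Tube p c ≃L[ℂ] (Fin n → ℂ)) (i₀ : Fin c) (a b : ℕ)
    (ha : 1 ≤ a) (hb : 1 ≤ b) (m K : ℕ) (s : antiSections n U m)
    (hs : ∀ k < K, ∀ x, coef a b k (pull L C.Φ₀ s) x = 0) :
    (fun y => pull L C.Φ₀ s (blow a b i₀ (L.symm y))) =O[𝓝 0] fun y => d2_ell L i₀ y ^ K := by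
  obtain ⟨x₀, hx₀⟩ : ∃ x₀ : Tube p c, x₀ = (0, 0, Function.update (0 : Fin c → ℂ) i₀ 1) := ⟨_, rfl⟩
  have hf : AnalyticAt ℂ (pull L C.Φ₀ s) (x₀.1, 0, 0) := by
    rw [hx₀]
    exact pull_analyticAt L C.Φ₀ _ (C.bihol₀ 0) s
  have h1 := isBigO_coef a b K ha hb (pull L C.Φ₀ s) x₀ hf
    (Eventually.of_forall fun y j hj => hs j hj y)
  have hcont : Continuous fun y : Fin n → ℂ => ((((L.symm y).2.2 i₀,
      ((L.symm y).1, (L.symm y).2.1, Function.update (L.symm y).2.2 i₀ 1)) : ℂ × Tube p c)) := by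
    have hL : Continuous fun y : Fin n → ℂ => L.symm y := L.symm.continuous
    have h22 : Continuous fun y : Fin n → ℂ => (L.symm y).2.2 := hL.snd.snd
    refine Continuous.prodMk ((continuous_apply i₀).comp h22)
      (hL.fst.prodMk (hL.snd.fst.prodMk ?_))
    exact h22.update i₀ continuous_const
  have htend : Tendsto (fun y : Fin n → ℂ => ((((L.symm y).2.2 i₀,
      ((L.symm y).1, (L.symm y).2.1, Function.update (L.symm y).2.2 i₀ 1)) : ℂ × Tube p c)))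
      (𝓝 0) (𝓝 (0, x₀)) := by
    have := hcont.tendsto 0
    have e : (((L.symm (0 : Fin n → ℂ)).2.2 i₀,
      ((L.symm (0 : Fin n → ℂ)).1, (L.symm (0 : Fin n → ℂ)).2.1,
        Function.update (L.symm (0 : Fin n → ℂ)).2.2 i₀ 1)) : ℂ × Tube p c) = (0, x₀) := by
      rw [hx₀, map_zero]
      rfl
    rw [e] at this
    exact this
  have h2 := h1.comp_tendsto htend
  simp only [Function.comp_def] at h2
  simp only [blow, d2_ell_apply]
  exact h2

/-- Proof. `exists_divisor` for `Φ = C.Φ₀`, `G y = blow a b i₀ (L.symm y)` (`G 0 = 0`),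
`ℓ y = (L.symm y).2.2 i₀`, and the number `a p + b c`. At `y = L (0, 0, t e_{i₀})`,
`fderiv G y = (fderiv (blow a b i₀) (0,0,t e)) ∘ L.symm`, so `det (L ∘ fderiv G y)` is the determinant of
`fderiv (blow …)` (`LinearMap.det_conj`), that is `b t^(a p + b c - 1)` by `blow_fderiv`, `det_blow`
(`1 ≤ c` as `i₀ : Fin c`), while `ℓ y = t`. If it were `O(ℓ^(a p + b c))` then, composing with
`t ↦ L (0,0,t e)` (tends to `0`), `|b| |t|^(a p + b c - 1) ≤ C |t|^(a p + b c)` for small `t`: contradiction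
for small `t ≠ 0`.

Second statement: by `mem_sub_of_isBigO` it suffices that `pull L C.Φ₀ s (G y) = O(ℓ y^K)`. With
`x = L.symm y`, `G y = (x.1, ζ^a x.2.1, ζ^b ω')`, `ζ = x.2.2 i₀ = ℓ y`, `ω' = update x.2.2 i₀ 1`, and
`(ζ, (x.1, x.2.1, ω')) → (0, (0, 0, update 0 i₀ 1))` as `y → 0`. Use `isBigO_coef` at this point and
compose (`IsBigO.comp_tendsto`). -/
theorem exists_divisor_curve {n : ℕ} {U : Type*} [TopologicalSpace U]
    [ChartedSpace (Fin n → ℂ) U] [IsManifold 𝓘(ℂ, Fin n → ℂ) ω U] {p c : ℕ}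
    (C : StandardCurve n U p c) (L : Tube p c ≃L[ℂ] (Fin n → ℂ)) (i₀ : Fin c) (a b : ℕ)
    (ha : 1 ≤ a) (hb : 1 ≤ b) :
    ∃ D : DivisorOver n U, D.logDiscrepancy ≤ a * p + b * c ∧
      ∀ (m K : ℕ) (s : antiSections n U m),
        (∀ k < K, ∀ x, coef a b k (pull L C.Φ₀ s) x = 0) → s ∈ D.sub m K := by
  have hc : 1 ≤ c := by
    have := i₀.isLt
    omega
  have hG0 : blow a b i₀ (L.symm (0 : Fin n → ℂ)) = (0, 0, 0) := by
    rw [map_zero]
    have hb0 : b ≠ 0 := by omega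
    simp [blow, hb0]
  have hG : AnalyticAt ℂ (fun y : Fin n → ℂ => blow a b i₀ (L.symm y)) 0 :=
    (blow_analyticAt a b i₀ (L.symm 0)).comp (L.symm.analyticAt 0)
  have hΦ : IsLocalDiffeomorphAt 𝓘(ℂ, Tube p c) 𝓘(ℂ, Fin n → ℂ) ω C.Φ₀
      ((fun y : Fin n → ℂ => blow a b i₀ (L.symm y)) 0) := by
    simp only [hG0]
    exact C.bihol₀ 0
  have hℓ1 : ∀ t : ℂ, d2_ell L i₀ (L ((0, 0, t • Pi.single i₀ 1) : Tube p c)) = t := by
    intro t
    rw [d2_ell_apply, L.symm_apply_apply]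
    simp
  have hℓ : d2_ell L i₀ ≠ 0 := by
    intro h
    have := hℓ1 1
    rw [h] at this
    simp at this
  have hN : 1 ≤ a * p + b * c := by
    have : 1 ≤ b * c := Nat.mul_pos hb hc
    omega
  have hdet : ¬ ((fun y => ((L : Tube p c →L[ℂ] (Fin n → ℂ)) ∘L
      fderiv ℂ (fun y : Fin n → ℂ => blow a b i₀ (L.symm y)) y).det)
      =O[𝓝 0] fun y => d2_ell L i₀ y ^ (a * p + b * c)) := by
    intro h
    have htend : Tendsto (fun t : ℂ => L ((0, 0, t • Pi.single i₀ 1) : Tube p c)) (𝓝 0) (𝓝 0) := by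
      have hcont : Continuous fun t : ℂ => L ((0, 0, t • Pi.single i₀ 1) : Tube p c) := by
        refine L.continuous.comp ?_
        refine continuous_const.prodMk (continuous_const.prodMk ?_)
        exact continuous_id.smul continuous_const
      have := hcont.tendsto 0
      have e : L ((0, 0, (0 : ℂ) • Pi.single i₀ 1) : Tube p c) = 0 := by
        rw [zero_smul]
        exact map_zero L
      rw [e] at this
      exact this
    have h2 := h.comp_tendsto htend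
    have h3 : ((fun t : ℂ => (b : ℂ) * t ^ (a * p + b * c - 1)) =O[𝓝 0]
        fun t => t ^ (a * p + b * c)) := by
      refine h2.congr (fun t => ?_) (fun t => ?_)
      · exact d2_det L i₀ a b ha hb t
      · simp only [Function.comp_apply, hℓ1]
    exact d2_not_isBigO b _ hb hN h3
  obtain ⟨D, hDg, hDℓ, hDA⟩ := exists_divisor L C.Φ₀ (fun y : Fin n → ℂ => blow a b i₀ (L.symm y))
    hG hΦ (d2_ell L i₀) hℓ (a * p + b * c) hdet
  refine ⟨D, hDA, fun m K s hs => ?_⟩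
  refine mem_sub_of_isBigO L C.Φ₀ (fun y : Fin n → ℂ => blow a b i₀ (L.symm y)) hG hΦ D hDg s ?_
  rw [hDℓ]
  exact d2_pull C L i₀ a b ha hb m K s hs

end Pool.Agent.Lib.H88V
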