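import Pool.Agent.Lib.H88V.B1

/-!
# Project H88V, chunk D3A: linearity of the Taylor coefficients
-/

open scoped Topology Nat
open Filter Asymptotics Set

namespace Pool.Agent.Lib.H88V

/-- Proof. `iteratedDeriv_add`, for the inner derivative at all points (the functions
`ζ ↦ f (x.1, ζ^a • x.2.1, ζ^b • x.2.2)` are analytic at `0`), then for the outer one (`coef a b k f` is
analytic everywhere, `coef_analyticAt`). -/
theorem taylor_add {p c : ℕ} (a b j k : ℕ) (ha : 1 ≤ a) (hb : 1 ≤ b) (f g : Tube p c → ℂ)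
    (hf : ∀ z : ℂ, AnalyticAt ℂ f (z, 0, 0)) (hg : ∀ z : ℂ, AnalyticAt ℂ g (z, 0, 0))
    (x : Tube p c) :
    iteratedDeriv j (fun t : ℂ => coef a b k (f + g) (t * x.1, t • x.2.1, x.2.2)) 0 =
      iteratedDeriv j (fun t : ℂ => coef a b k f (t * x.1, t • x.2.1, x.2.2)) 0 +
      iteratedDeriv j (fun t : ℂ => coef a b k g (t * x.1, t • x.2.1, x.2.2)) 0 := by
  sorry

/-- Proof. `iteratedDeriv_const_mul` twice. -/
theorem taylor_smul {p c : ℕ} (a b j k : ℕ) (ha : 1 ≤ a) (hb : 1 ≤ b) (r : ℂ) (f : Tube p c → ℂ)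
    (hf : ∀ z : ℂ, AnalyticAt ℂ f (z, 0, 0)) (x : Tube p c) :
    iteratedDeriv j (fun t : ℂ => coef a b k (fun y => r * f y) (t * x.1, t • x.2.1, x.2.2)) 0 =
      r * iteratedDeriv j (fun t : ℂ => coef a b k f (t * x.1, t • x.2.1, x.2.2)) 0 := by
  sorry

end Pool.Agent.Lib.H88V
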