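import Mathlib

/-!
# Project H88V, chunk LA: a dimension count
-/

open scoped Topology Nat
open Filter Asymptotics Set

namespace Pool.Agent.Lib.H88V

theorem la_step {V : Type*} [AddCommGroup V] [Module ℂ V] [FiniteDimensional ℂ V]
    {X : Type*} (Φ : V →ₗ[ℂ] (X → ℂ)) (S : Finset (X → ℂ)) (G : Submodule ℂ V)
    (hS : ∀ v ∈ G, Φ v ∈ Submodule.span ℂ (S : Set (X → ℂ))) :
    Module.finrank ℂ G ≤ Module.finrank ℂ (G ⊓ LinearMap.ker Φ : Submodule ℂ V) + S.card := by
  have h1 := LinearMap.finrank_range_add_finrank_ker (Φ ∘ₗ G.subtype)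
  have h2 : Module.finrank ℂ (LinearMap.ker (Φ ∘ₗ G.subtype)) =
      Module.finrank ℂ (G ⊓ LinearMap.ker Φ : Submodule ℂ V) := by
    rw [LinearMap.ker_comp, ← Submodule.map_comap_subtype]
    exact (Submodule.finrank_map_subtype_eq _ _).symm
  have h3 : Module.finrank ℂ (LinearMap.range (Φ ∘ₗ G.subtype)) ≤ S.card := by
    have hle : LinearMap.range (Φ ∘ₗ G.subtype) ≤ Submodule.span ℂ (S : Set (X → ℂ)) := by
      rintro _ ⟨v, rfl⟩
      exact hS v.1 v.2
    exact (Submodule.finrank_mono hle).trans (finrank_span_finset_le_card S)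
  omega

/-- Proof. The linear map `Φ : G → ∏_{i ∈ t} span (S i)`, `v ↦ (Ψ i v)_i`, has kernel contained in (the part
in `G` of) `F`, so `finrank G = finrank (ker Φ) + finrank (range Φ) ≤ finrank F + ∑ finrank (span (S i))`
(`LinearMap.finrank_range_add_finrank_ker`, `Module.finrank_pi_fintype`, `finrank_span_finset_le_card`).
Or by induction on `t`: restricting to the kernel of one map `Ψ i` lowers the dimension by at most
`card (S i)`. -/
theorem finrank_le_of_maps {V : Type*} [AddCommGroup V] [Module ℂ V] [FiniteDimensional ℂ V]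
    {ι X : Type*} (t : Finset ι) (Ψ : ι → V →ₗ[ℂ] (X → ℂ)) (S : ι → Finset (X → ℂ))
    (G F : Submodule ℂ V)
    (hS : ∀ i ∈ t, ∀ v ∈ G, Ψ i v ∈ Submodule.span ℂ (S i : Set (X → ℂ)))
    (hF : ∀ v ∈ G, (∀ i ∈ t, Ψ i v = 0) → v ∈ F) :
    Module.finrank ℂ G ≤ Module.finrank ℂ F + ∑ i ∈ t, (S i).card := by
  classical
  induction t using Finset.induction_on generalizing G with
  | empty =>
    have h : G ≤ F := fun v hv => hF v hv (fun i hi => absurd hi (Finset.notMem_empty i))
    have := Submodule.finrank_mono h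
    simpa using this
  | insert i t hi ih =>
    have h1 := la_step (Ψ i) (S i) G (hS i (Finset.mem_insert_self i t))
    have h2 := ih (G ⊓ LinearMap.ker (Ψ i))
      (fun j hj v hv => hS j (Finset.mem_insert_of_mem hj) v hv.1)
      (fun v hv h => hF v hv.1 (by
        intro j hj
        rcases Finset.mem_insert.mp hj with rfl | hj
        · exact hv.2
        · exact h j hj))
    rw [Finset.sum_insert hi]
    omega

end Pool.Agent.Lib.H88V
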