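import Pool.Agent.Lib.H88V.B1
import Pool.Agent.Lib.H88V.B2

/-!
# Project H88V, chunk T1: mixed derivatives of small functions
-/

open scoped Topology Nat
open Filter Asymptotics Set

namespace Pool.Agent.Lib.H88V

/-- Proof. `u t = iteratedDeriv k (fun ζ => h (t, ζ)) 0` is analytic at `0`
(`analyticAt_iteratedDeriv_param_zero` with `X = ℂ` and `H q = h (q.2, q.1)`). By the Cauchy estimate on the circle of radius `‖t‖`
(`Complex.norm_iteratedDeriv_le_of_forall_mem_sphere_norm_le`), for `t ≠ 0` small,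
`‖u t‖ ≤ k! C (2‖t‖)^(D+1) / ‖t‖^k = O(‖t‖^(D+1-k))`; at `t = 0` also (`u 0 = 0` if `D + 1 > k`, by
`iteratedDeriv_eq_zero_of_isBigO`). Since `j < D + 1 - k`, `iteratedDeriv_eq_zero_of_isBigO` gives the
result. -/
theorem mixed_eq_zero (h : ℂ × ℂ → ℂ) (hh : AnalyticAt ℂ h 0) (D j k : ℕ) (hD : j + k ≤ D)
    (hO : h =O[𝓝 0] fun q : ℂ × ℂ => (‖q.1‖ + ‖q.2‖) ^ (D + 1)) :
    iteratedDeriv j (fun t : ℂ => iteratedDeriv k (fun ζ : ℂ => h (t, ζ)) 0) 0 = 0 := by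
  sorry

/-- Proof. For fixed `t`, `iteratedDeriv k (fun ζ => C * t^r * ζ^s) 0 = C * t^r * (if s = k then k! else 0)`
and the same for the variable `t`. -/
theorem mixed_monomial (C : ℂ) (r s j k : ℕ) :
    iteratedDeriv j (fun t : ℂ => iteratedDeriv k (fun ζ : ℂ => C * t ^ r * ζ ^ s) 0) 0 =
      if r = j ∧ s = k then C * (j ! : ℕ) * (k ! : ℕ) else 0 := by
  sorry

/-- Proof. Both are analytic at `0` (use `analyticAt_iteratedDeriv_param_zero` for `t ↦ …` and analyticity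
in a neighbourhood for the inner derivative), `iteratedDeriv_add` twice (the inner one for all `t` near `0`,
then `Filter.EventuallyEq.iteratedDeriv_eq`). -/
theorem mixed_add (h₁ h₂ : ℂ × ℂ → ℂ) (hh₁ : AnalyticAt ℂ h₁ 0) (hh₂ : AnalyticAt ℂ h₂ 0)
    (j k : ℕ) :
    iteratedDeriv j (fun t : ℂ => iteratedDeriv k (fun ζ : ℂ => h₁ (t, ζ) + h₂ (t, ζ)) 0) 0 =
      iteratedDeriv j (fun t : ℂ => iteratedDeriv k (fun ζ : ℂ => h₁ (t, ζ)) 0) 0 +
      iteratedDeriv j (fun t : ℂ => iteratedDeriv k (fun ζ : ℂ => h₂ (t, ζ)) 0) 0 := by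
  sorry

end Pool.Agent.Lib.H88V
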