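import Pool.Agent.Lib.H88V.An
import Pool.Agent.Lib.H88V.T1

/-!
# Project H88V, chunk T2: Taylor polynomials are combinations of monomials
-/

open scoped Topology Nat
open Filter Asymptotics Set

namespace Pool.Agent.Lib.H88V

/-- Taylor expansion of order `D` in coordinates: a finite sum of monomials and a small remainder.
Proof. `f` has a power series `P` at `0` and `f x - P.partialSum (D+1) x = O(‖x‖^(D+1))`
(`HasFPowerSeriesAt.isBigO_sub_partialSum_pow`). For every `d`, `P d (fun _ => x)` is a finite sum of
constants times monomials: write `x = x.1 • e₀ + ∑ x.2.1 i • e_i + ∑ x.2.2 j • e'_j` as a sum over the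
finite type `Unit ⊕ Fin p ⊕ Fin c` and expand by `ContinuousMultilinearMap.map_sum` and
`ContinuousMultilinearMap.map_smul_univ`; the term of a map `s : Fin d → Unit ⊕ Fin p ⊕ Fin c` is the product
of the coordinates `x_{s t}` times `P d (basis vectors)`, and the product of the coordinates is
`mono r I J x` with `r, I, J` the numbers of `t` with given `s t` (`Finset.prod_comp` or
`Finset.prod_fiberwise`). -/
theorem exists_taylor {p c : ℕ} (f : Tube p c → ℂ) (hf : AnalyticAt ℂ f 0) (D : ℕ) :
    ∃ (ι : Type) (_ : Fintype ι) (C : ι → ℂ) (r : ι → ℕ) (I : ι → Fin p → ℕ) (J : ι → Fin c → ℕ),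
      (fun x => f x - ∑ i, C i * mono (r i) (I i) (J i) x) =O[𝓝 0] fun x => ‖x‖ ^ (D + 1) := by
  sorry

end Pool.Agent.Lib.H88V
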