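import Pool.Agent.Lib.H88V.B1
import Pool.Agent.Lib.H88V.T1
import Pool.Agent.Lib.H88V.T2

/-!
# Project H88V, chunk T3: the Taylor coefficients of the leading parts
-/

open scoped Topology Nat
open Filter Asymptotics Set

namespace Pool.Agent.Lib.H88V

/-- the mixed derivative -/
noncomputable def t3_mix (j k : ℕ) (h : ℂ × ℂ → ℂ) : ℂ :=
  iteratedDeriv j (fun t : ℂ => iteratedDeriv k (fun ζ : ℂ => h (t, ζ)) 0) 0

theorem t3_mix_sum {ι : Type} (s : Finset ι) (j k : ℕ) (h₀ : ℂ × ℂ → ℂ) (h : ι → ℂ × ℂ → ℂ)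
    (hh₀ : AnalyticAt ℂ h₀ 0) (hh : ∀ i ∈ s, AnalyticAt ℂ (h i) 0) :
    t3_mix j k (fun q => h₀ q + ∑ i ∈ s, h i q) = t3_mix j k h₀ + ∑ i ∈ s, t3_mix j k (h i) := by
  classical
  induction s using Finset.induction_on with
  | empty => simp
  | insert a s ha ih =>
    have h1 : (fun q => h₀ q + ∑ i ∈ insert a s, h i q) =
        fun q => (fun q => h₀ q + ∑ i ∈ s, h i q) q + h a q := by
      funext q
      rw [Finset.sum_insert ha]
      ring
    have h2 : AnalyticAt ℂ (fun q => h₀ q + ∑ i ∈ s, h i q) 0 := by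
      refine hh₀.add ?_
      have h3 := Finset.analyticAt_fun_sum s (f := fun i => h i) (c := (0 : ℂ × ℂ))
        fun i hi => hh i (Finset.mem_insert_of_mem hi)
      exact h3
    have h4 := mixed_add (fun q => h₀ q + ∑ i ∈ s, h i q) (h a) h2
      (hh a (Finset.mem_insert_self a s)) j k
    rw [h1, Finset.sum_insert ha]
    have h5 : t3_mix j k (fun q => (fun q => h₀ q + ∑ i ∈ s, h i q) q + h a q) =
        t3_mix j k (fun q => h₀ q + ∑ i ∈ s, h i q) + t3_mix j k (h a) := h4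
    rw [h5, ih fun i hi => hh i (Finset.mem_insert_of_mem hi)]
    ring

theorem t3_mono_analytic {p c : ℕ} (r : ℕ) (I : Fin p → ℕ) (J : Fin c → ℕ) (x : Tube p c) :
    AnalyticAt ℂ (mono r I J : Tube p c → ℂ) x := by
  have hv : ∀ i : Fin p, AnalyticAt ℂ (fun x : Tube p c => x.2.1 i) x := fun i =>
    ((ContinuousLinearMap.proj i : (Fin p → ℂ) →L[ℂ] ℂ).comp
      ((ContinuousLinearMap.fst ℂ (Fin p → ℂ) (Fin c → ℂ)).comp
        (ContinuousLinearMap.snd ℂ ℂ ((Fin p → ℂ) × (Fin c → ℂ))))).analyticAt x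
  have hw : ∀ i : Fin c, AnalyticAt ℂ (fun x : Tube p c => x.2.2 i) x := fun i =>
    ((ContinuousLinearMap.proj i : (Fin c → ℂ) →L[ℂ] ℂ).comp
      ((ContinuousLinearMap.snd ℂ (Fin p → ℂ) (Fin c → ℂ)).comp
        (ContinuousLinearMap.snd ℂ ℂ ((Fin p → ℂ) × (Fin c → ℂ))))).analyticAt x
  have h1 : AnalyticAt ℂ (fun x : Tube p c => ∏ i, x.2.1 i ^ I i) x :=
    Finset.analyticAt_fun_prod _ fun i _ => (hv i).pow (I i)
  have h2 : AnalyticAt ℂ (fun x : Tube p c => ∏ i, x.2.2 i ^ J i) x :=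
    Finset.analyticAt_fun_prod _ fun i _ => (hw i).pow (J i)
  exact ((analyticAt_fst.pow r).mul h1).mul h2

/-- the map `E` -/
def t3_E {p c : ℕ} (a b : ℕ) (x : Tube p c) (q : ℂ × ℂ) : Tube p c :=
  (q.1 * x.1, q.2 ^ a • q.1 • x.2.1, q.2 ^ b • x.2.2)

theorem t3_E_analytic {p c : ℕ} (a b : ℕ) (x : Tube p c) (q : ℂ × ℂ) :
    AnalyticAt ℂ (t3_E a b x) q := by
  have h1 : AnalyticAt ℂ (fun q : ℂ × ℂ => q.1) q := analyticAt_fst
  have h2 : AnalyticAt ℂ (fun q : ℂ × ℂ => q.2) q := analyticAt_snd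
  exact (h1.mul analyticAt_const).prod (((h2.pow a).smul (h1.smul analyticAt_const)).prod
    ((h2.pow b).smul analyticAt_const))

theorem t3_E_zero {p c : ℕ} (a b : ℕ) (hb : 1 ≤ b) (x : Tube p c) :
    t3_E a b x 0 = 0 := by
  unfold t3_E
  have hb0 : b ≠ 0 := by omega
  refine Prod.ext ?_ (Prod.ext ?_ ?_)
  · show (0 : ℂ) * x.1 = 0
    rw [zero_mul]
  · show (0 : ℂ) ^ a • (0 : ℂ) • x.2.1 = 0
    rw [zero_smul, smul_zero]
  · show (0 : ℂ) ^ b • x.2.2 = 0
    rw [zero_pow hb0, zero_smul]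

theorem t3_E_mono {p c : ℕ} (a b : ℕ) (x : Tube p c) (r : ℕ) (I : Fin p → ℕ) (J : Fin c → ℕ)
    (q : ℂ × ℂ) : mono r I J (t3_E a b x q) =
      mono r I J x * q.1 ^ (r + ∑ i, I i) * q.2 ^ (a * ∑ i, I i + b * ∑ i, J i) := by
  unfold mono t3_E
  have h1 : ∏ i, (q.2 ^ a • q.1 • x.2.1) i ^ I i =
      (∏ i, x.2.1 i ^ I i) * q.1 ^ (∑ i, I i) * q.2 ^ (a * ∑ i, I i) := by
    rw [pow_mul, ← Finset.prod_pow_eq_pow_sum, ← Finset.prod_pow_eq_pow_sum,
      ← Finset.prod_mul_distrib, ← Finset.prod_mul_distrib]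
    refine Finset.prod_congr rfl fun i _ => ?_
    simp only [Pi.smul_apply, smul_eq_mul]
    rw [mul_pow, mul_pow]
    ring
  have h2 : ∏ i, (q.2 ^ b • x.2.2) i ^ J i = (∏ i, x.2.2 i ^ J i) * q.2 ^ (b * ∑ i, J i) := by
    rw [pow_mul, ← Finset.prod_pow_eq_pow_sum, ← Finset.prod_mul_distrib]
    refine Finset.prod_congr rfl fun i _ => ?_
    simp only [Pi.smul_apply, smul_eq_mul]
    rw [mul_pow]
    ring
  show (q.1 * x.1) ^ r * (∏ i, (q.2 ^ a • q.1 • x.2.1) i ^ I i) * ∏ i, (q.2 ^ b • x.2.2) i ^ J i = _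
  rw [h1, h2, mul_pow, pow_add, pow_add]
  ring

/-- Proof. Fix `x`. Let `D = j + k` and `f = ∑ C_i mono_i + R`, `R = O(‖y‖^(D+1))`, from `exists_taylor`
(`R` is analytic at `0`). For small `t` (and all `x`),
`coef a b k f (t x.1, t • x.2.1, x.2.2) = (k!)⁻¹ iteratedDeriv k (fun ζ => f (E (t, ζ))) 0` with
`E (t, ζ) = (t x.1, ζ^a t x.2.1, ζ^b x.2.2)`, polynomial, `E 0 = 0`,
`‖E (t, ζ)‖ ≤ C_x (‖t‖ + ‖ζ‖)` for `‖t‖, ‖ζ‖ ≤ 1` (as `a, b ≥ 1`). So the mixed derivative of `R ∘ E` is `0`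
by `mixed_eq_zero`, and `mono r I J (E (t, ζ)) = mono r I J x * t^(r + |I|) * ζ^(a |I| + b |J|)`, so by
`mixed_monomial` and `mixed_add` (finite sums) the function of `x` is the sum over the `i` with
`r_i + |I_i| = j`, `a |I_i| + b |J_i| = k` of `C_i (j! k!)/k! mono_i x`. The choice of the `C_i` does not
depend on `x`. -/
theorem taylor_mem_span {p c : ℕ} (f : Tube p c → ℂ) (hf : AnalyticAt ℂ f 0) (a b j k : ℕ)
    (ha : 1 ≤ a) (hb : 1 ≤ b) :
    (fun x : Tube p c =>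
      iteratedDeriv j (fun t : ℂ => coef a b k f (t * x.1, t • x.2.1, x.2.2)) 0) ∈
      Submodule.span ℂ (monos a b j k : Set (Tube p c → ℂ)) := by
  classical
  obtain ⟨ι, hι, C, r, I, J, hR⟩ := exists_taylor f hf (j + k)
  obtain ⟨R, hRdef⟩ : ∃ R : Tube p c → ℂ, R = fun x => f x - ∑ i, C i * mono (r i) (I i) (J i) x :=
    ⟨_, rfl⟩
  rw [← hRdef] at hR
  have hRan : AnalyticAt ℂ R 0 := by
    rw [hRdef]
    refine hf.sub ?_
    exact Finset.analyticAt_fun_sum _ fun i _ => analyticAt_const.mul (t3_mono_analytic _ _ _ _)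
  have key : ∀ x : Tube p c,
      iteratedDeriv j (fun t : ℂ => coef a b k f (t * x.1, t • x.2.1, x.2.2)) 0 =
      ∑ i, (if r i + ∑ l, I i l = j ∧ a * ∑ l, I i l + b * ∑ l, J i l = k then
        C i * (j ! : ℕ) else 0) * mono (r i) (I i) (J i) x := by
    intro x
    have hEan := t3_E_analytic a b x (0 : ℂ × ℂ)
    have hE0 := t3_E_zero a b hb x
    have h1 : ∀ t : ℂ, coef a b k f (t * x.1, t • x.2.1, x.2.2) =
        ((k ! : ℕ) : ℂ)⁻¹ * iteratedDeriv k (fun ζ : ℂ => f (t3_E a b x (t, ζ))) 0 := fun t => rfl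
    have h2 : iteratedDeriv j (fun t : ℂ => coef a b k f (t * x.1, t • x.2.1, x.2.2)) 0 =
        ((k ! : ℕ) : ℂ)⁻¹ * t3_mix j k (fun q => f (t3_E a b x q)) := by
      have h3 : (fun t : ℂ => coef a b k f (t * x.1, t • x.2.1, x.2.2)) =
          fun t => ((k ! : ℕ) : ℂ)⁻¹ * iteratedDeriv k (fun ζ : ℂ => f (t3_E a b x (t, ζ))) 0 :=
        funext h1
      rw [h3, iteratedDeriv_const_mul_field]
      rfl
    have h4 : (fun q => f (t3_E a b x q)) = fun q => R (t3_E a b x q) +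
        ∑ i, (C i * mono (r i) (I i) (J i) x) * q.1 ^ (r i + ∑ l, I i l) *
          q.2 ^ (a * ∑ l, I i l + b * ∑ l, J i l) := by
      funext q
      rw [hRdef]
      have h5 : ∀ i, C i * mono (r i) (I i) (J i) (t3_E a b x q) =
          (C i * mono (r i) (I i) (J i) x) * q.1 ^ (r i + ∑ l, I i l) *
          q.2 ^ (a * ∑ l, I i l + b * ∑ l, J i l) := by
        intro i
        rw [t3_E_mono]
        ring
      show _ = f (t3_E a b x q) - ∑ i, C i * mono (r i) (I i) (J i) (t3_E a b x q) + _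
      rw [Finset.sum_congr rfl fun i _ => h5 i, sub_add_cancel]
    have hRE : AnalyticAt ℂ (fun q => R (t3_E a b x q)) 0 := by
      refine AnalyticAt.comp (g := R) ?_ hEan
      rw [hE0]
      exact hRan
    have hEO : (t3_E a b x) =O[𝓝 0] fun q : ℂ × ℂ => ‖q.1‖ + ‖q.2‖ := by
      have h6 := hEan.differentiableAt.isBigO_sub
      rw [hE0] at h6
      simp only [sub_zero] at h6
      refine h6.trans (IsBigO.of_bound 1 (Filter.Eventually.of_forall fun q => ?_))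
      rw [one_mul, Real.norm_of_nonneg (by positivity), Prod.norm_def]
      exact max_le (le_add_of_nonneg_right (norm_nonneg _)) (le_add_of_nonneg_left (norm_nonneg _))
    have hRO : (fun q => R (t3_E a b x q)) =O[𝓝 0]
        fun q : ℂ × ℂ => (‖q.1‖ + ‖q.2‖) ^ (j + k + 1) := by
      have h7 : Tendsto (t3_E a b x) (𝓝 0) (𝓝 0) := by
        have := hEan.continuousAt.tendsto
        rwa [hE0] at this
      have h8 := hR.comp_tendsto h7
      refine h8.trans ?_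
      have h9 := (hEO.norm_left).pow (j + k + 1)
      exact h9
    have h10 : t3_mix j k (fun q => R (t3_E a b x q)) = 0 :=
      mixed_eq_zero _ hRE (j + k) j k le_rfl hRO
    rw [h2, h4, t3_mix_sum _ j k _ _ hRE (fun i _ => by
      have g1 : AnalyticAt ℂ (fun q : ℂ × ℂ => q.1) 0 := analyticAt_fst
      have g2 : AnalyticAt ℂ (fun q : ℂ × ℂ => q.2) 0 := analyticAt_snd
      exact (analyticAt_const.mul (g1.pow _)).mul (g2.pow _)), h10, zero_add, Finset.mul_sum]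
    refine Finset.sum_congr rfl fun i _ => ?_
    have h11 := mixed_monomial (C i * mono (r i) (I i) (J i) x) (r i + ∑ l, I i l)
      (a * ∑ l, I i l + b * ∑ l, J i l) j k
    have h12 : t3_mix j k (fun q : ℂ × ℂ => (C i * mono (r i) (I i) (J i) x) *
        q.1 ^ (r i + ∑ l, I i l) * q.2 ^ (a * ∑ l, I i l + b * ∑ l, J i l)) =
        if r i + ∑ l, I i l = j ∧ a * ∑ l, I i l + b * ∑ l, J i l = k then
          C i * mono (r i) (I i) (J i) x * (j ! : ℕ) * (k ! : ℕ) else 0 := h11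
    rw [h12]
    have hk0 : ((k ! : ℕ) : ℂ) ≠ 0 := by exact_mod_cast Nat.factorial_ne_zero k
    split_ifs with hc
    · field_simp
    · rw [mul_zero, zero_mul]
  have h13 : (fun x : Tube p c =>
      iteratedDeriv j (fun t : ℂ => coef a b k f (t * x.1, t • x.2.1, x.2.2)) 0) =
      ∑ i, (if r i + ∑ l, I i l = j ∧ a * ∑ l, I i l + b * ∑ l, J i l = k then
        C i * (j ! : ℕ) else 0) • (mono (r i) (I i) (J i) : Tube p c → ℂ) := by
    funext x
    rw [key x, Finset.sum_apply]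
    rfl
  rw [h13]
  refine Submodule.sum_mem _ fun i _ => ?_
  split_ifs with hc
  · exact Submodule.smul_mem _ _ (Submodule.subset_span ⟨r i, I i, J i, hc.1, hc.2, rfl⟩)
  · rw [zero_smul]
    exact Submodule.zero_mem _

end Pool.Agent.Lib.H88V
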