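import Pool.Agent.Lib.H88V.B5
import Pool.Agent.Lib.H88V.C1
import Pool.Agent.Lib.H88V.D2
import Pool.Agent.Lib.H88V.D3A
import Pool.Agent.Lib.H88V.LA
import Pool.Agent.Lib.H88V.T3

/-!
# Project H88V, chunk D3: the count of sections for a curve
-/

open scoped Manifold ContDiff Topology Nat
open Filter Asymptotics Set

namespace Pool.Agent.Lib.H88V

/-- Proof. `L` from `exists_linear`, `D` from `exists_divisor_curve`. Let `N = m (p + 2)`. For `k < K`,
`j ≤ N` let `Ψ (k, j) s` be the function `x ↦ iteratedDeriv j (t ↦ coef a b k (pull L C.Φ₀ s)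
(t x.1, t x.2.1, x.2.2)) 0`, linear in `s` (`pull_add`, `pull_smul`, `taylor_add`, `taylor_smul`), in the
span of `monos a b j k` by `taylor_mem_span`, hence of the finite set of `exists_finset_monos`, of cardinality
`≤ cardS p c a b j k`. If all `Ψ (k, j) s` vanish then by `glued_pull` and `Glued.eq_zero` all
`coef a b k (pull L C.Φ₀ s)`, `k < K`, vanish, and `s ∈ D.sub m K`. Apply `finrank_le_of_maps` with `G = ⊤`
(`finrank_top`). -/
theorem count_curve {n : ℕ} {U : Type*} [TopologicalSpace U]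
    [ChartedSpace (Fin n → ℂ) U] [IsManifold 𝓘(ℂ, Fin n → ℂ) ω U]
    (hfin : ∀ m, FiniteDimensional ℂ (antiSections n U m)) {p c : ℕ}
    (C : StandardCurve n U p c) (hc : 1 ≤ c) (a b : ℕ) (ha : 1 ≤ a) (hab : a ≤ b)
    (hb : b < 2 * a) :
    ∃ D : DivisorOver n U, D.logDiscrepancy ≤ a * p + b * c ∧
      ∀ m K : ℕ, Module.finrank ℂ (antiSections n U m) ≤
        Module.finrank ℂ (D.sub m K) + cnt a b p c (m * (p + 2)) K := by
  sorry

end Pool.Agent.Lib.H88V
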