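import Pool.Agent.Lib.H88V.P1

/-!
# Project H88V, chunk P2: the volume bound from one valuation
-/

open scoped Topology ENNReal Nat
open Filter Asymptotics MeasureTheory Set

namespace Pool.Agent.Lib.H88V

/-- The principle behind all volume bounds.

Proof. Let `V = antiVolume n U` (finite), `a m = n! finrank R_m / m^n` (in `ℝ≥0∞`),
`F m k = n! finrank (D.sub m k) / m^n ≤ a m`. Eventually `a m ≤ V + 1` (`limsup a = V < ⊤`), so
`F m k ≤ V + 1` for all `k`. By `limsup_le_lintegral`, K-semistability and `D.logDiscrepancy ≤ A`,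
`limsup_m ∫_(0,T] F m ⌈m t⌉₊ dt ≤ ∫ D.volume ≤ A V`. By `sum_le_lintegral` for `m ≥ 1` and
`finrank R_m ≤ finrank (D.sub m (j+1)) + cnt m (j+1)`, summed over `j < T m`,
`T a m = (n! T m finrank R_m) / m^(n+1) ≤ ∫_(0,T] F m ⌈m t⌉₊ dt + n! ∑_j cnt m (j+1) / m^(n+1)`
`≤ ∫_(0,T] F m ⌈m t⌉₊ dt + ofReal (β m)` eventually. Take `limsup`:
`T V ≤ A V + ofReal I` (`ENNReal.limsup_const_mul`, `limsup_add_le`, `ENNReal.ofReal` is continuous).
`I ≥ 0` as the limit of `β m`, which are eventually `≥ 0`. All is finite: pass to `toReal`. -/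
theorem principle {n : ℕ} {U : Type*} [TopologicalSpace U] [ChartedSpace (Fin n → ℂ) U]
    (hK : IsKSemistable n U) (hfin : ∀ m, FiniteDimensional ℂ (antiSections n U m))
    (hV : antiVolume n U ≠ ⊤) (D : DivisorOver n U) (A : ℕ) (hA : D.logDiscrepancy ≤ A)
    (T : ℕ) (cnt : ℕ → ℕ → ℕ)
    (hcnt : ∀ m k, Module.finrank ℂ (antiSections n U m) ≤
      Module.finrank ℂ (D.sub m k) + cnt m k)
    (I : ℝ) (β : ℕ → ℝ) (hβ : Tendsto β atTop (𝓝 I))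
    (hle : ∀ᶠ m : ℕ in atTop,
      (n ! : ℝ) * (∑ j ∈ Finset.range (T * m), (cnt m (j + 1) : ℝ)) / (m : ℝ) ^ (n + 1) ≤ β m) :
    ((T : ℝ) - A) * (antiVolume n U).toReal ≤ I := by
  classical
  set V := antiVolume n U with hVdef
  let R : ℕ → ℕ := fun m => Module.finrank ℂ (antiSections n U m)
  let a : ℕ → ℝ≥0∞ := fun m => (n ! : ℝ≥0∞) * (R m : ℝ≥0∞) / (m : ℝ≥0∞) ^ n
  let F : ℕ → ℕ → ℝ≥0∞ := fun m k => (n ! : ℝ≥0∞) * (Module.finrank ℂ (D.sub m k) : ℝ≥0∞) / (m : ℝ≥0∞) ^ n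
  have hVa : V = limsup a atTop := rfl
  have hFa : ∀ m k, F m k ≤ a m := by
    intro m k
    have := hfin m
    show (n ! : ℝ≥0∞) * (Module.finrank ℂ (D.sub m k) : ℝ≥0∞) / (m : ℝ≥0∞) ^ n ≤ (n ! : ℝ≥0∞) * (Module.finrank ℂ (antiSections n U m) : ℝ≥0∞) / (m : ℝ≥0∞) ^ n
    gcongr
    exact_mod_cast Submodule.finrank_le (D.sub m k)
  have hI0 : 0 ≤ I := by
    apply ge_of_tendsto hβ
    filter_upwards [hle] with m hm
    exact le_trans (by positivity) hm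
  have hlt : limsup a atTop < V + 1 := by
    rw [← hVa]
    exact ENNReal.lt_add_right hV one_ne_zero
  have hev : ∀ᶠ m in atTop, a m ≤ V + 1 := (eventually_lt_of_limsup_lt hlt).mono fun _ h => h.le
  have hV1 : V + 1 ≠ ⊤ := ENNReal.add_ne_top.2 ⟨hV, ENNReal.one_ne_top⟩
  have h1 := limsup_le_lintegral F (V + 1) hV1 (hev.mono fun m hm k => (hFa m k).trans hm) T
  have h2 : ∫⁻ t in Ioi (0 : ℝ), limsup (fun m : ℕ => F m ⌈m * t⌉₊) atTop ≤ (A : ℝ≥0∞) * V := by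
    refine le_trans (hK D) ?_
    gcongr
  have h12 := h1.trans h2
  have hAV : (A : ℝ≥0∞) * V ≠ ⊤ := ENNReal.mul_ne_top (ENNReal.natCast_ne_top A) hV
  -- the inequality for a fixed m
  have h3 : ∀ m : ℕ, 1 ≤ m → (T : ℝ≥0∞) * a m ≤ (∫⁻ t in Ioc (0 : ℝ) T, F m ⌈m * t⌉₊) +
      ENNReal.ofReal ((n ! : ℝ) * (∑ j ∈ Finset.range (T * m), (cnt m (j + 1) : ℝ)) / (m : ℝ) ^ (n + 1)) := by
    intro m hm
    have hm0 : (m : ℝ≥0∞) ≠ 0 := by
      have : m ≠ 0 := by omega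
      exact_mod_cast this
    have hmt : (m : ℝ≥0∞) ≠ ⊤ := ENNReal.natCast_ne_top m
    have e1 : (T : ℝ≥0∞) * a m = (∑ _j ∈ Finset.range (T * m), a m) / (m : ℝ≥0∞) := by
      rw [Finset.sum_const, Finset.card_range, nsmul_eq_mul, Nat.cast_mul, mul_assoc, mul_comm (m : ℝ≥0∞) (a m), ← mul_assoc,
        ENNReal.mul_div_cancel_right hm0 hmt]
    have e2 : ∀ j : ℕ, a m ≤ F m (j + 1) + (n ! : ℝ≥0∞) * (cnt m (j + 1) : ℝ≥0∞) / (m : ℝ≥0∞) ^ n := by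
      intro j
      show (n ! : ℝ≥0∞) * (Module.finrank ℂ (antiSections n U m) : ℝ≥0∞) / (m : ℝ≥0∞) ^ n ≤
        (n ! : ℝ≥0∞) * (Module.finrank ℂ (D.sub m (j + 1)) : ℝ≥0∞) / (m : ℝ≥0∞) ^ n + (n ! : ℝ≥0∞) * (cnt m (j + 1) : ℝ≥0∞) / (m : ℝ≥0∞) ^ n
      rw [← ENNReal.add_div, ← mul_add]
      gcongr
      exact_mod_cast hcnt m (j + 1)
    have e3 : (∑ j ∈ Finset.range (T * m), (n ! : ℝ≥0∞) * (cnt m (j + 1) : ℝ≥0∞) / (m : ℝ≥0∞) ^ n) / (m : ℝ≥0∞) =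
        ENNReal.ofReal ((n ! : ℝ) * (∑ j ∈ Finset.range (T * m), (cnt m (j + 1) : ℝ)) / (m : ℝ) ^ (n + 1)) := by
      have hmr : (0 : ℝ) < (m : ℝ) ^ (n + 1) := by
        have : (0 : ℝ) < m := by exact_mod_cast hm
        positivity
      rw [ENNReal.ofReal_div_of_pos hmr, ENNReal.ofReal_mul (by positivity), ENNReal.ofReal_natCast, ENNReal.ofReal_pow (by positivity),
        ENNReal.ofReal_natCast, ENNReal.ofReal_sum_of_nonneg (fun j _ => by positivity), Finset.mul_sum]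
      simp_rw [ENNReal.ofReal_natCast, div_eq_mul_inv]
      rw [← Finset.sum_mul, pow_succ, ENNReal.mul_inv (Or.inr hmt) (Or.inr hm0), mul_assoc]
    rw [e1]
    calc (∑ _j ∈ Finset.range (T * m), a m) / (m : ℝ≥0∞)
        ≤ (∑ j ∈ Finset.range (T * m), (F m (j + 1) + (n ! : ℝ≥0∞) * (cnt m (j + 1) : ℝ≥0∞) / (m : ℝ≥0∞) ^ n)) / (m : ℝ≥0∞) := by
          gcongr with j _
          exact e2 j
      _ = (∑ j ∈ Finset.range (T * m), F m (j + 1)) / (m : ℝ≥0∞) + (∑ j ∈ Finset.range (T * m), (n ! : ℝ≥0∞) * (cnt m (j + 1) : ℝ≥0∞) / (m : ℝ≥0∞) ^ n) / (m : ℝ≥0∞) := by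
          rw [Finset.sum_add_distrib, ENNReal.add_div]
      _ ≤ _ := by
          rw [e3]
          gcongr
          exact sum_le_lintegral (F m) m T hm
  -- up to small errors
  have h4 : ∀ ε : ℝ, 0 < ε → ((T : ℝ) - A) * V.toReal ≤ I + ε := by
    intro ε hε
    have hε2 : 0 < ε / 2 := by linarith
    have hd : ENNReal.ofReal (ε / 2) ≠ 0 := (ENNReal.ofReal_pos.2 hε2).ne'
    have hlt2 : limsup (fun m : ℕ => ∫⁻ t in Ioc (0 : ℝ) T, F m ⌈m * t⌉₊) atTop < (A : ℝ≥0∞) * V + ENNReal.ofReal (ε / 2) :=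
      lt_of_le_of_lt h12 (ENNReal.lt_add_right hAV hd)
    have hβ2 : ∀ᶠ m in atTop, β m < I + ε / 2 := hβ.eventually (gt_mem_nhds (by linarith))
    have h5 : ∀ᶠ m in atTop, (T : ℝ≥0∞) * a m ≤ ((A : ℝ≥0∞) * V + ENNReal.ofReal (ε / 2)) + ENNReal.ofReal (I + ε / 2) := by
      filter_upwards [eventually_lt_of_limsup_lt hlt2, hβ2, hle, eventually_ge_atTop 1] with m hm1 hm2 hm3 hm4
      refine (h3 m hm4).trans (add_le_add hm1.le (ENNReal.ofReal_le_ofReal ?_))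
      linarith
    have h6 : (T : ℝ≥0∞) * V ≤ ((A : ℝ≥0∞) * V + ENNReal.ofReal (ε / 2)) + ENNReal.ofReal (I + ε / 2) := by
      rw [hVa, ← ENNReal.limsup_const_mul_of_ne_top (ENNReal.natCast_ne_top T)]
      exact limsup_le_of_le (by isBoundedDefault) h5
    have hfin2 : ((A : ℝ≥0∞) * V + ENNReal.ofReal (ε / 2)) + ENNReal.ofReal (I + ε / 2) ≠ ⊤ :=
      ENNReal.add_ne_top.2 ⟨ENNReal.add_ne_top.2 ⟨hAV, ENNReal.ofReal_ne_top⟩, ENNReal.ofReal_ne_top⟩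
    have h7 := ENNReal.toReal_mono hfin2 h6
    rw [ENNReal.toReal_add (ENNReal.add_ne_top.2 ⟨hAV, ENNReal.ofReal_ne_top⟩) ENNReal.ofReal_ne_top,
      ENNReal.toReal_add hAV ENNReal.ofReal_ne_top, ENNReal.toReal_mul, ENNReal.toReal_mul, ENNReal.toReal_natCast, ENNReal.toReal_natCast,
      ENNReal.toReal_ofReal hε2.le, ENNReal.toReal_ofReal (by linarith)] at h7
    linarith
  exact le_of_forall_pos_le_add h4

end Pool.Agent.Lib.H88V
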