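import Pool.Agent.Lib.H88V.C4
import Pool.Agent.Lib.H88V.D3
import Pool.Agent.Lib.H88V.P2

/-!
# Project H88V, chunk D4: the volume bound from one standard curve of degree at most `n - 1`
-/

open scoped Manifold ContDiff Topology Nat ENNReal
open Filter Asymptotics Set

namespace Pool.Agent.Lib.H88V

/-- Proof. `n = p + 1 + c` (`exists_linear`), `c ≥ 2`. For `M ≥ 1` use `count_curve` with `a = M`,
`b = 2 M - 1`, `exists_beta` and `principle` with `T = M (p + 2 + 2 c)`, `A = M p + (2M-1) c`. Conclude by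
`limit_M`, `V = (antiVolume n U).toReal`, and `ENNReal.le_ofReal_iff_toReal_le`-type lemmas. -/
theorem case_curve {n : ℕ} {U : Type*} [TopologicalSpace U]
    [ChartedSpace (Fin n → ℂ) U] [IsManifold 𝓘(ℂ, Fin n → ℂ) ω U]
    (hfin : ∀ m, FiniteDimensional ℂ (antiSections n U m)) (hV : antiVolume n U ≠ ⊤)
    (hK : IsKSemistable n U) {p c : ℕ} (C : StandardCurve n U p c) (hp : p + 3 ≤ n) :
    antiVolume n U ≤ 2 * (n : ℝ≥0∞) ^ n := by
  obtain ⟨-, hn⟩ := exists_linear C
  subst hn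
  have hc : 2 ≤ c := by omega
  have key : (antiVolume (p + 1 + c) U).toReal ≤
      2 * ((p + 1 + c : ℕ) : ℝ) ^ (p + 1 + c) := by
    refine limit_M p c hc _ fun M hM => ?_
    obtain ⟨D, hD, hcnt⟩ := count_curve hfin C (by omega) M (2 * M - 1) hM (by omega) (by omega)
    obtain ⟨β, hβ, hle⟩ := exists_beta M p c hM
    exact principle hK hfin hV D (M * p + (2 * M - 1) * c) hD (M * (p + 2 + 2 * c))
      (fun m k => cnt M (2 * M - 1) p c (m * (p + 2)) k) hcnt _ β hβ hle
  have hne : (2 * ((p + 1 + c : ℕ) : ℝ≥0∞) ^ (p + 1 + c)) ≠ ⊤ :=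
    ENNReal.mul_ne_top (by norm_num) (ENNReal.pow_ne_top (ENNReal.natCast_ne_top _))
  rw [← ENNReal.toReal_le_toReal hV hne, ENNReal.toReal_mul, ENNReal.toReal_pow,
    ENNReal.toReal_natCast, ENNReal.toReal_ofNat]
  exact key

end Pool.Agent.Lib.H88V
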