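import Mathlib

/-!
# Project H88V (MP_d76efa_ag): definitions

K-semistable complex manifolds, their anticanonical volume, divisors over them, and standard rational
curves.
-/

open scoped Manifold ContDiff Topology ENNReal Nat
open Filter Asymptotics MeasureTheory Set

namespace Pool.Agent.Lib.H88V

section Sections

variable (n : ℕ) (U : Type*) [TopologicalSpace U] [ChartedSpace (Fin n → ℂ) U]

/-- The space of holomorphic sections of the `m`-th power of the anticanonical bundle of the complex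
manifold `U` of dimension `n`. A section is given by its coefficient functions `σ e` in the charts
`e` of the atlas (the section is `σ e (x) (∂/∂x₁ ∧ … ∧ ∂/∂xₙ)^m` in the coordinates `x` of `e`), which
are holomorphic on the target of `e` and extended by `0` outside of it; on overlaps they differ by the
`m`-th power of the Jacobian determinant of the change of coordinates. -/
def antiSections (m : ℕ) : Submodule ℂ (atlas (Fin n → ℂ) U → (Fin n → ℂ) → ℂ) where
  carrier := {σ | (∀ e, AnalyticOnNhd ℂ (σ e) e.1.target) ∧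
    (∀ e, ∀ x, x ∉ e.1.target → σ e x = 0) ∧
    ∀ e e' : atlas (Fin n → ℂ) U, ∀ x ∈ (e.1.symm.trans e'.1).source,
      σ e' (e'.1 (e.1.symm x)) = (fderiv ℂ (e'.1 ∘ e.1.symm) x).det ^ m * σ e x}
  add_mem' := by
    rintro σ τ ⟨h1, h2, h3⟩ ⟨k1, k2, k3⟩
    refine ⟨fun e => (h1 e).add (k1 e), fun e x hx => ?_, fun e e' x hx => ?_⟩
    · simp [h2 e x hx, k2 e x hx]
    · simp only [Pi.add_apply, h3 e e' x hx, k3 e e' x hx, mul_add]
  zero_mem' := ⟨fun e => analyticOnNhd_const, fun e x hx => rfl, fun e e' x hx => by simp⟩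
  smul_mem' := by
    rintro c σ ⟨h1, h2, h3⟩
    refine ⟨fun e => (analyticOnNhd_const (v := c)).mul (h1 e), fun e x hx => ?_, fun e e' x hx => ?_⟩
    · simp [h2 e x hx]
    · simp only [Pi.smul_apply, h3 e e' x hx, smul_eq_mul]
      ring

/-- The anticanonical volume `vol(-K_U) = limsup n! h⁰(U, -mK_U) / mⁿ`. -/
noncomputable def antiVolume : ℝ≥0∞ :=
  limsup (fun m : ℕ => (n ! : ℝ≥0∞) * (Module.finrank ℂ (antiSections n U m) : ℝ≥0∞) /
    (m : ℝ≥0∞) ^ n) atTop

variable {n U}

/-- The coefficient function, along the map `g` from `ℂⁿ` to `U`, of a section `s` of the `m`-th power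
of the anticanonical bundle, in the chart of `U` at `g 0`. -/
noncomputable def along (g : (Fin n → ℂ) → U) {m : ℕ} (s : antiSections n U m) :
    (Fin n → ℂ) → ℂ :=
  fun y => s.1 ⟨chartAt (Fin n → ℂ) (g 0), chart_mem_atlas _ _⟩ (chartAt (Fin n → ℂ) (g 0) (g y))

/-- The Jacobian determinant of the map `g` from `ℂⁿ` to `U`, in the chart of `U` at `g 0`. -/
noncomputable def jac (g : (Fin n → ℂ) → U) : (Fin n → ℂ) → ℂ :=
  fun y => (fderiv ℂ (fun y => chartAt (Fin n → ℂ) (g 0) (g y)) y).det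

end Sections

/-- A prime divisor over `U`, seen near a general point of it: a holomorphic germ
`g : (ℂⁿ, 0) → U` (a birational model of `U` in local coordinates) whose Jacobian determinant is not
identically zero, and the smooth divisor `{ℓ = 0}` in its source, `ℓ` a nonzero linear form.
(Ramified germs `g` are allowed; they give the multiples of the valuations of prime divisors.) -/
structure DivisorOver (n : ℕ) (U : Type*) [TopologicalSpace U] [ChartedSpace (Fin n → ℂ) U] where
  /-- the germ -/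
  g : (Fin n → ℂ) → U
  /-- the equation of the divisor -/
  ℓ : (Fin n → ℂ) →L[ℂ] ℂ
  holomorphic : ContMDiffAt 𝓘(ℂ, Fin n → ℂ) 𝓘(ℂ, Fin n → ℂ) ω g 0
  ne_zero : ℓ ≠ 0
  jac_ne_zero : ¬ (jac g =ᶠ[𝓝 0] 0)

section Divisors

variable {n : ℕ} {U : Type*} [TopologicalSpace U] [ChartedSpace (Fin n → ℂ) U]

/-- The log discrepancy of a divisor over `U`: one plus the order of vanishing of the Jacobian
determinant of `g` along `{ℓ = 0}`, that is the least `a` such that `ℓ ^ a` does not divide it. -/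
noncomputable def DivisorOver.logDiscrepancy (D : DivisorOver n U) : ℕ :=
  sInf {a : ℕ | ¬ (jac D.g =O[𝓝 0] fun y => D.ℓ y ^ a)}

/-- The sections of the `m`-th power of the anticanonical bundle that vanish to order at least `k`
along the divisor `D` over `U`. -/
def DivisorOver.sub (D : DivisorOver n U) (m k : ℕ) : Submodule ℂ (antiSections n U m) where
  carrier := {s | along D.g s =O[𝓝 0] fun y => D.ℓ y ^ k}
  add_mem' := by
    intro s t hs ht
    exact hs.add ht
  zero_mem' := isBigO_zero _ _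
  smul_mem' := by
    intro c s hs
    exact hs.const_mul_left c

/-- `vol(-K_U - tD)`. -/
noncomputable def DivisorOver.volume (D : DivisorOver n U) (t : ℝ) : ℝ≥0∞ :=
  limsup (fun m : ℕ => (n ! : ℝ≥0∞) * (Module.finrank ℂ (D.sub m ⌈m * t⌉₊) : ℝ≥0∞) /
    (m : ℝ≥0∞) ^ n) atTop

variable (n U) in
/-- K-semistability in the form of Fujita and Li: `β(D) ≥ 0`, that is
`∫₀^∞ vol(-K_U - tD) dt ≤ A(D) vol(-K_U)`, for every prime divisor `D` over `U`. -/
def IsKSemistable : Prop :=
  ∀ D : DivisorOver n U,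
    ∫⁻ t in Ioi (0 : ℝ), D.volume t ≤ D.logDiscrepancy * antiVolume n U

end Divisors

/-- Coordinates near the zero section of the normal bundle of a standard rational curve. -/
abbrev Tube (p c : ℕ) : Type := ℂ × (Fin p → ℂ) × (Fin c → ℂ)

/-- A standard rational curve `f : ℙ¹ → U`, that is an immersion with
`f^*T_U = O(2) ⊕ O(1)^p ⊕ O^c` (so its anticanonical degree is `p + 2`), given by two tubular charts:
local biholomorphisms `Φ₀, Φ₁` from neighbourhoods of the zero section `ℂ × 0 × 0` to `U`, with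
`f(z) = Φ₀(z, 0, 0) = Φ₁(1/z, 0, 0)`, such that the derivative of the change of charts
`θ = Φ₁⁻¹ ∘ Φ₀` at `(z, 0, 0)` is the transition function
`diag(-1/z², 1/z, …, 1/z, 1, …, 1)` of `O(2) ⊕ O(1)^p ⊕ O^c`. -/
structure StandardCurve (n : ℕ) (U : Type*) [TopologicalSpace U] [ChartedSpace (Fin n → ℂ) U]
    (p c : ℕ) where
  /-- the tubular chart over `ℙ¹ ∖ {∞}` -/
  Φ₀ : Tube p c → U
  /-- the tubular chart over `ℙ¹ ∖ {0}` -/
  Φ₁ : Tube p c → U
  bihol₀ : ∀ z : ℂ, IsLocalDiffeomorphAt 𝓘(ℂ, Tube p c) 𝓘(ℂ, Fin n → ℂ) ω Φ₀ (z, 0, 0)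
  bihol₁ : ∀ z : ℂ, IsLocalDiffeomorphAt 𝓘(ℂ, Tube p c) 𝓘(ℂ, Fin n → ℂ) ω Φ₁ (z, 0, 0)
  glue : ∀ z : ℂ, z ≠ 0 → ∃ θ : Tube p c → Tube p c, AnalyticAt ℂ θ (z, 0, 0) ∧
    θ (z, 0, 0) = (z⁻¹, 0, 0) ∧ Φ₀ =ᶠ[𝓝 (z, 0, 0)] Φ₁ ∘ θ ∧
    ∀ a v w, fderiv ℂ θ (z, 0, 0) (a, v, w) = (-(z ^ 2)⁻¹ * a, z⁻¹ • v, w)

section Families

variable (n : ℕ) (U : Type*) [TopologicalSpace U] [ChartedSpace (Fin n → ℂ) U]

/-- The tangent vectors at `x`, in the chart of `U` at `x`, of the standard rational curves of degree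
at most `n` through `x`. -/
def directions (x : U) : Set (Fin n → ℂ) :=
  {y | ∃ p c : ℕ, p + 2 ≤ n ∧ ∃ C : StandardCurve n U p c, C.Φ₀ 0 = x ∧
    fderiv ℂ (fun q => chartAt (Fin n → ℂ) x (C.Φ₀ q)) 0 (1, 0, 0) = y}

/-- There is a point of `U` at which the tangent directions of the standard rational curves of degree
at most `n` are not contained in a proper subvariety of the hypersurface `{F = 0}` of `ℙⁿ⁻¹`,
where `F` is a squarefree form of degree at least `2`. -/
def HasHypersurfaceOfCurves : Prop :=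
  ∃ (x : U) (d : ℕ) (F : MvPolynomial (Fin n) ℂ), 2 ≤ d ∧ F.IsHomogeneous d ∧ Squarefree F ∧
    ∀ G : MvPolynomial (Fin n) ℂ, (∀ y ∈ directions n U x, MvPolynomial.eval y G = 0) → F ∣ G

/-- There is a smooth hypersurface germ `V = {h (0, y)}` in `U` such that the tangent directions of the
standard rational curves of degree at most `n` which pass through the point `h 0` and lie in `V` near
this point are Zariski dense in the tangent space of `V` at this point. -/
def HasHypersurfaceFilledByCurves : Prop :=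
  ∃ (q : ℕ) (h : ℂ × (Fin q → ℂ) → U),
    IsLocalDiffeomorphAt 𝓘(ℂ, ℂ × (Fin q → ℂ)) 𝓘(ℂ, Fin n → ℂ) ω h 0 ∧
    ∀ G : MvPolynomial (Fin q) ℂ,
      (∀ (p c : ℕ) (C : StandardCurve n U p c) (γ : ℂ → Fin q → ℂ), p + 2 ≤ n →
        AnalyticAt ℂ γ 0 → γ 0 = 0 → (∀ᶠ z in 𝓝 (0 : ℂ), C.Φ₀ (z, 0, 0) = h (0, γ z)) →
        MvPolynomial.eval (deriv γ 0) G = 0) → G = 0

end Families

end Pool.Agent.Lib.H88V
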