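import Pool.Agent.Lib.H88V.B1
import Pool.Agent.Lib.H88V.B2

/-!
# Project H88V, chunk H1: homogeneous parts of analytic functions
-/

open scoped Topology Nat
open Filter Asymptotics Set

namespace Pool.Agent.Lib.H88V

/-- The homogeneous part of degree `k` of `f` at `0`. -/
noncomputable def hom {X : Type*} [AddCommGroup X] [Module ℂ X] (k : ℕ) (f : X → ℂ) (x : X) : ℂ :=
  ((k ! : ℕ) : ℂ)⁻¹ * iteratedDeriv k (fun ζ : ℂ => f (ζ • x)) 0

/-- Proof. `f` has a power series `P` at `0`, and `ζ ↦ f (ζ x)` has the power series with `k`-th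
coefficient `P k (fun _ => x)` (composition with the linear map `ζ ↦ ζ x`, or
`HasFPowerSeriesAt.isBigO_sub_partialSum_pow` and `iteratedDeriv_eq_zero_of_isBigO`). So
`hom k f x = P k (fun _ => x)`. Expand `x = ∑ x i • Pi.single i 1` (`ContinuousMultilinearMap.map_sum`,
`map_smul_univ`): `hom k f x = ∑_{s : Fin k → Fin q} (∏ t, x (s t)) P k (fun t => Pi.single (s t) 1)`,
the value at `x` of the homogeneous polynomial `∑_s C (P k …) * ∏ t, X (s t)`. -/
theorem exists_mvPolynomial {q : ℕ} (k : ℕ) (f : (Fin q → ℂ) → ℂ) (hf : AnalyticAt ℂ f 0) :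
    ∃ P : MvPolynomial (Fin q) ℂ, P.IsHomogeneous k ∧ ∀ x, MvPolynomial.eval x P = hom k f x := by
  sorry

/-- Proof. With the power series `P` of `f`: `hom j f x = P j (fun _ => x)` (as before), so the partial sum of
order `K` vanishes at every `x` and `f x = O(‖x‖^K)` (`HasFPowerSeriesAt.isBigO_sub_partialSum_pow`). -/
theorem isBigO_of_hom {X : Type*} [NormedAddCommGroup X] [NormedSpace ℂ X] (f : X → ℂ)
    (hf : AnalyticAt ℂ f 0) (K : ℕ) (h : ∀ j < K, ∀ x, hom j f x = 0) :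
    f =O[𝓝 0] fun x => ‖x‖ ^ K := by
  sorry

/-- Proof. For fixed `x`, `f (ζ x) = O(ζ^K)`; `iteratedDeriv_eq_zero_of_isBigO`. -/
theorem hom_eq_zero {X : Type*} [NormedAddCommGroup X] [NormedSpace ℂ X] (f : X → ℂ)
    (hf : AnalyticAt ℂ f 0) (K : ℕ) (h : f =O[𝓝 0] fun x => ‖x‖ ^ K) :
    ∀ j < K, ∀ x, hom j f x = 0 := by
  sorry

/-- Proof. `f y = hom k f y + O(‖y‖^(k+1))` by the power series; put `y = ζ x`: `hom k f (ζ x) =
ζ^k hom k f x`, and `hom k f` is continuous. -/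
theorem tendsto_hom {X α : Type*} [NormedAddCommGroup X] [NormedSpace ℂ X] (f : X → ℂ)
    (hf : AnalyticAt ℂ f 0) (k : ℕ) (h : f =O[𝓝 0] fun x => ‖x‖ ^ k) (l : Filter α) (ζ : α → ℂ)
    (x : α → X) (x₀ : X) (hζ : Tendsto ζ l (𝓝 0)) (hζ0 : ∀ᶠ i in l, ζ i ≠ 0)
    (hx : Tendsto x l (𝓝 x₀)) :
    Tendsto (fun i => (ζ i ^ k)⁻¹ * f (ζ i • x i)) l (𝓝 (hom k f x₀)) := by
  sorry

/-- Proof. `iteratedDeriv_add`, `iteratedDeriv_const_mul`. -/
theorem hom_add {X : Type*} [NormedAddCommGroup X] [NormedSpace ℂ X] (k : ℕ) (f g : X → ℂ)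
    (hf : AnalyticAt ℂ f 0) (hg : AnalyticAt ℂ g 0) (x : X) :
    hom k (fun y => f y + g y) x = hom k f x + hom k g x := by
  sorry

theorem hom_smul {X : Type*} [NormedAddCommGroup X] [NormedSpace ℂ X] (k : ℕ) (r : ℂ) (f : X → ℂ)
    (hf : AnalyticAt ℂ f 0) (x : X) : hom k (fun y => r * f y) x = r * hom k f x := by
  sorry

end Pool.Agent.Lib.H88V
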