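import Pool.Agent.Lib.H88V.A4
import Pool.Agent.Lib.H88V.H1

/-!
# Project H88V, chunk E1: sections near a point
-/

open scoped Manifold ContDiff Topology Nat
open Filter Asymptotics Set

namespace Pool.Agent.Lib.H88V

variable {n : ℕ} {U : Type*} [TopologicalSpace U] [ChartedSpace (Fin n → ℂ) U]

/-- The coefficient function of a section near `x`, in the chart at `x` centred at `x`. -/
noncomputable def loc (x : U) {m : ℕ} (s : antiSections n U m) (y : Fin n → ℂ) : ℂ :=
  s.1 ⟨chartAt (Fin n → ℂ) x, chart_mem_atlas _ _⟩ (chartAt (Fin n → ℂ) x x + y)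

/-- The inverse of the chart at `x`, centred at `x`. -/
noncomputable def pt (x : U) (y : Fin n → ℂ) : U :=
  (chartAt (Fin n → ℂ) x).symm (chartAt (Fin n → ℂ) x x + y)

theorem loc_add (x : U) {m : ℕ} (s t : antiSections n U m) (y : Fin n → ℂ) :
    loc x (s + t) y = loc x s y + loc x t y := by
  rfl

theorem loc_smul (x : U) {m : ℕ} (r : ℂ) (s : antiSections n U m) (y : Fin n → ℂ) :
    loc x (r • s) y = r * loc x s y := by
  rfl

/-- Proof. `s e` is analytic on the target. -/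
theorem loc_analyticAt (x : U) {m : ℕ} (s : antiSections n U m) : AnalyticAt ℂ (loc x s) 0 := by
  have h : AnalyticAt ℂ (s.1 ⟨chartAt (Fin n → ℂ) x, chart_mem_atlas _ _⟩)
      (chartAt (Fin n → ℂ) x x + (0 : Fin n → ℂ)) := by
    refine s.2.1 ⟨chartAt (Fin n → ℂ) x, chart_mem_atlas _ _⟩ _ ?_
    rw [add_zero]
    exact mem_chart_target _ x
  exact h.fun_comp (analyticAt_const.add analyticAt_id)

variable [IsManifold 𝓘(ℂ, Fin n → ℂ) ω U]

theorem e1_aux (x : U) (y : Fin n → ℂ)
    (hy : chartAt (Fin n → ℂ) x x + y ∈ (chartAt (Fin n → ℂ) x).target) :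
    IsLocalDiffeomorphAt 𝓘(ℂ, Fin n → ℂ) 𝓘(ℂ, Fin n → ℂ) ω (pt (n := n) x) y := by
  refine ⟨{ toFun := pt x
            invFun := fun u => chartAt (Fin n → ℂ) x u - chartAt (Fin n → ℂ) x x
            source := {y | chartAt (Fin n → ℂ) x x + y ∈ (chartAt (Fin n → ℂ) x).target}
            target := (chartAt (Fin n → ℂ) x).source
            map_source' := ?_
            map_target' := ?_
            left_inv' := ?_
            right_inv' := ?_
            open_source := ?_
            open_target := (chartAt (Fin n → ℂ) x).open_source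
            contMDiffOn_toFun := ?_
            contMDiffOn_invFun := ?_ }, hy, fun y _ => rfl⟩
  · intro z hz
    exact (chartAt (Fin n → ℂ) x).map_target hz
  · intro u hu
    show chartAt (Fin n → ℂ) x x + (chartAt (Fin n → ℂ) x u - chartAt (Fin n → ℂ) x x) ∈
      (chartAt (Fin n → ℂ) x).target
    rw [add_sub_cancel]
    exact (chartAt (Fin n → ℂ) x).map_source hu
  · intro z hz
    show chartAt (Fin n → ℂ) x ((chartAt (Fin n → ℂ) x).symm (chartAt (Fin n → ℂ) x x + z)) -
      chartAt (Fin n → ℂ) x x = z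
    rw [(chartAt (Fin n → ℂ) x).right_inv hz, add_sub_cancel_left]
  · intro u hu
    show (chartAt (Fin n → ℂ) x).symm
      (chartAt (Fin n → ℂ) x x + (chartAt (Fin n → ℂ) x u - chartAt (Fin n → ℂ) x x)) = u
    rw [add_sub_cancel, (chartAt (Fin n → ℂ) x).left_inv hu]
  · exact (chartAt (Fin n → ℂ) x).open_target.preimage (continuous_const.add continuous_id)
  · have h1 : ContMDiffOn 𝓘(ℂ, Fin n → ℂ) 𝓘(ℂ, Fin n → ℂ) ω (chartAt (Fin n → ℂ) x).symm
        (chartAt (Fin n → ℂ) x).target := contMDiffOn_chart_symm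
    have h2 : ContMDiff 𝓘(ℂ, Fin n → ℂ) 𝓘(ℂ, Fin n → ℂ) ω
        (fun y : Fin n → ℂ => chartAt (Fin n → ℂ) x x + y) :=
      (contDiff_const.add contDiff_id).contMDiff
    exact h1.comp h2.contMDiffOn fun z hz => hz
  · have h1 : ContMDiffOn 𝓘(ℂ, Fin n → ℂ) 𝓘(ℂ, Fin n → ℂ) ω (chartAt (Fin n → ℂ) x)
        (chartAt (Fin n → ℂ) x).source := contMDiffOn_chart
    have h2 : ContMDiff 𝓘(ℂ, Fin n → ℂ) 𝓘(ℂ, Fin n → ℂ) ω
        (fun y : Fin n → ℂ => y - chartAt (Fin n → ℂ) x x) :=
      (contDiff_id.sub contDiff_const).contMDiff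
    exact h2.comp_contMDiffOn h1

/-- Proof. The partial diffeomorphism is built from `(chartAt x).symm` (smooth on the target,
`contMDiffOn_chart_symm`) and the translation by `chartAt x x`. -/
theorem pt_localDiffeo (x : U) :
    IsLocalDiffeomorphAt 𝓘(ℂ, Fin n → ℂ) 𝓘(ℂ, Fin n → ℂ) ω (pt (n := n) x) 0 := by
  refine e1_aux x 0 ?_
  rw [add_zero]
  exact mem_chart_target _ x

/-- Proof. `pull_eq` with the chart `chartAt x`: for `y` near `0`, `chartAt x (pt x y') = chartAt x x + y'` for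
`y'` near `y`, with derivative the identity, determinant `1`. -/
theorem pull_pt (x : U) {m : ℕ} (s : antiSections n U m) :
    ∀ᶠ y in 𝓝 (0 : Fin n → ℂ),
      pull (ContinuousLinearEquiv.refl ℂ (Fin n → ℂ)) (pt (n := n) x) s y = loc x s y := by
  have hopen : IsOpen {y : Fin n → ℂ |
      chartAt (Fin n → ℂ) x x + y ∈ (chartAt (Fin n → ℂ) x).target} :=
    (chartAt (Fin n → ℂ) x).open_target.preimage (continuous_const.add continuous_id)
  have h0 : (0 : Fin n → ℂ) ∈ {y : Fin n → ℂ |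
      chartAt (Fin n → ℂ) x x + y ∈ (chartAt (Fin n → ℂ) x).target} := by
    show chartAt (Fin n → ℂ) x x + 0 ∈ (chartAt (Fin n → ℂ) x).target
    rw [add_zero]
    exact mem_chart_target _ x
  filter_upwards [hopen.mem_nhds h0] with y hy
  have hy' : chartAt (Fin n → ℂ) x x + y ∈ (chartAt (Fin n → ℂ) x).target := hy
  have h1 := pull_eq (ContinuousLinearEquiv.refl ℂ (Fin n → ℂ)) (pt (n := n) x) y
    (e1_aux x y hy') ⟨chartAt (Fin n → ℂ) x, chart_mem_atlas _ _⟩
    ((chartAt (Fin n → ℂ) x).map_target hy') s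
  have h2 : (fun q => chartAt (Fin n → ℂ) x (pt (n := n) x q)) =ᶠ[𝓝 y]
      fun q => chartAt (Fin n → ℂ) x x + q := by
    filter_upwards [hopen.mem_nhds hy] with q hq
    exact (chartAt (Fin n → ℂ) x).right_inv hq
  have h3 : fderiv ℂ (fun q => chartAt (Fin n → ℂ) x (pt (n := n) x q)) y =
      ContinuousLinearMap.id ℂ (Fin n → ℂ) := by
    rw [h2.fderiv_eq]
    exact ((hasFDerivAt_id y).const_add _).fderiv
  have h4 : chartAt (Fin n → ℂ) x (pt (n := n) x y) = chartAt (Fin n → ℂ) x x + y :=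
    (chartAt (Fin n → ℂ) x).right_inv hy'
  rw [h1, h3]
  simp only [h4]
  have h5 : ((ContinuousLinearMap.id ℂ (Fin n → ℂ)) ∘L
      ((ContinuousLinearEquiv.refl ℂ (Fin n → ℂ)).symm : (Fin n → ℂ) →L[ℂ] (Fin n → ℂ))).det =
      1 := by
    have : ((ContinuousLinearMap.id ℂ (Fin n → ℂ)) ∘L
      ((ContinuousLinearEquiv.refl ℂ (Fin n → ℂ)).symm : (Fin n → ℂ) →L[ℂ] (Fin n → ℂ))) =
        ContinuousLinearMap.id ℂ (Fin n → ℂ) := by
      ext; simp
    rw [this]
    exact LinearMap.det_id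
  rw [h5, one_pow, inv_one, one_mul]
  rfl

end Pool.Agent.Lib.H88V
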