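import Pool.Agent.Lib.H88V.E1

/-!
# Project H88V, chunk E1B: the blow-up of a point
-/

open scoped Manifold ContDiff Topology Nat
open Filter Asymptotics Set

namespace Pool.Agent.Lib.H88V

variable {n : ℕ} {U : Type*} [TopologicalSpace U] [ChartedSpace (Fin n → ℂ) U]
  [IsManifold 𝓘(ℂ, Fin n → ℂ) ω U]

/-- The divisor of the blow-up of the point `x`. Proof. `exists_divisor` with `L = refl`, `Φ = pt x`,
`G y = y i₀ • Function.update y i₀ 1`, `ℓ y = y i₀`, `a = n`. At `y = t e_{i₀}` the derivative of `G` is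
diagonal: the component `i₀` of `G` is `y i₀`, the component `i ≠ i₀` is `y i₀ * y i`; so the determinant is
`t^(n-1)`, not `O(t^n)`. If `loc x s = O(‖y‖^K)` then `pull … (G y) = loc x s (G y) = O(‖G y‖^K) = O((y i₀)^K)`
by `pull_pt`; use `mem_sub_of_isBigO`. -/
theorem exists_divisor_point (i₀ : Fin n) (x : U) :
    ∃ D : DivisorOver n U, D.logDiscrepancy ≤ n ∧
      ∀ (m K : ℕ) (s : antiSections n U m), (loc x s =O[𝓝 0] fun y => ‖y‖ ^ K) → s ∈ D.sub m K := by
  sorry

end Pool.Agent.Lib.H88V
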