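import Pool.Agent.Lib.H88V.A5
import Pool.Agent.Lib.H88V.B5
import Pool.Agent.Lib.H88V.E1
import Pool.Agent.Lib.H88V.H1

/-!
# Project H88V, chunk E2: sections with a high order at a point of a curve
-/

open scoped Manifold ContDiff Topology Nat
open Filter Asymptotics Set

namespace Pool.Agent.Lib.H88V

namespace E2

/-- A ball on which `τ` is analytic and bounded as required. -/
theorem exists_ball {p c : ℕ} (τ : Tube p c → ℂ) (hτ : AnalyticAt ℂ τ 0) (k : ℕ)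
    (hO : τ =O[𝓝 0] fun q => ‖q‖ ^ k) :
    ∃ C r : ℝ, 0 ≤ C ∧ 0 < r ∧ ∀ q : Tube p c, ‖q‖ < r → AnalyticAt ℂ τ q ∧ ‖τ q‖ ≤ C * ‖q‖ ^ k := by
  obtain ⟨C, hC0, hC⟩ := hO.exists_pos
  have h1 : ∀ᶠ q in 𝓝 (0 : Tube p c), AnalyticAt ℂ τ q ∧ ‖τ q‖ ≤ C * ‖q‖ ^ k := by
    filter_upwards [hτ.eventually_analyticAt, hC.bound] with q h2 h3
    refine ⟨h2, h3.trans (le_of_eq ?_)⟩
    rw [norm_pow, norm_norm]
  obtain ⟨r, hr, h4⟩ := Metric.eventually_nhds_iff.mp h1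
  refine ⟨C, r, hC0.le, hr, fun q hq => h4 ?_⟩
  rwa [dist_zero_right]

theorem norm_le {p c : ℕ} (z ζ : ℂ) (v : Fin p → ℂ) (w : Fin c → ℂ) {R : ℝ} (hz : ‖z‖ ≤ R)
    (hζ : ‖ζ‖ ≤ R) : ‖((z, ζ • v, ζ • w) : Tube p c)‖ ≤ R * (1 + ‖v‖ + ‖w‖) := by
  have hR : 0 ≤ R := (norm_nonneg z).trans hz
  have h1 : ‖ζ‖ * ‖v‖ ≤ R * ‖v‖ := mul_le_mul_of_nonneg_right hζ (norm_nonneg _)
  have h2 : ‖ζ‖ * ‖w‖ ≤ R * ‖w‖ := mul_le_mul_of_nonneg_right hζ (norm_nonneg _)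
  have h3 : 0 ≤ R * ‖v‖ := mul_nonneg hR (norm_nonneg _)
  have h4 : 0 ≤ R * ‖w‖ := mul_nonneg hR (norm_nonneg _)
  rw [norm_prod_le_iff, norm_prod_le_iff]
  refine ⟨by simp only; nlinarith, ?_, ?_⟩
  · simp only [norm_smul]
    nlinarith
  · simp only [norm_smul]
    nlinarith

/-- The line in the direction `(v, w)` through `(z, 0, 0)` is analytic. -/
theorem line_analyticAt {p c : ℕ} (z ζ : ℂ) (v : Fin p → ℂ) (w : Fin c → ℂ) :
    AnalyticAt ℂ (fun ζ : ℂ => ((z, ζ • v, ζ • w) : Tube p c)) ζ := by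
  refine analyticAt_const.prod ?_
  exact (analyticAt_id.smul analyticAt_const).prod (analyticAt_id.smul analyticAt_const)

theorem cauchy {p c : ℕ} (τ : Tube p c → ℂ) (k : ℕ) {C r : ℝ} (hC : 0 ≤ C)
    (h : ∀ q : Tube p c, ‖q‖ < r → AnalyticAt ℂ τ q ∧ ‖τ q‖ ≤ C * ‖q‖ ^ k) (j : ℕ) (z : ℂ)
    (v : Fin p → ℂ) (w : Fin c → ℂ) {R : ℝ} (hR : 0 < R) (hz : ‖z‖ ≤ R)
    (hRr : R * (1 + ‖v‖ + ‖w‖) < r) :
    ‖coef 1 1 j τ (z, v, w)‖ ≤ C * (R * (1 + ‖v‖ + ‖w‖)) ^ k / R ^ j := by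
  set g : ℂ → ℂ := fun ζ => τ (z, ζ • v, ζ • w) with hg
  have hcoef : coef 1 1 j τ (z, v, w) = ((j ! : ℕ) : ℂ)⁻¹ * iteratedDeriv j g 0 := by
    unfold coef
    simp only [pow_one]
    rfl
  have han : ∀ ζ : ℂ, ‖ζ‖ ≤ R → AnalyticAt ℂ g ζ := by
    intro ζ hζ
    have h1 := h _ ((norm_le z ζ v w hz hζ).trans_lt hRr)
    exact AnalyticAt.comp (g := τ) (f := fun ζ : ℂ => ((z, ζ • v, ζ • w) : Tube p c)) h1.1
      (line_analyticAt z ζ v w)
  have hd : DiffContOnCl ℂ g (Metric.ball 0 R) := by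
    refine DifferentiableOn.diffContOnCl fun ζ hζ => ?_
    rw [closure_ball _ hR.ne', mem_closedBall_zero_iff] at hζ
    exact (han ζ hζ).differentiableAt.differentiableWithinAt
  have hb : ∀ ζ ∈ Metric.sphere (0 : ℂ) R, ‖g ζ‖ ≤ C * (R * (1 + ‖v‖ + ‖w‖)) ^ k := by
    intro ζ hζ
    rw [mem_sphere_zero_iff_norm] at hζ
    have h1 := norm_le z ζ v w hz hζ.le
    refine (h _ (h1.trans_lt hRr)).2.trans ?_
    exact mul_le_mul_of_nonneg_left (pow_le_pow_left₀ (norm_nonneg _) h1 k) hC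
  have h2 := Complex.norm_iteratedDeriv_le_of_forall_mem_sphere_norm_le j hR hd hb
  have hj : (0 : ℝ) < (j ! : ℕ) := by exact_mod_cast Nat.factorial_pos j
  rw [hcoef, norm_mul, norm_inv, Complex.norm_natCast, inv_mul_le_iff₀ hj]
  refine h2.trans (le_of_eq ?_)
  ring

end E2

/-- Proof. Cauchy estimate for `ζ ↦ τ (z, ζ v, ζ w)` on the circle of radius `‖z‖ ≠ 0`
(`Complex.norm_iteratedDeriv_le_of_forall_mem_sphere_norm_le`; for `z` small the function is analytic on the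
disc): `‖τ (z, ζ v, ζ w)‖ ≤ C (‖z‖ (1 + ‖v‖ + ‖w‖))^k`, so `‖coef 1 1 j τ (z, v, w)‖ ≤ C' ‖z‖^(k-j)`. At
`z = 0`: `τ (0, ζ v, ζ w) = O(ζ^k)`, so the coefficient vanishes for `j < k`
(`iteratedDeriv_eq_zero_of_isBigO`); for `j = k` there is nothing to prove (continuity of `coef`). -/
theorem coef_isBigO {p c : ℕ} (τ : Tube p c → ℂ) (hτ : AnalyticAt ℂ τ 0) (k : ℕ)
    (hO : τ =O[𝓝 0] fun q => ‖q‖ ^ k) (j : ℕ) (hj : j ≤ k) (v : Fin p → ℂ) (w : Fin c → ℂ) :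
    (fun z : ℂ => coef 1 1 j τ (z, v, w)) =O[𝓝 0] fun z => z ^ (k - j) := by
  obtain ⟨C, r, hC, hr, h⟩ := E2.exists_ball τ hτ k hO
  set M : ℝ := 1 + ‖v‖ + ‖w‖ with hM
  have hM1 : 1 ≤ M := by
    have := norm_nonneg v
    have := norm_nonneg w
    linarith
  have hM0 : 0 < M := by linarith
  refine IsBigO.of_bound (C * M ^ k) ?_
  have hev : ∀ᶠ z in 𝓝 (0 : ℂ), ‖z‖ * M < r := by
    have h1 : Tendsto (fun z : ℂ => ‖z‖ * M) (𝓝 0) (𝓝 (‖(0 : ℂ)‖ * M)) :=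
      (continuous_norm.tendsto 0).mul_const M
    rw [norm_zero, zero_mul] at h1
    exact h1.eventually (gt_mem_nhds hr)
  filter_upwards [hev] with z hz
  rw [norm_pow]
  rcases eq_or_ne z 0 with rfl | hz0
  · rcases Nat.lt_or_ge j k with hjk | hjk
    · -- the coefficient vanishes
      have h2 : coef 1 1 j τ (0, v, w) = 0 := by
        set g : ℂ → ℂ := fun ζ => τ (0, ζ • v, ζ • w) with hg
        have hcoef : coef 1 1 j τ (0, v, w) = ((j ! : ℕ) : ℂ)⁻¹ * iteratedDeriv j g 0 := by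
          unfold coef
          simp only [pow_one]
          rfl
        have hg0 : AnalyticAt ℂ g 0 := by
          have h3 : AnalyticAt ℂ τ ((0 : ℂ), (0 : ℂ) • v, (0 : ℂ) • w) := by
            rw [zero_smul, zero_smul]
            exact hτ
          exact AnalyticAt.comp (g := τ) (f := fun ζ : ℂ => ((0, ζ • v, ζ • w) : Tube p c)) h3
            (E2.line_analyticAt 0 0 v w)
        have hgO : g =O[𝓝 0] fun ζ => ζ ^ k := by
          refine IsBigO.of_bound (C * M ^ k) ?_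
          filter_upwards [hev] with ζ hζ
          have h4 := E2.norm_le (0 : ℂ) ζ v w (R := ‖ζ‖) (by rw [norm_zero]; exact norm_nonneg _) le_rfl
          refine (h _ (h4.trans_lt hζ)).2.trans ?_
          rw [norm_pow]
          calc C * ‖((0, ζ • v, ζ • w) : Tube p c)‖ ^ k ≤ C * (‖ζ‖ * M) ^ k :=
                mul_le_mul_of_nonneg_left (pow_le_pow_left₀ (norm_nonneg _) h4 k) hC
            _ = C * M ^ k * ‖ζ‖ ^ k := by rw [mul_pow]; ring
        rw [hcoef, iteratedDeriv_eq_zero_of_isBigO g hg0 k hgO j hjk, mul_zero]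
      rw [h2, norm_zero]
      positivity
    · obtain rfl : j = k := le_antisymm hj hjk
      rw [Nat.sub_self, pow_zero, mul_one]
      have hR : 0 < r / (2 * M) := by positivity
      have h5 : r / (2 * M) * M < r := by
        have : r / (2 * M) * M = r / 2 := by field_simp
        rw [this]
        linarith
      have h6 := E2.cauchy τ j hC h j (0 : ℂ) v w hR (by rw [norm_zero]; exact hR.le) h5
      rw [← hM] at h6
      refine h6.trans (le_of_eq ?_)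
      rw [mul_pow]
      field_simp
  · have hz1 : 0 < ‖z‖ := norm_pos_iff.mpr hz0
    have h6 := E2.cauchy τ k hC h j z v w hz1 le_rfl hz
    rw [← hM] at h6
    refine h6.trans (le_of_eq ?_)
    have h7 : ‖z‖ ^ k = ‖z‖ ^ (k - j) * ‖z‖ ^ j := by rw [← pow_add, Nat.sub_add_cancel hj]
    rw [mul_pow, h7]
    field_simp

/-- Proof. Strong induction on `j`: `u z = coef 1 1 j τ (z, v, w)` is entire (`coef_analyticAt`), its
derivatives of order `> N` vanish (`Glued.degree_zero`), and `u = O(z^(k-j))` with `k - j > N`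
(`coef_isBigO`). Apply `eq_zero_of_order_of_degree`. -/
theorem coef_eq_zero_of_order {p c N : ℕ} {τ τ₁ : Tube p c → ℂ} (hg : Glued N τ τ₁) (k : ℕ)
    (hO : τ =O[𝓝 0] fun q => ‖q‖ ^ k) : ∀ j, j + N < k → ∀ x, coef 1 1 j τ x = 0 := by
  intro j
  induction j using Nat.strong_induction_on with
  | _ j ih =>
    intro hj x
    obtain ⟨z, v, w⟩ := x
    have h0 : ∀ i < j, ∀ x, coef 1 1 i τ x = 0 := fun i hi => ih i hi (by omega)
    have hu : ∀ z, AnalyticAt ℂ (fun z : ℂ => coef 1 1 j τ (z, v, w)) z := by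
      intro z
      have h1 := coef_analyticAt 1 1 j le_rfl le_rfl τ ((z, v, w) : Tube p c) (hg.an₀ z)
      have h2 : AnalyticAt ℂ (fun z : ℂ => ((z, v, w) : Tube p c)) z :=
        analyticAt_id.prod analyticAt_const
      exact AnalyticAt.comp (g := coef 1 1 j τ) (f := fun z : ℂ => ((z, v, w) : Tube p c)) h1 h2
    exact eq_zero_of_order_of_degree _ hu N (k - j)
      (fun i hi => hg.degree_zero 1 1 j le_rfl le_rfl (by norm_num) h0 v w i hi) (by omega)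
      (coef_isBigO τ (hg.an₀ 0) k hO j (by omega) v w) z

/-- Proof. `h (t, ε) = τ (t, (t ε) v, (t ε) w)` is analytic near `(0,0)` and `‖h (t, ε)‖ ≤ C ‖t‖^k` for
`‖t‖, ‖ε‖ ≤ ρ`. For fixed `t`, the derivatives of `ε ↦ h (t, ε)` at `0` of order `j < k'` are
`t^j j! coef 1 1 j τ (t, v, w) = 0` (`iteratedDeriv_comp_const_mul`-type lemma, `h (t, ε) = g (t ε)` with
`g ζ = τ (t, ζ v, ζ w)`). Apply `schwarz_pow`. -/
theorem tube_bound {p c : ℕ} (τ : Tube p c → ℂ) (hτ : AnalyticAt ℂ τ 0) (k k' : ℕ)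
    (hO : τ =O[𝓝 0] fun q => ‖q‖ ^ k) (h0 : ∀ j < k', ∀ x, coef 1 1 j τ x = 0)
    (v : Fin p → ℂ) (w : Fin c → ℂ) :
    ∃ C ρ : ℝ, 0 < ρ ∧ ∀ t ε : ℂ, ‖t‖ ≤ ρ → ‖ε‖ ≤ ρ →
      ‖τ (t, (t * ε) • v, (t * ε) • w)‖ ≤ C * ‖t‖ ^ k * ‖ε‖ ^ k' := by
  obtain ⟨C, r, hC, hr, h⟩ := E2.exists_ball τ hτ k hO
  set M : ℝ := 1 + ‖v‖ + ‖w‖ with hM
  have hM1 : 1 ≤ M := by
    have := norm_nonneg v
    have := norm_nonneg w
    linarith
  have hM0 : 0 < M := by linarith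
  have hMk : 1 ≤ M ^ k := one_le_pow₀ hM1
  refine ⟨2 * (C * M ^ k), min (1 / 2) (r / (2 * M)), by positivity, fun t ε ht hε => ?_⟩
  have ht2 : ‖t‖ * M < r := by
    have h1 : ‖t‖ ≤ r / (2 * M) := ht.trans (min_le_right _ _)
    have h2 : r / (2 * M) * M = r / 2 := by field_simp
    nlinarith
  have hε2 : ‖ε‖ ≤ 1 / 2 := hε.trans (min_le_left _ _)
  rcases eq_or_ne t 0 with rfl | ht0
  · have h3 : τ ((0 : ℂ), ((0 : ℂ) * ε) • v, ((0 : ℂ) * ε) • w) = τ 0 := by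
      rw [zero_mul, zero_smul, zero_smul]
      rfl
    rw [h3, norm_zero]
    rcases Nat.eq_zero_or_pos k' with hk' | hk'
    · subst hk'
      rw [pow_zero, mul_one]
      have h4 := (h 0 (by rw [norm_zero]; exact hr)).2
      rw [norm_zero] at h4
      refine h4.trans ?_
      refine mul_le_mul_of_nonneg_right ?_ (by positivity)
      nlinarith
    · have h5 := h0 0 hk' 0
      have h6 : coef 1 1 0 τ (0 : Tube p c) = τ 0 := by
        unfold coef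
        rw [iteratedDeriv_zero]
        simp
        rfl
      rw [h6] at h5
      rw [h5, norm_zero]
      positivity
  · have ht1 : 0 < ‖t‖ := norm_pos_iff.mpr ht0
    set g : ℂ → ℂ := fun ζ => τ (t, ζ • v, ζ • w) with hg
    have han : ∀ ζ : ℂ, ‖ζ‖ ≤ ‖t‖ → AnalyticAt ℂ g ζ := by
      intro ζ hζ
      have h1 := h _ ((E2.norm_le t ζ v w le_rfl hζ).trans_lt ht2)
      exact AnalyticAt.comp (g := τ) (f := fun ζ : ℂ => ((t, ζ • v, ζ • w) : Tube p c)) h1.1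
        (E2.line_analyticAt t ζ v w)
    have hb : ∀ ζ : ℂ, ‖ζ‖ ≤ ‖t‖ → ‖g ζ‖ ≤ C * (‖t‖ * M) ^ k := by
      intro ζ hζ
      have h1 := E2.norm_le t ζ v w le_rfl hζ
      refine (h _ (h1.trans_lt ht2)).2.trans ?_
      exact mul_le_mul_of_nonneg_left (pow_le_pow_left₀ (norm_nonneg _) h1 k) hC
    have hd : ∀ j < k', iteratedDeriv j g 0 = 0 := by
      intro j hj
      have h1 := h0 j hj (t, v, w)
      unfold coef at h1
      simp only [pow_one] at h1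
      have hj' : ((j ! : ℕ) : ℂ)⁻¹ ≠ 0 := inv_ne_zero (by exact_mod_cast Nat.factorial_ne_zero j)
      exact (mul_eq_zero.mp h1).resolve_left hj'
    have hζ : ‖t * ε‖ ≤ ‖t‖ / 2 := by
      rw [norm_mul]
      nlinarith
    have h8 := schwarz_pow g ‖t‖ (C * (‖t‖ * M) ^ k) ht1 han hb k' hd (t * ε) hζ
    have h9 : ‖t * ε‖ / ‖t‖ = ‖ε‖ := by
      rw [norm_mul]
      field_simp
    rw [h9] at h8
    refine h8.trans (le_of_eq ?_)
    rw [mul_pow]
    ring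

end Pool.Agent.Lib.H88V
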