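import Pool.Agent.Lib.H88V.E2

/-!
# Project H88V, chunk E3: the leading form of a section vanishes along the tangents of the curves
-/

open scoped Manifold ContDiff Topology Nat
open Filter Asymptotics Set

namespace Pool.Agent.Lib.H88V

variable {n : ℕ} {U : Type*} [TopologicalSpace U] [ChartedSpace (Fin n → ℂ) U]
  [IsManifold 𝓘(ℂ, Fin n → ℂ) ω U]

/-- Proof. `pull_eq` with the chart `e = chartAt x`: near `0`,
`pull L Φ s q = (det(D(e ∘ Φ) q ∘ L.symm)^m)⁻¹ * loc x s (e (Φ q) - e x)`; take for `κ` the first factor,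
continuous and not zero at `0` (`chart_comp_fderiv`). -/
theorem pull_loc {F : Type*} [NormedAddCommGroup F] [NormedSpace ℂ F] (L : F ≃L[ℂ] (Fin n → ℂ))
    (Φ : F → U) (x : U) (hx : Φ 0 = x)
    (hΦ : IsLocalDiffeomorphAt 𝓘(ℂ, F) 𝓘(ℂ, Fin n → ℂ) ω Φ 0) {m : ℕ}
    (s : antiSections n U m) :
    ∃ κ : F → ℂ, ContinuousAt κ 0 ∧ κ 0 ≠ 0 ∧ ∀ᶠ q in 𝓝 (0 : F),
      pull L Φ s q = κ q * loc x s (chartAt (Fin n → ℂ) x (Φ q) - chartAt (Fin n → ℂ) x x) := by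
  classical
  obtain ⟨g, hg⟩ : ∃ g : F → Fin n → ℂ, g = fun q => chartAt (Fin n → ℂ) x (Φ q) := ⟨_, rfl⟩
  have hx' : Φ 0 ∈ (chartAt (Fin n → ℂ) x).source := by
    rw [hx]
    exact mem_chart_source _ _
  have hga : AnalyticAt ℂ g 0 := by
    rw [hg]
    exact chart_comp_analyticAt Φ 0 hΦ.contMDiffAt _ (chart_mem_atlas _ _) hx'
  have hcont : ContinuousAt Φ 0 := hΦ.contMDiffAt.continuousAt
  obtain ⟨A, hA⟩ := chart_comp_fderiv Φ 0 hΦ _ (chart_mem_atlas (Fin n → ℂ) x) hx'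
  rw [← hg] at hA
  have hdet0 : ((fderiv ℂ g 0) ∘L (L.symm : (Fin n → ℂ) →L[ℂ] F)).det ≠ 0 := by
    rw [hA]
    exact (LinearEquiv.isUnit_det' (L.symm.trans A).toLinearEquiv).ne_zero
  have hdetc : ContinuousAt
      (fun q => ((fderiv ℂ g q) ∘L (L.symm : (Fin n → ℂ) →L[ℂ] F)).det) 0 := by
    have h1 : ContinuousAt (fun q => (fderiv ℂ g q) ∘L (L.symm : (Fin n → ℂ) →L[ℂ] F)) 0 :=
      hga.fderiv.continuousAt.clm_comp continuousAt_const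
    exact ContinuousLinearMap.continuous_det.continuousAt.comp h1
  refine ⟨fun q => (((fderiv ℂ g q) ∘L (L.symm : (Fin n → ℂ) →L[ℂ] F)).det ^ m)⁻¹, ?_, ?_, ?_⟩
  · exact (hdetc.pow m).inv₀ (pow_ne_zero _ hdet0)
  · exact inv_ne_zero (pow_ne_zero _ hdet0)
  · have hev : ∀ᶠ q in 𝓝 (0 : F), Φ q ∈ (chartAt (Fin n → ℂ) x).source :=
      hcont.eventually ((chartAt (Fin n → ℂ) x).open_source.mem_nhds hx')
    filter_upwards [hev, eventually_localDiffeo Φ 0 hΦ] with q h1 h2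
    have h3 := pull_eq L Φ q h2 ⟨chartAt (Fin n → ℂ) x, chart_mem_atlas _ _⟩ h1 s
    rw [h3, hg]
    unfold loc
    rw [add_sub_cancel]

/-- Proof. `pull_loc`, and `chartAt x (Φ q) - chartAt x x = O(‖q‖)` (differentiable at `0`). -/
theorem pull_isBigO {F : Type*} [NormedAddCommGroup F] [NormedSpace ℂ F]
    (L : F ≃L[ℂ] (Fin n → ℂ)) (Φ : F → U) (x : U) (hx : Φ 0 = x)
    (hΦ : IsLocalDiffeomorphAt 𝓘(ℂ, F) 𝓘(ℂ, Fin n → ℂ) ω Φ 0) {m k : ℕ}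
    (s : antiSections n U m) (hs : loc x s =O[𝓝 0] fun y => ‖y‖ ^ k) :
    pull L Φ s =O[𝓝 0] fun q => ‖q‖ ^ k := by
  obtain ⟨κ, hκ, hκ0, hev⟩ := pull_loc L Φ x hx hΦ s
  obtain ⟨g, hg⟩ : ∃ g : F → Fin n → ℂ, g = fun q => chartAt (Fin n → ℂ) x (Φ q) := ⟨_, rfl⟩
  have hx' : Φ 0 ∈ (chartAt (Fin n → ℂ) x).source := by
    rw [hx]
    exact mem_chart_source _ _
  have hga : AnalyticAt ℂ g 0 := by
    rw [hg]
    exact chart_comp_analyticAt Φ 0 hΦ.contMDiffAt _ (chart_mem_atlas _ _) hx'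
  have hg0 : chartAt (Fin n → ℂ) x x = g 0 := by
    rw [hg]
    simp only [hx]
  have h1 : (fun q => g q - g 0) =O[𝓝 (0 : F)] fun q => q := by
    have h2 := hga.differentiableAt.isBigO_sub
    simpa using h2
  have h3 : Tendsto (fun q => g q - g 0) (𝓝 (0 : F)) (𝓝 0) := by
    have h4 : Tendsto (fun q => g q - g 0) (𝓝 (0 : F)) (𝓝 (g 0 - g 0)) :=
      hga.continuousAt.tendsto.sub tendsto_const_nhds
    rwa [sub_self] at h4
  have h5 : (fun q => loc x s (g q - g 0)) =O[𝓝 (0 : F)] fun q => ‖g q - g 0‖ ^ k :=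
    hs.comp_tendsto h3
  have h6 : (fun q => ‖g q - g 0‖ ^ k) =O[𝓝 (0 : F)] fun q => ‖q‖ ^ k := h1.norm_norm.pow k
  have h7 : κ =O[𝓝 (0 : F)] fun _ => (1 : ℝ) := hκ.tendsto.isBigO_one ℝ
  have h8 : (fun q => κ q * loc x s (g q - g 0)) =O[𝓝 (0 : F)] fun q => 1 * ‖q‖ ^ k :=
    h7.mul (h5.trans h6)
  simp only [one_mul] at h8
  refine IsBigO.congr' h8 ?_ (Eventually.of_forall fun _ => rfl)
  filter_upwards [hev] with q hq
  rw [hq, hg0, hg]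

/-- Proof. Let `A = fderiv (chartAt x ∘ C.Φ₀) 0` (invertible, `chart_comp_fderiv`), `L` from
`exists_linear`, `τ = pull L C.Φ₀ s`, `k' = k - m n`. `τ = O(‖q‖^k)` (`pull_isBigO`), so by `glued_pull`,
`coef_eq_zero_of_order` (`N = m (p+2) ≤ m n`; if `j < k'` then `j + N < k`) the coefficients of order
`j < k'` vanish. By `tube_bound`, `‖τ (t, (t ε) v, (t ε) w)‖ ≤ C ‖t‖^k ‖ε‖^k'` for `‖t‖, ‖ε‖ ≤ ρ`. For fixed
`ε`, as `t → 0`, `t ≠ 0`: by `pull_loc` and `tendsto_hom` (with `ζ = t`,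
`x t = t⁻¹ (chartAt x (C.Φ₀ (t, (tε) v, (tε) w)) - chartAt x x) → A (1, ε v, ε w)`),
`(t^k)⁻¹ τ (t, …) → κ 0 * hom k (loc x s) (A (1, ε v, ε w))`. Hence
`‖κ 0‖ ‖hom k (loc x s) (A (1, ε v, ε w))‖ ≤ C ‖ε‖^k'`. For general `u` write
`A⁻¹ u = (α, v, w)`; then `y + ε u = A (1 + ε α, ε v, ε w) = (1 + ε α) • A (1, ε' v, ε' w)`,
`ε' = ε/(1 + ε α)`, and `hom k f (r • y) = r^k hom k f y`. So
`hom k (loc x s) (y + ε u) = (1 + ε α)^k hom k (loc x s) (A (1, ε' v, ε' w)) = O(ε'^k') = O(ε^k')`. -/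
theorem hom_isBigO {p c : ℕ} (C : StandardCurve n U p c) (hp : p + 2 ≤ n) (x : U)
    (hx : C.Φ₀ 0 = x) {m k : ℕ} (s : antiSections n U m)
    (hs : loc x s =O[𝓝 0] fun y => ‖y‖ ^ k) (u : Fin n → ℂ) :
    (fun ε : ℂ => hom k (loc x s)
      (fderiv ℂ (fun q => chartAt (Fin n → ℂ) x (C.Φ₀ q)) 0 (1, 0, 0) + ε • u))
      =O[𝓝 0] fun ε => ε ^ (k - m * n) := by
  obtain ⟨⟨L⟩, -⟩ := exists_linear C
  obtain ⟨g, hg⟩ : ∃ g : Tube p c → Fin n → ℂ, g = fun q => chartAt (Fin n → ℂ) x (C.Φ₀ q) :=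
    ⟨_, rfl⟩
  have hb0 : IsLocalDiffeomorphAt 𝓘(ℂ, Tube p c) 𝓘(ℂ, Fin n → ℂ) ω C.Φ₀ 0 := C.bihol₀ 0
  have hx' : C.Φ₀ 0 ∈ (chartAt (Fin n → ℂ) x).source := by
    rw [hx]
    exact mem_chart_source _ _
  have hga : AnalyticAt ℂ g 0 := by
    rw [hg]
    exact chart_comp_analyticAt C.Φ₀ 0 hb0.contMDiffAt _ (chart_mem_atlas _ _) hx'
  have hg0 : chartAt (Fin n → ℂ) x x = g 0 := by
    rw [hg]
    simp only [hx]
  obtain ⟨A, hA⟩ := chart_comp_fderiv C.Φ₀ 0 hb0 _ (chart_mem_atlas (Fin n → ℂ) x) hx'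
  rw [← hg] at hA ⊢
  rw [hA]
  have hgd : HasFDerivAt g (A : Tube p c →L[ℂ] (Fin n → ℂ)) 0 := by
    rw [← hA]
    exact hga.differentiableAt.hasFDerivAt
  have hgl : Glued (m * (p + 2)) (pull L C.Φ₀ s) (pull L C.Φ₁ s) := glued_pull C L s
  have hO : pull L C.Φ₀ s =O[𝓝 0] fun q => ‖q‖ ^ k := pull_isBigO L C.Φ₀ x hx hb0 s hs
  have hτ : AnalyticAt ℂ (pull L C.Φ₀ s) 0 := hgl.an₀ 0
  have h0 : ∀ j < k - m * n, ∀ y, coef 1 1 j (pull L C.Φ₀ s) y = 0 := by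
    intro j hj y
    refine coef_eq_zero_of_order hgl k hO j ?_ y
    have h1 : m * (p + 2) ≤ m * n := Nat.mul_le_mul_left m hp
    omega
  obtain ⟨α, v, w, hu⟩ : ∃ (α : ℂ) (v : Fin p → ℂ) (w : Fin c → ℂ), A (α, v, w) = u := by
    refine ⟨(A.symm u).1, (A.symm u).2.1, (A.symm u).2.2, ?_⟩
    exact A.apply_symm_apply u
  obtain ⟨K, ρ, hρ, hK⟩ := tube_bound (pull L C.Φ₀ s) hτ k (k - m * n) hO h0 v w
  obtain ⟨κ, hκ, hκ0, hev⟩ := pull_loc L C.Φ₀ x hx hb0 s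
  have hla := loc_analyticAt x s
  -- the bound along the rays
  have hray : ∀ ε : ℂ, ‖ε‖ ≤ ρ → ‖hom k (loc x s) (A (1, ε • v, ε • w))‖ ≤
      (K / ‖κ 0‖) * ‖ε‖ ^ (k - m * n) := by
    intro ε hε
    obtain ⟨q, hq⟩ : ∃ q : ℂ → Tube p c, q = fun t => (t, (t * ε) • v, (t * ε) • w) := ⟨_, rfl⟩
    have hqd : HasDerivAt q ((1, ε • v, ε • w) : Tube p c) 0 := by
      have h1 : q = fun t : ℂ => t • ((1, ε • v, ε • w) : Tube p c) := by
        rw [hq]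
        funext t
        simp [smul_smul]
      rw [h1]
      simpa using (hasDerivAt_id (0 : ℂ)).smul_const ((1, ε • v, ε • w) : Tube p c)
    have hq0 : q 0 = 0 := by rw [hq]; simp
    have hgq : HasDerivAt (fun t => g (q t)) (A (1, ε • v, ε • w)) 0 := by
      have h1 : HasFDerivAt g (A : Tube p c →L[ℂ] (Fin n → ℂ)) (q 0) := by rw [hq0]; exact hgd
      exact h1.comp_hasDerivAt (0 : ℂ) hqd
    have hsl := hasDerivAt_iff_tendsto_slope_zero.1 hgq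
    simp only [zero_add, hq0] at hsl
    have hid : Tendsto (fun t : ℂ => t) (𝓝[≠] 0) (𝓝 0) := tendsto_nhdsWithin_of_tendsto_nhds tendsto_id
    have hne : ∀ᶠ t : ℂ in 𝓝[≠] 0, t ≠ 0 := eventually_mem_nhdsWithin
    have hth := tendsto_hom (loc x s) hla k hs (𝓝[≠] (0 : ℂ)) (fun t => t)
      (fun t => t⁻¹ • (g (q t) - g 0)) _ hid hne hsl
    have hqt : Tendsto q (𝓝[≠] (0 : ℂ)) (𝓝 0) := by
      have h1 := hqd.continuousAt.tendsto
      rw [hq0] at h1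
      exact h1.mono_left nhdsWithin_le_nhds
    have hlim : Tendsto (fun t => (t ^ k)⁻¹ * pull L C.Φ₀ s (q t)) (𝓝[≠] (0 : ℂ))
        (𝓝 (κ 0 * hom k (loc x s) (A (1, ε • v, ε • w)))) := by
      have h1 : Tendsto (fun t => κ (q t)) (𝓝[≠] (0 : ℂ)) (𝓝 (κ 0)) := hκ.tendsto.comp hqt
      refine (h1.mul hth).congr' ?_
      filter_upwards [hne, hqt.eventually hev] with t ht1 ht2
      rw [ht2, hg0, smul_smul, mul_inv_cancel₀ ht1, one_smul]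
      rw [hg]
      ring
    have hle : ‖κ 0 * hom k (loc x s) (A (1, ε • v, ε • w))‖ ≤ K * ‖ε‖ ^ (k - m * n) := by
      refine le_of_tendsto hlim.norm ?_
      have hsmall : ∀ᶠ t : ℂ in 𝓝[≠] 0, ‖t‖ ≤ ρ := by
        have h1 : ∀ᶠ t : ℂ in 𝓝 0, ‖t‖ ≤ ρ := by
          filter_upwards [Metric.ball_mem_nhds (0 : ℂ) hρ] with t ht
          exact (mem_ball_zero_iff.1 ht).le
        exact h1.filter_mono nhdsWithin_le_nhds
      filter_upwards [hne, hsmall] with t ht1 ht2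
      have h1 := hK t ε ht2 hε
      have h2 : 0 < ‖t‖ ^ k := pow_pos (norm_pos_iff.2 ht1) k
      rw [norm_mul, norm_inv, norm_pow, hq]
      calc (‖t‖ ^ k)⁻¹ * ‖pull L C.Φ₀ s (t, (t * ε) • v, (t * ε) • w)‖
          ≤ (‖t‖ ^ k)⁻¹ * (K * ‖t‖ ^ k * ‖ε‖ ^ (k - m * n)) :=
            mul_le_mul_of_nonneg_left h1 (inv_nonneg.2 h2.le)
        _ = K * ‖ε‖ ^ (k - m * n) := by field_simp
    have h3 : 0 < ‖κ 0‖ := norm_pos_iff.2 hκ0
    rw [norm_mul] at hle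
    rw [div_mul_eq_mul_div, le_div_iff₀ h3, mul_comm]
    exact hle
  -- homogeneity
  have hhom : ∀ (r : ℂ) (y : Fin n → ℂ), r ≠ 0 →
      hom k (loc x s) (r • y) = r ^ k * hom k (loc x s) y := by
    intro r y hr
    have hid : Tendsto (fun t : ℂ => t) (𝓝[≠] 0) (𝓝 0) := tendsto_nhdsWithin_of_tendsto_nhds tendsto_id
    have hne : ∀ᶠ t : ℂ in 𝓝[≠] 0, t ≠ 0 := eventually_mem_nhdsWithin
    have h1 := tendsto_hom (loc x s) hla k hs (𝓝[≠] (0 : ℂ)) (fun t => t) (fun _ => r • y) (r • y)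
      hid hne tendsto_const_nhds
    have hid2 : Tendsto (fun t : ℂ => t * r) (𝓝[≠] 0) (𝓝 0) := by
      have := hid.mul_const r
      rwa [zero_mul] at this
    have h2 := tendsto_hom (loc x s) hla k hs (𝓝[≠] (0 : ℂ)) (fun t => t * r) (fun _ => y) y
      hid2 (hne.mono fun t ht => mul_ne_zero ht hr) tendsto_const_nhds
    have h3 := h2.const_mul (r ^ k)
    refine tendsto_nhds_unique h1 (h3.congr' ?_)
    filter_upwards [hne] with t ht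
    have h4 : (t ^ k) ≠ 0 := pow_ne_zero _ ht
    have h5 : (r ^ k) ≠ 0 := pow_ne_zero _ hr
    rw [smul_smul, mul_pow]
    field_simp
  -- the end
  have hK0 : 0 ≤ K / ‖κ 0‖ := by
    have h1 := hray 0 (by rw [norm_zero]; exact hρ.le)
    by_contra hneg
    push Not at hneg
    have h2 := hray (ρ : ℂ) (by rw [Complex.norm_real, Real.norm_eq_abs, abs_of_pos hρ])
    have h3 : 0 < ‖(ρ : ℂ)‖ ^ (k - m * n) := by
      apply pow_pos
      rw [Complex.norm_real, Real.norm_eq_abs, abs_of_pos hρ]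
      exact hρ
    have h4 := norm_nonneg (hom k (loc x s) (A (1, (ρ : ℂ) • v, (ρ : ℂ) • w)))
    nlinarith
  have hsm : ∀ᶠ ε : ℂ in 𝓝 0, ‖ε * α‖ ≤ 1 / 2 ∧ ‖ε‖ ≤ ρ / 2 := by
    have h1 : Tendsto (fun ε : ℂ => ‖ε * α‖) (𝓝 0) (𝓝 0) := by
      have : Continuous fun ε : ℂ => ‖ε * α‖ := by fun_prop
      simpa using this.tendsto 0
    have h2 : Tendsto (fun ε : ℂ => ‖ε‖) (𝓝 0) (𝓝 0) := by
      simpa using (continuous_norm (E := ℂ)).tendsto 0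
    filter_upwards [h1.eventually (ge_mem_nhds (by norm_num : (0 : ℝ) < 1 / 2)),
      h2.eventually (ge_mem_nhds (by linarith : (0 : ℝ) < ρ / 2))] with ε h3 h4
    exact ⟨h3, h4⟩
  refine IsBigO.of_bound (2 ^ k * ((K / ‖κ 0‖) * 2 ^ (k - m * n))) ?_
  filter_upwards [hsm] with ε hε
  obtain ⟨hε1, hε2⟩ := hε
  have hr1 : 1 / 2 ≤ ‖1 + ε * α‖ := by
    have h1 : ‖(1 : ℂ)‖ - ‖ε * α‖ ≤ ‖1 + ε * α‖ := by
      have := norm_sub_norm_le (1 : ℂ) (-(ε * α))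
      rwa [norm_neg, sub_neg_eq_add] at this
    rw [norm_one] at h1
    linarith
  have hr2 : ‖1 + ε * α‖ ≤ 2 := by
    have h1 := norm_add_le (1 : ℂ) (ε * α)
    rw [norm_one] at h1
    linarith
  have hr0 : 1 + ε * α ≠ 0 := by
    intro h
    rw [h, norm_zero] at hr1
    norm_num at hr1
  have hε' : ‖ε / (1 + ε * α)‖ ≤ 2 * ‖ε‖ := by
    rw [norm_div, div_le_iff₀ (by linarith)]
    nlinarith [norm_nonneg ε]
  have hdec : A (1, 0, 0) + ε • u =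
      (1 + ε * α) • A (1, (ε / (1 + ε * α)) • v, (ε / (1 + ε * α)) • w) := by
    rw [← hu, ← map_smul, ← map_smul, ← map_add]
    congr 1
    simp only [Prod.smul_mk, Prod.mk_add_mk, smul_smul, zero_add, smul_eq_mul, mul_one]
    rw [mul_div_cancel₀ _ hr0]
  have hA1 : ((A : Tube p c →L[ℂ] (Fin n → ℂ)) (1, 0, 0)) = A (1, 0, 0) := rfl
  rw [hA1, hdec, hhom _ _ hr0, norm_mul, norm_pow, norm_pow]
  calc ‖1 + ε * α‖ ^ k *
        ‖hom k (loc x s) (A (1, (ε / (1 + ε * α)) • v, (ε / (1 + ε * α)) • w))‖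
      ≤ 2 ^ k * ((K / ‖κ 0‖) * ‖ε / (1 + ε * α)‖ ^ (k - m * n)) := by
        refine mul_le_mul (pow_le_pow_left₀ (norm_nonneg _) hr2 k)
          (hray _ (hε'.trans (by linarith))) (norm_nonneg _) (by positivity)
    _ ≤ 2 ^ k * ((K / ‖κ 0‖) * (2 * ‖ε‖) ^ (k - m * n)) := by
        refine mul_le_mul_of_nonneg_left ?_ (by positivity)
        refine mul_le_mul_of_nonneg_left ?_ hK0
        exact pow_le_pow_left₀ (norm_nonneg _) hε' _
    _ = 2 ^ k * ((K / ‖κ 0‖) * 2 ^ (k - m * n)) * ‖ε‖ ^ (k - m * n) := by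
        rw [mul_pow]
        ring

end Pool.Agent.Lib.H88V
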