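import Mathlib

/-!
# Project H88V, chunk E4: polynomials vanishing to high order along a hypersurface
-/

open scoped Topology Nat
open Filter Asymptotics Set

namespace Pool.Agent.Lib.H88V

/-- Proof. `∂_i F₁` has smaller degree in the variable `X_i` than `F₁`, so if `F₁` divides all `∂_i F₁` then all
`∂_i F₁ = 0`, and `F₁` is constant (characteristic `0`), contradicting irreducibility. -/
theorem exists_pderiv_not_dvd {n : ℕ} (F₁ : MvPolynomial (Fin n) ℂ) (h : Irreducible F₁) :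
    ∃ i, ¬ F₁ ∣ MvPolynomial.pderiv i F₁ := by
  sorry

/-- Proof. Taylor: `ε ↦ eval (y + ε u) P` is a polynomial in `ε` (`MvPolynomial.aeval` /
`eval₂` with `X_i ↦ C (y i) + C (u i) X`) whose derivative at `0` is `∑ u i * eval y (pderiv i P)`. -/
theorem hasDerivAt_eval {n : ℕ} (P : MvPolynomial (Fin n) ℂ) (y u : Fin n → ℂ) :
    HasDerivAt (fun ε : ℂ => MvPolynomial.eval (y + ε • u) P)
      (∑ i, u i * MvPolynomial.eval y (MvPolynomial.pderiv i P)) 0 := by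
  sorry

/-- Proof. Induction on `j`; `j = 0` is trivial. Let `j = j' + 1`; by induction `P = F^j' G` (the hypothesis
for `j'` follows). Suppose `F ∤ G`. As `F` is squarefree (so `F ≠ 0`, `Squarefree.ne_zero`) and not a unit (else `F ∣ G`), there is an irreducible factor `F₁` of `F` with `F₁ ∤ G`
(unique factorization: `F` squarefree divides `G` iff all its prime factors do). Write `F = F₁ F₂`, `F₁ ∤ F₂`.
By `exists_pderiv_not_dvd` there is `i` with `F₁ ∤ ∂_i F₁`, so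
`F₁ ∤ ∂_i F = F₂ ∂_i F₁ + F₁ ∂_i F₂`. So `F₁ ∤ G ∂_i F`, `F ∤ G ∂_i F`, and by `hY` there is `y ∈ Y` with
`G(y) ≠ 0`, `∂_i F (y) ≠ 0`. With `u = Pi.single i 1`: if `F(y) ≠ 0` then `P(y) ≠ 0`, contradiction to
`P (y + ε u) = O(ε^j)`, `j ≥ 1`. If `F(y) = 0` then `F (y + ε u) = ε ∂_i F(y) + o(ε)`
(`hasDerivAt_eval`), so `‖P (y + ε u)‖ ≥ c ‖ε‖^j'` for small `ε`, contradiction to `O(ε^(j'+1))`. -/
theorem dvd_of_order {n : ℕ} (F : MvPolynomial (Fin n) ℂ) (hF : Squarefree F)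
    (Y : Set (Fin n → ℂ))
    (hY : ∀ G : MvPolynomial (Fin n) ℂ, (∀ y ∈ Y, MvPolynomial.eval y G = 0) → F ∣ G)
    (P : MvPolynomial (Fin n) ℂ) (j : ℕ)
    (hP : ∀ y ∈ Y, ∀ u : Fin n → ℂ,
      (fun ε : ℂ => MvPolynomial.eval (y + ε • u) P) =O[𝓝 0] fun ε => ε ^ j) : F ^ j ∣ P := by
  sorry

end Pool.Agent.Lib.H88V
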