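import Pool.Agent.Lib.H88V.H2

/-!
# Project H88V, chunk E5: the dimension of the space of leading forms
-/

open scoped Topology Nat
open Filter Asymptotics Set

namespace Pool.Agent.Lib.H88V

/-- The bound for the dimension of the space of leading forms of degree `k` of sections of the `m`-th
power. -/
def dimB (n m k : ℕ) : ℕ :=
  if k ≤ m * n then Nat.multichoose n k
  else if k ≤ 2 * (m * n) then Nat.multichoose n (2 * (m * n) - k) else 0

theorem e5_multichoose_mono (n : ℕ) (hn : 1 ≤ n) {i j : ℕ} (hij : i ≤ j) :
    Nat.multichoose n i ≤ Nat.multichoose n j := by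
  obtain ⟨n, rfl⟩ : ∃ n', n = n' + 1 := ⟨n - 1, by omega⟩
  refine monotone_nat_of_le_succ (f := Nat.multichoose (n + 1)) (fun k => ?_) hij
  rw [Nat.multichoose_succ_succ]
  exact Nat.le_add_left _ _

/-- the cofactor of a homogeneous divisor of a homogeneous polynomial may be taken homogeneous -/
theorem e5_cofactor {σ : Type} (A G : MvPolynomial σ ℂ) (e k : ℕ) (hA : A.IsHomogeneous e)
    (hP : (A * G).IsHomogeneous k) :
    A * G = if e ≤ k then A * MvPolynomial.homogeneousComponent (k - e) G else 0 := by
  have h1 : A * G = ∑ i ∈ Finset.range (G.totalDegree + 1),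
      MvPolynomial.homogeneousComponent k (A * MvPolynomial.homogeneousComponent i G) := by
    rw [← map_sum, ← Finset.mul_sum, MvPolynomial.sum_homogeneousComponent,
      MvPolynomial.homogeneousComponent_eq_self hP]
  have h2 : ∀ i, MvPolynomial.homogeneousComponent k (A * MvPolynomial.homogeneousComponent i G) =
      if k = e + i then A * MvPolynomial.homogeneousComponent i G else 0 := fun i =>
    MvPolynomial.homogeneousComponent_of_mem
      (hA.mul (MvPolynomial.homogeneousComponent_isHomogeneous i G))
  rw [h1, Finset.sum_congr rfl fun i _ => h2 i]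
  by_cases hek : e ≤ k
  · rw [if_pos hek]
    by_cases hr : k - e ≤ G.totalDegree
    · rw [Finset.sum_eq_single (k - e)]
      · rw [if_pos (by omega)]
      · intro b _ hb
        rw [if_neg (by omega)]
      · intro h
        exact absurd (Finset.mem_range.2 (by omega)) h
    · rw [MvPolynomial.homogeneousComponent_eq_zero _ _ (by omega), mul_zero]
      refine Finset.sum_eq_zero fun i hi => ?_
      have := Finset.mem_range.1 hi
      rw [if_neg (by omega)]
  · rw [if_neg hek]
    refine Finset.sum_eq_zero fun i _ => ?_
    rw [if_neg (by omega)]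

/-- Proof. If `k ≤ m n`: `exists_finset_homogeneous n k`. Let `k > m n`, `j = k - m n ≥ 1`. If `P ≠ 0` is
homogeneous of degree `k` and `P = F^j G` then, taking the homogeneous component of degree `k`
(`F^j` is homogeneous of degree `d j`), `k ≥ d j` and `P = F^j G'` with `G'` the homogeneous component of `G`
of degree `k - d j`. As `d ≥ 2`, `k - d j ≤ k - 2 j = 2 m n - k`; if `k > 2 m n` there is no such `P ≠ 0`.
Take `S = {F^j M | M ∈ S'}`, `S'` from `exists_finset_homogeneous n (k - d j)`, of cardinality
`≤ multichoose n (k - d j) ≤ multichoose n (2 m n - k)` (monotone in the second argument for `n ≥ 1`). -/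
theorem exists_finset_leading (n : ℕ) (hn : 1 ≤ n) (m k d : ℕ) (hd : 2 ≤ d)
    (F : MvPolynomial (Fin n) ℂ) (hF : F.IsHomogeneous d) :
    ∃ S : Finset (MvPolynomial (Fin n) ℂ), S.card ≤ dimB n m k ∧
      ∀ P : MvPolynomial (Fin n) ℂ, P.IsHomogeneous k → F ^ (k - m * n) ∣ P →
        P ∈ Submodule.span ℂ (S : Set _) := by
  classical
  by_cases hk : k ≤ m * n
  · obtain ⟨S, hS, h⟩ := exists_finset_homogeneous n k
    refine ⟨S, ?_, fun P hP _ => h P hP⟩
    unfold dimB
    rw [if_pos hk]
    exact hS
  · have hFj : (F ^ (k - m * n)).IsHomogeneous (d * (k - m * n)) :=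
      hF.pow (k - m * n)
    by_cases hdj : d * (k - m * n) ≤ k
    · obtain ⟨S, hS, h⟩ := exists_finset_homogeneous n (k - d * (k - m * n))
      refine ⟨S.image fun M => F ^ (k - m * n) * M, ?_, fun P hP hd' => ?_⟩
      · have h2 : 2 * (k - m * n) ≤ d * (k - m * n) := Nat.mul_le_mul_right _ hd
        have hk2 : k ≤ 2 * (m * n) := by omega
        unfold dimB
        rw [if_neg hk, if_pos hk2]
        refine Finset.card_image_le.trans (hS.trans (e5_multichoose_mono n hn ?_))
        omega
      · obtain ⟨G, rfl⟩ := hd'
        rw [e5_cofactor _ G _ k hFj hP, if_pos hdj]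
        have h3 := h (MvPolynomial.homogeneousComponent (k - d * (k - m * n)) G)
          (MvPolynomial.homogeneousComponent_isHomogeneous _ G)
        have h4 := Submodule.mem_map_of_mem
          (f := LinearMap.mulLeft ℂ (F ^ (k - m * n))) h3
        rw [Submodule.map_span] at h4
        rw [Finset.coe_image]
        exact h4
    · refine ⟨∅, Nat.zero_le _, fun P hP hd' => ?_⟩
      obtain ⟨G, rfl⟩ := hd'
      rw [e5_cofactor _ G _ k hFj hP, if_neg hdj]
      exact Submodule.zero_mem _

end Pool.Agent.Lib.H88V
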