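import Pool.Agent.Lib.H88V.E1B
import Pool.Agent.Lib.H88V.E3
import Pool.Agent.Lib.H88V.E4
import Pool.Agent.Lib.H88V.E5
import Pool.Agent.Lib.H88V.LA

/-!
# Project H88V, chunk E6: the count of sections for a hypersurface of curves
-/

open scoped Manifold ContDiff Topology Nat ENNReal
open Filter Asymptotics Set

namespace Pool.Agent.Lib.H88V

/-- Proof. Let `G k` be the submodule of the `s` with `loc x s = O(‖y‖^k)` (`loc_add`, `loc_smul`);
`G 0 = ⊤` (analytic functions are bounded near `0`). Show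
`finrank (G k) ≤ finrank (G (k+1)) + dimB n m k` by `finrank_le_of_maps` with one map
`Ψ s = hom k (loc x s)` (`hom_add`, `hom_smul`, `loc_analyticAt`): for `s ∈ G k`, `hom k (loc x s)` is the
function of a polynomial `P` homogeneous of degree `k` (`exists_mvPolynomial`), by `hom_isBigO` and
`dvd_of_order` (`Y = directions n U x`) `F^(k - m n) ∣ P`, so `P` is in the span of the set of
`exists_finset_leading`, and `Ψ s` is in the span of its image under `P ↦ (y ↦ eval y P)`. If `Ψ s = 0` then
`loc x s = O(‖y‖^(k+1))` (`hom_eq_zero` for `j < k` and `isBigO_of_hom`). Sum over `k < K` and use the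
divisor `D` of `exists_divisor_point`: `G K ≤ D.sub m K`. -/
theorem count_point {n : ℕ} {U : Type*} [TopologicalSpace U] [ChartedSpace (Fin n → ℂ) U]
    [IsManifold 𝓘(ℂ, Fin n → ℂ) ω U] (hn : 1 ≤ n)
    (hfin : ∀ m, FiniteDimensional ℂ (antiSections n U m)) (x : U) (d : ℕ)
    (F : MvPolynomial (Fin n) ℂ) (hd : 2 ≤ d) (hF : F.IsHomogeneous d) (hsq : Squarefree F)
    (hY : ∀ G : MvPolynomial (Fin n) ℂ,
      (∀ y ∈ directions n U x, MvPolynomial.eval y G = 0) → F ∣ G) :
    ∃ D : DivisorOver n U, D.logDiscrepancy ≤ n ∧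
      ∀ m K : ℕ, Module.finrank ℂ (antiSections n U m) ≤
        Module.finrank ℂ (D.sub m K) + ∑ k ∈ Finset.range K, dimB n m k := by
  sorry

end Pool.Agent.Lib.H88V
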