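import Pool.Agent.Lib.H88V.C2
import Pool.Agent.Lib.H88V.E6
import Pool.Agent.Lib.H88V.P2

/-!
# Project H88V, chunk E7: the volume bound from a hypersurface of curves
-/

open scoped Manifold ContDiff Topology Nat ENNReal
open Filter Asymptotics Set

namespace Pool.Agent.Lib.H88V

theorem e7_swap (f : ℕ → ℕ) (N : ℕ) :
    ∑ K ∈ Finset.range N, ∑ k ∈ Finset.range (K + 1), f k =
      ∑ k ∈ Finset.range N, (N - k) * f k := by
  induction N with
  | zero => simp
  | succ N ih =>
    rw [Finset.sum_range_succ, ih, Finset.sum_range_succ _ N, Finset.sum_range_succ _ N,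
      ← add_assoc, ← Finset.sum_add_distrib]
    congr 1
    · refine Finset.sum_congr rfl fun k hk => ?_
      have hk' : k < N := Finset.mem_range.1 hk
      rw [show N + 1 - k = (N - k) + 1 by omega]
      ring
    · rw [show N + 1 - N = 1 by omega, one_mul]

theorem e7_half (n L : ℕ) :
    ∑ k ∈ Finset.range (2 * L), (2 * L - k) *
      (if k ≤ L then Nat.multichoose n k
        else if k ≤ 2 * L then Nat.multichoose n (2 * L - k) else 0) ≤
      2 * L * Nat.multichoose (n + 1) L := by
  rw [two_mul L, Finset.sum_range_add]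
  have h1 : ∑ k ∈ Finset.range L, (L + L - k) *
      (if k ≤ L then Nat.multichoose n k
        else if k ≤ L + L then Nat.multichoose n (L + L - k) else 0) ≤
      ∑ k ∈ Finset.range (L + 1), (L + L - k) * Nat.multichoose n k := by
    rw [Finset.sum_range_succ]
    refine le_trans (le_of_eq ?_) (Nat.le_add_right _ _)
    refine Finset.sum_congr rfl fun k hk => ?_
    rw [if_pos (Finset.mem_range.1 hk).le]
  have h2 : ∑ j ∈ Finset.range L, (L + L - (L + j)) *
      (if L + j ≤ L then Nat.multichoose n (L + j)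
        else if L + j ≤ L + L then Nat.multichoose n (L + L - (L + j)) else 0) =
      ∑ k ∈ Finset.range (L + 1), k * Nat.multichoose n k := by
    rw [Finset.sum_range_succ' _ L, zero_mul, add_zero,
      ← Finset.sum_range_reflect (fun k => (k + 1) * Nat.multichoose n (k + 1)) L]
    refine Finset.sum_congr rfl fun j hj => ?_
    have hj' : j < L := Finset.mem_range.1 hj
    rw [show L - 1 - j + 1 = L - j by omega, show L + L - (L + j) = L - j by omega]
    congr 1
    by_cases hj0 : j = 0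
    · subst hj0
      rw [if_pos (by omega)]
      rfl
    · rw [if_neg (by omega), if_pos (by omega)]
  have h3 : ∑ k ∈ Finset.range (L + 1), (L + L - k) * Nat.multichoose n k +
      ∑ k ∈ Finset.range (L + 1), k * Nat.multichoose n k =
      (L + L) * Nat.multichoose (n + 1) L := by
    rw [← Finset.sum_add_distrib, ← sum_multichoose n L, Finset.mul_sum]
    refine Finset.sum_congr rfl fun k hk => ?_
    have hk' : k < L + 1 := Finset.mem_range.1 hk
    rw [← add_mul]
    congr 1
    omega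
  calc _ ≤ ∑ k ∈ Finset.range (L + 1), (L + L - k) * Nat.multichoose n k +
      ∑ k ∈ Finset.range (L + 1), k * Nat.multichoose n k := add_le_add h1 h2.le
    _ = _ := h3

theorem e7_lim (n : ℕ) :
    Tendsto (fun m : ℕ => 2 * (n : ℝ) * (n : ℝ) ^ n * (1 + 1 / (m : ℝ)) ^ n) atTop
      (𝓝 (2 * (n : ℝ) * (n : ℝ) ^ n)) := by
  have h1 : Tendsto (fun m : ℕ => (1 + 1 / (m : ℝ)) ^ n) atTop (𝓝 ((1 + 0) ^ n)) :=
    (tendsto_const_nhds.add tendsto_one_div_atTop_nhds_zero_nat).pow n
  have h2 := h1.const_mul (2 * (n : ℝ) * (n : ℝ) ^ n)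
  rwa [add_zero, one_pow, mul_one] at h2

theorem e7_pos {n d : ℕ} (F : MvPolynomial (Fin n) ℂ) (hd : 2 ≤ d) (hF : F.IsHomogeneous d)
    (hsq : Squarefree F) : 1 ≤ n := by
  rcases Nat.eq_zero_or_pos n with h0 | h0
  · exfalso
    subst h0
    have hF0 : F = 0 := by
      ext α
      rw [MvPolynomial.coeff_zero]
      by_contra hne
      have h1 := hF hne
      have h2 : α = 0 := Subsingleton.elim _ _
      rw [h2] at h1
      simp at h1
      omega
    exact not_squarefree_zero (hF0 ▸ hsq)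
  · exact h0

/-- Proof. `∑_{K < 2nm} ∑_{k ≤ K} dimB n m k = ∑_{k < 2nm} dimB n m k (2nm - k)`. Split at `k = m n` and put
`k' = 2mn - k` for `k > m n`: it is
`∑_{k ≤ mn} multichoose n k (2nm - k) + ∑_{1 ≤ k' < mn} multichoose n k' k'
≤ ∑_{k ≤ mn} multichoose n k * 2nm = 2 n m multichoose (n+1) (m n)` (`sum_multichoose`). -/
theorem sum_dimB_le (n m : ℕ) :
    ∑ K ∈ Finset.range (2 * n * m), ∑ k ∈ Finset.range (K + 1), dimB n m k ≤
      2 * n * m * Nat.multichoose (n + 1) (m * n) := by
  rw [e7_swap]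
  have h1 := e7_half n (m * n)
  rw [show 2 * n * m = 2 * (m * n) by ring]
  exact h1

/-- Proof. `n ≥ 1` (a homogeneous squarefree polynomial in no variables has degree `0`). `count_point`,
`principle` with `T = 2 n`, `A = n`, `cnt m K = ∑_{k < K} dimB n m k`,
`β m = n! 2 n m ((m n + n)^n / n!) / m^(n+1) → 2 n n^n` (`sum_dimB_le`, `multichoose_le n (m n)`). So
`(2 n - n) V ≤ 2 n n^n`. -/
theorem case_hypersurface {n : ℕ} {U : Type*} [TopologicalSpace U]
    [ChartedSpace (Fin n → ℂ) U] [IsManifold 𝓘(ℂ, Fin n → ℂ) ω U]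
    (hfin : ∀ m, FiniteDimensional ℂ (antiSections n U m)) (hV : antiVolume n U ≠ ⊤)
    (hK : IsKSemistable n U) (h : HasHypersurfaceOfCurves n U) :
    antiVolume n U ≤ 2 * (n : ℝ≥0∞) ^ n := by
  obtain ⟨x, d, F, hd, hF, hsq, hY⟩ := h
  have hn : 1 ≤ n := e7_pos F hd hF hsq
  obtain ⟨D, hA, hcnt⟩ := count_point hn hfin x d F hd hF hsq hY
  have key := principle hK hfin hV D n hA (2 * n)
    (fun m K => ∑ k ∈ Finset.range K, dimB n m k) hcnt (2 * (n : ℝ) * (n : ℝ) ^ n)
    (fun m : ℕ => 2 * (n : ℝ) * (n : ℝ) ^ n * (1 + 1 / (m : ℝ)) ^ n) (e7_lim n) (by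
      filter_upwards [eventually_ge_atTop 1] with m hm
      have hm0 : (0 : ℝ) < m := by exact_mod_cast hm
      have h1 : (∑ j ∈ Finset.range (2 * n * m),
          ((∑ k ∈ Finset.range (j + 1), dimB n m k : ℕ) : ℝ)) ≤
          2 * n * m * (((m * n : ℕ) : ℝ) + n) ^ n / (n ! : ℝ) := by
        have h2 := sum_dimB_le n m
        have h3 : (∑ j ∈ Finset.range (2 * n * m),
            ((∑ k ∈ Finset.range (j + 1), dimB n m k : ℕ) : ℝ)) ≤
            2 * n * m * (Nat.multichoose (n + 1) (m * n) : ℝ) := by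
          exact_mod_cast h2
        have h4 := multichoose_le n (m * n)
        calc _ ≤ 2 * n * m * (Nat.multichoose (n + 1) (m * n) : ℝ) := h3
          _ ≤ 2 * n * m * ((((m * n : ℕ) : ℝ) + n) ^ n / (n ! : ℝ)) :=
              mul_le_mul_of_nonneg_left h4 (by positivity)
          _ = _ := by ring
      have hf : (0 : ℝ) < (n ! : ℝ) := by exact_mod_cast Nat.factorial_pos n
      rw [div_le_iff₀ (by positivity)]
      calc (n ! : ℝ) * (∑ j ∈ Finset.range (2 * n * m),
            ((∑ k ∈ Finset.range (j + 1), dimB n m k : ℕ) : ℝ)) ≤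
            (n ! : ℝ) * (2 * n * m * (((m * n : ℕ) : ℝ) + n) ^ n / (n ! : ℝ)) :=
            mul_le_mul_of_nonneg_left h1 hf.le
        _ = 2 * n * m * (((m * n : ℕ) : ℝ) + n) ^ n := by
            field_simp
        _ = 2 * n * (n : ℝ) ^ n * (1 + 1 / (m : ℝ)) ^ n * (m : ℝ) ^ (n + 1) := by
            have h5 : ((m * n : ℕ) : ℝ) + n = n * ((1 + 1 / (m : ℝ)) * m) := by
              push_cast
              field_simp
            rw [h5, mul_pow, mul_pow, pow_succ]
            ring)
  have hn0 : (0 : ℝ) < n := by exact_mod_cast hn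
  have h6 : (antiVolume n U).toReal ≤ 2 * (n : ℝ) ^ n := by
    have h7 : (((2 * n : ℕ) : ℝ) - n) * (antiVolume n U).toReal = n * (antiVolume n U).toReal := by
      push_cast
      ring
    rw [h7] at key
    have h8 : n * (antiVolume n U).toReal ≤ n * (2 * (n : ℝ) ^ n) := by
      calc n * (antiVolume n U).toReal ≤ 2 * (n : ℝ) * (n : ℝ) ^ n := key
        _ = n * (2 * (n : ℝ) ^ n) := by ring
    exact le_of_mul_le_mul_left h8 hn0
  rw [← ENNReal.ofReal_toReal hV]
  refine (ENNReal.ofReal_le_ofReal h6).trans (le_of_eq ?_)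
  rw [ENNReal.ofReal_mul (by norm_num), ENNReal.ofReal_pow (by positivity), ENNReal.ofReal_natCast]
  simp

end Pool.Agent.Lib.H88V
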