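import Pool.Agent.Lib.H88V.A4
import Pool.Agent.Lib.H88V.B3

/-!
# Project H88V, chunk F1: the divisor of a smooth hypersurface germ
-/

open scoped Manifold ContDiff Topology Nat
open Filter Asymptotics Set

namespace Pool.Agent.Lib.H88V

/-- The leading coefficient along the hypersurface `{0} × X` of a function `f` on `ℂ × X`. -/
noncomputable def lead {X : Type*} (k : ℕ) (f : ℂ × X → ℂ) (y : X) : ℂ :=
  ((k ! : ℕ) : ℂ)⁻¹ * iteratedDeriv k (fun ζ : ℂ => f (ζ, y)) 0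

/-- Proof. `chart_comp_fderiv` at `0`; the dimensions give the second statement. -/
theorem exists_linear' {n q : ℕ} {U : Type*} [TopologicalSpace U] [ChartedSpace (Fin n → ℂ) U]
    [IsManifold 𝓘(ℂ, Fin n → ℂ) ω U] (h : ℂ × (Fin q → ℂ) → U)
    (hh : IsLocalDiffeomorphAt 𝓘(ℂ, ℂ × (Fin q → ℂ)) 𝓘(ℂ, Fin n → ℂ) ω h 0) :
    Nonempty ((ℂ × (Fin q → ℂ)) ≃L[ℂ] (Fin n → ℂ)) ∧ n = q + 1 := by
  obtain ⟨A, -⟩ := chart_comp_fderiv h 0 hh (chartAt (Fin n → ℂ) (h 0)) (chart_mem_atlas _ _)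
    (mem_chart_source _ _)
  refine ⟨⟨A⟩, ?_⟩
  have h1 := A.toLinearEquiv.finrank_eq
  rw [Module.finrank_prod, Module.finrank_self, Module.finrank_fin_fun, Module.finrank_fin_fun] at h1
  omega

/-- Proof. `exists_divisor` with `F = ℂ × (Fin q → ℂ)`, `Φ = h`, `G = L.symm`, `ℓ = fst ∘ L.symm`,
`a = 1`: `L ∘ fderiv G y = id`, of determinant `1`, which is not `O(ℓ y)` at `0`. Second part:
`mem_sub_of_isBigO`. -/
theorem exists_divisor_hyper {n q : ℕ} {U : Type*} [TopologicalSpace U]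
    [ChartedSpace (Fin n → ℂ) U] [IsManifold 𝓘(ℂ, Fin n → ℂ) ω U]
    (L : (ℂ × (Fin q → ℂ)) ≃L[ℂ] (Fin n → ℂ)) (h : ℂ × (Fin q → ℂ) → U)
    (hh : IsLocalDiffeomorphAt 𝓘(ℂ, ℂ × (Fin q → ℂ)) 𝓘(ℂ, Fin n → ℂ) ω h 0) :
    ∃ D : DivisorOver n U, D.logDiscrepancy ≤ 1 ∧
      ∀ (m K : ℕ) (s : antiSections n U m),
        (pull L h s =O[𝓝 0] fun y => y.1 ^ K) → s ∈ D.sub m K := by
  have hG : AnalyticAt ℂ (fun y : Fin n → ℂ => L.symm y) 0 :=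
    (L.symm : (Fin n → ℂ) →L[ℂ] (ℂ × (Fin q → ℂ))).analyticAt 0
  have hG0 : L.symm (0 : Fin n → ℂ) = 0 := map_zero _
  have hΦ : IsLocalDiffeomorphAt 𝓘(ℂ, ℂ × (Fin q → ℂ)) 𝓘(ℂ, Fin n → ℂ) ω h
      ((fun y : Fin n → ℂ => L.symm y) 0) := by
    show IsLocalDiffeomorphAt 𝓘(ℂ, ℂ × (Fin q → ℂ)) 𝓘(ℂ, Fin n → ℂ) ω h (L.symm 0)
    rw [hG0]
    exact hh
  obtain ⟨ℓ, hℓ⟩ : ∃ ℓ : (Fin n → ℂ) →L[ℂ] ℂ, ℓ = (ContinuousLinearMap.fst ℂ ℂ (Fin q → ℂ)) ∘L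
      (L.symm : (Fin n → ℂ) →L[ℂ] (ℂ × (Fin q → ℂ))) := ⟨_, rfl⟩
  have hℓa : ∀ y, ℓ y = (L.symm y).1 := fun y => by rw [hℓ]; rfl
  have hℓ0 : ℓ ≠ 0 := by
    intro h0
    have h1 := hℓa (L (1, 0))
    rw [h0, L.symm_apply_apply] at h1
    exact zero_ne_one h1
  have hdet : ¬ ((fun y => ((L : (ℂ × (Fin q → ℂ)) →L[ℂ] (Fin n → ℂ)) ∘L
      fderiv ℂ (fun y : Fin n → ℂ => L.symm y) y).det) =O[𝓝 0] fun y => ℓ y ^ 1) := by
    have h1 : ∀ y, ((L : (ℂ × (Fin q → ℂ)) →L[ℂ] (Fin n → ℂ)) ∘L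
        fderiv ℂ (fun y : Fin n → ℂ => L.symm y) y).det = 1 := by
      intro y
      have h2 : fderiv ℂ (fun y : Fin n → ℂ => L.symm y) y =
          (L.symm : (Fin n → ℂ) →L[ℂ] (ℂ × (Fin q → ℂ))) :=
        (L.symm : (Fin n → ℂ) →L[ℂ] (ℂ × (Fin q → ℂ))).hasFDerivAt.fderiv
      have h3 : (L : (ℂ × (Fin q → ℂ)) →L[ℂ] (Fin n → ℂ)) ∘L
          (L.symm : (Fin n → ℂ) →L[ℂ] (ℂ × (Fin q → ℂ))) =
          ContinuousLinearMap.id ℂ (Fin n → ℂ) := by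
        ext1 v
        exact L.apply_symm_apply v
      rw [h2, h3]
      exact LinearMap.det_id
    simp only [h1]
    intro h2
    obtain ⟨C, hC⟩ := h2.bound
    have h3 := hC.self_of_nhds
    rw [map_zero, pow_one, norm_zero, mul_zero, norm_one] at h3
    linarith
  obtain ⟨D, hD1, hD2, hD3⟩ := exists_divisor L h (fun y : Fin n → ℂ => L.symm y) hG hΦ ℓ hℓ0 1 hdet
  refine ⟨D, hD3, fun m K s hs => ?_⟩
  refine mem_sub_of_isBigO L h (fun y : Fin n → ℂ => L.symm y) hG hΦ D hD1 s ?_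
  have ht : Tendsto (fun y : Fin n → ℂ => L.symm y) (𝓝 0) (𝓝 0) := by
    have h1 := L.symm.continuous.tendsto (0 : Fin n → ℂ)
    rw [hG0] at h1
    exact h1
  have h2 := hs.comp_tendsto ht
  have h3 : (fun y => D.ℓ y ^ K) = ((fun y : ℂ × (Fin q → ℂ) => y.1 ^ K) ∘
      fun y : Fin n → ℂ => L.symm y) := by
    funext y
    rw [hD2, hℓa]
    rfl
  rw [h3]
  exact h2

theorem f1_van {X : Type*} [NormedAddCommGroup X] [NormedSpace ℂ X] (k : ℕ)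
    (f : ℂ × X → ℂ) (hf : AnalyticAt ℂ f 0) (hO : f =O[𝓝 0] fun y => y.1 ^ k) :
    ∀ᶠ x in 𝓝 (0 : X), AnalyticAt ℂ f (0, x) ∧
      ∀ j < k, iteratedDeriv j (fun ζ : ℂ => f (ζ, x)) 0 = 0 := by
  obtain ⟨C, hC⟩ := hO.bound
  have ht : Tendsto (fun x : X => ((0 : ℂ), x)) (𝓝 0) (𝓝 (0 : ℂ × X)) :=
    (Continuous.prodMk_right (0 : ℂ)).tendsto' 0 0 rfl
  filter_upwards [ht.eventually hC.eventually_nhds, ht.eventually hf.eventually_analyticAt]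
    with x hx1 hx2
  refine ⟨hx2, ?_⟩
  have h1 : AnalyticAt ℂ (fun ζ : ℂ => f (ζ, x)) 0 := by
    have h2 : AnalyticAt ℂ (fun ζ : ℂ => (ζ, x)) 0 := analyticAt_id.prod analyticAt_const
    exact AnalyticAt.comp' (g := f) (f := fun ζ : ℂ => (ζ, x)) hx2 h2
  refine iteratedDeriv_eq_zero_of_isBigO _ h1 k ?_
  have ht2 : Tendsto (fun ζ : ℂ => (ζ, x)) (𝓝 0) (𝓝 ((0 : ℂ), x)) :=
    (Continuous.prodMk_left x).tendsto' 0 _ rfl
  refine IsBigO.of_bound C ?_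
  exact ht2.eventually hx1

/-- Proof. For `y` near `0`, `f (ζ, y) = O(ζ^k)` as `ζ → 0`, so the derivatives of order `< k` of
`ζ ↦ f (ζ, y)` at `0` vanish (`iteratedDeriv_eq_zero_of_isBigO`), and that of order `k` vanishes by
hypothesis. `isBigO_pow_of_iteratedDeriv` with `k + 1`. -/
theorem isBigO_succ_of_lead {X : Type*} [NormedAddCommGroup X] [NormedSpace ℂ X] (k : ℕ)
    (f : ℂ × X → ℂ) (hf : AnalyticAt ℂ f 0) (hO : f =O[𝓝 0] fun y => y.1 ^ k)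
    (h : ∀ᶠ y in 𝓝 (0 : X), lead k f y = 0) : f =O[𝓝 0] fun y => y.1 ^ (k + 1) := by
  refine isBigO_pow_of_iteratedDeriv f 0 hf (k + 1) ?_
  filter_upwards [f1_van k f hf hO, h] with x hx1 hx2
  intro j hj
  rcases Nat.lt_succ_iff_lt_or_eq.mp hj with h1 | h1
  · exact hx1.2 j h1
  · rw [h1]
    unfold lead at hx2
    rcases mul_eq_zero.mp hx2 with h2 | h2
    · exact absurd h2 (inv_ne_zero (Nat.cast_ne_zero.mpr (Nat.factorial_ne_zero k)))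
    · exact h2

/-- Proof. `tendsto_leading` at `x₀ = 0 : X` needs base points tending to `0`; here the base point `y₀` is any
point near `0`: for `y₀` in a suitable neighbourhood of `0`, `f` is analytic at `(0, y₀)` and the
derivatives of order `< k` vanish near `y₀`, so `tendsto_leading` applies at `y₀`. -/
theorem tendsto_lead {X : Type*} [NormedAddCommGroup X] [NormedSpace ℂ X] (k : ℕ)
    (f : ℂ × X → ℂ) (hf : AnalyticAt ℂ f 0) (hO : f =O[𝓝 0] fun y => y.1 ^ k) :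
    ∀ᶠ y₀ in 𝓝 (0 : X), ∀ (ζ : ℂ → ℂ) (y : ℂ → X), Tendsto ζ (𝓝[≠] 0) (𝓝 0) →
      (∀ᶠ t in 𝓝[≠] (0 : ℂ), ζ t ≠ 0) → Tendsto y (𝓝[≠] 0) (𝓝 y₀) →
      Tendsto (fun t => (ζ t ^ k)⁻¹ * f (ζ t, y t)) (𝓝[≠] 0) (𝓝 (lead k f y₀)) := by
  filter_upwards [(f1_van k f hf hO).eventually_nhds] with y₀ hy₀ ζ y hζ hζ0 hy
  exact tendsto_leading f y₀ hy₀.self_of_nhds.1 k (hy₀.mono fun x hx => hx.2) (𝓝[≠] (0 : ℂ)) ζ y
    hζ hζ0 hy

end Pool.Agent.Lib.H88V
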