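import Pool.Agent.Lib.H88V.A5
import Pool.Agent.Lib.H88V.B5
import Pool.Agent.Lib.H88V.F1

/-!
# Project H88V, chunk F2: a curve inside the hypersurface germ, local computation
-/

open scoped Manifold ContDiff Topology Nat
open Filter Asymptotics Set

namespace Pool.Agent.Lib.H88V

/-- Proof. The local inverse of `h` composed with `C.Φ₀` (`exists_local_inverse`), invertible derivative by
`chart_comp_fderiv` for both and the chain rule. Near `z = 0`,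
`h (0, γ z) = C.Φ₀ (z, 0, 0) = h (Θ (z, 0, 0))` and both arguments are near `0`, where `h` is injective. -/
theorem exists_transition {n q : ℕ} {U : Type*} [TopologicalSpace U]
    [ChartedSpace (Fin n → ℂ) U] [IsManifold 𝓘(ℂ, Fin n → ℂ) ω U] {p c : ℕ}
    (C : StandardCurve n U p c) (h : ℂ × (Fin q → ℂ) → U)
    (hh : IsLocalDiffeomorphAt 𝓘(ℂ, ℂ × (Fin q → ℂ)) 𝓘(ℂ, Fin n → ℂ) ω h 0)
    (γ : ℂ → Fin q → ℂ) (hγ : AnalyticAt ℂ γ 0) (hγ0 : γ 0 = 0)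
    (hC : ∀ᶠ z in 𝓝 (0 : ℂ), C.Φ₀ (z, 0, 0) = h (0, γ z)) :
    ∃ Θ : Tube p c → ℂ × (Fin q → ℂ), AnalyticAt ℂ Θ 0 ∧ Θ 0 = 0 ∧
      C.Φ₀ =ᶠ[𝓝 0] h ∘ Θ ∧ (∀ᶠ z in 𝓝 (0 : ℂ), Θ (z, 0, 0) = (0, γ z)) ∧
      ∃ A : Tube p c ≃L[ℂ] (ℂ × (Fin q → ℂ)), fderiv ℂ Θ 0 = (A : Tube p c →L[ℂ] _) := by
  have h00 : C.Φ₀ 0 = h 0 := by
    have h1 := hC.self_of_nhds
    rw [hγ0] at h1
    exact h1
  have hb : IsLocalDiffeomorphAt 𝓘(ℂ, Tube p c) 𝓘(ℂ, Fin n → ℂ) ω C.Φ₀ 0 := C.bihol₀ 0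
  have he : chartAt (Fin n → ℂ) (h 0) ∈ atlas (Fin n → ℂ) U := chart_mem_atlas _ _
  have hs : h 0 ∈ (chartAt (Fin n → ℂ) (h 0)).source := mem_chart_source _ _
  have hs' : C.Φ₀ 0 ∈ (chartAt (Fin n → ℂ) (h 0)).source := by
    rw [h00]
    exact hs
  obtain ⟨Ψ, hΨ, hΨ0, hΨ1, hΨ2⟩ := exists_local_inverse h 0 hh (chartAt (Fin n → ℂ) (h 0)) he hs
  have hc : AnalyticAt ℂ (fun x => chartAt (Fin n → ℂ) (h 0) (C.Φ₀ x)) 0 :=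
    chart_comp_analyticAt C.Φ₀ 0 hb.contMDiffAt _ he hs'
  have hc' : AnalyticAt ℂ (fun x => chartAt (Fin n → ℂ) (h 0) (h x)) 0 :=
    chart_comp_analyticAt h 0 hh.contMDiffAt _ he hs
  obtain ⟨A₁, hA₁⟩ := chart_comp_fderiv C.Φ₀ 0 hb (chartAt (Fin n → ℂ) (h 0)) he hs'
  obtain ⟨A₂, hA₂⟩ := chart_comp_fderiv h 0 hh (chartAt (Fin n → ℂ) (h 0)) he hs
  have hΨ' : AnalyticAt ℂ Ψ (chartAt (Fin n → ℂ) (h 0) (C.Φ₀ 0)) := by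
    rw [h00]
    exact hΨ
  have hcont : ContinuousAt C.Φ₀ 0 := hb.contMDiffAt.continuousAt
  have hΘ : AnalyticAt ℂ (fun x => Ψ (chartAt (Fin n → ℂ) (h 0) (C.Φ₀ x))) 0 :=
    AnalyticAt.fun_comp hΨ' hc
  refine ⟨fun x => Ψ (chartAt (Fin n → ℂ) (h 0) (C.Φ₀ x)), hΘ, ?_, ?_, ?_, ?_⟩
  · change Ψ (chartAt (Fin n → ℂ) (h 0) (C.Φ₀ 0)) = 0
    rw [h00, hΨ0]
  · have h1 : Tendsto C.Φ₀ (𝓝 0) (𝓝 (h 0)) := by
      rw [← h00]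
      exact hcont
    filter_upwards [h1.eventually hΨ2] with x hx
    exact hx.symm
  · have h1 : Tendsto (fun z : ℂ => ((0 : ℂ), γ z)) (𝓝 0) (𝓝 0) := by
      have h2 : Tendsto γ (𝓝 0) (𝓝 0) := by
        have h3 := hγ.continuousAt.tendsto
        rw [hγ0] at h3
        exact h3
      have h4 : Tendsto (fun z : ℂ => ((0 : ℂ), γ z)) (𝓝 0) (𝓝 ((0 : ℂ), (0 : Fin q → ℂ))) :=
        tendsto_const_nhds.prodMk_nhds h2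
      exact h4
    filter_upwards [h1.eventually hΨ1, hC] with z hz hz'
    rw [hz']
    exact hz
  · refine ⟨A₁.trans A₂.symm, ?_⟩
    have h1 : fderiv ℂ Ψ (chartAt (Fin n → ℂ) (h 0) (h 0)) = (A₂.symm : (Fin n → ℂ) →L[ℂ] _) := by
      have h2 : HasFDerivAt (fun x => Ψ (chartAt (Fin n → ℂ) (h 0) (h x)))
          ((fderiv ℂ Ψ (chartAt (Fin n → ℂ) (h 0) (h 0))).comp (A₂ : _ →L[ℂ] (Fin n → ℂ))) 0 := by
        rw [← hA₂]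
        exact HasFDerivAt.comp (0 : ℂ × (Fin q → ℂ)) hΨ.differentiableAt.hasFDerivAt
          hc'.differentiableAt.hasFDerivAt
      have h3 : HasFDerivAt (fun x => Ψ (chartAt (Fin n → ℂ) (h 0) (h x)))
          (ContinuousLinearMap.id ℂ (ℂ × (Fin q → ℂ))) 0 := by
        refine (hasFDerivAt_id _).congr_of_eventuallyEq ?_
        filter_upwards [hΨ1] with x hx
        exact hx
      have h4 := h2.unique h3
      ext1 y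
      have h5 := congrArg (fun B : (ℂ × (Fin q → ℂ)) →L[ℂ] (ℂ × (Fin q → ℂ)) => B (A₂.symm y)) h4
      simpa using h5
    have h2 : HasFDerivAt (fun x => Ψ (chartAt (Fin n → ℂ) (h 0) (C.Φ₀ x)))
        ((fderiv ℂ Ψ (chartAt (Fin n → ℂ) (h 0) (C.Φ₀ 0))).comp (A₁ : _ →L[ℂ] (Fin n → ℂ))) 0 := by
      rw [← hA₁]
      exact HasFDerivAt.comp (0 : Tube p c) hΨ'.differentiableAt.hasFDerivAt
        hc.differentiableAt.hasFDerivAt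
    rw [h2.fderiv, h00, h1]
    rfl

/-- The Taylor coefficients of an analytic function from the limit of its quotient by a power. -/
theorem iteratedDeriv_of_limit (g : ℂ → ℂ) (hg : AnalyticAt ℂ g 0) (k : ℕ) (A : ℂ)
    (hl : Tendsto (fun ζ : ℂ => (ζ ^ k)⁻¹ * g ζ) (𝓝[≠] 0) (𝓝 A)) :
    (∀ j < k, iteratedDeriv j g 0 = 0) ∧ ((k ! : ℕ) : ℂ)⁻¹ * iteratedDeriv k g 0 = A := by
  have h1 : (fun ζ : ℂ => (ζ ^ k)⁻¹ * g ζ) =O[𝓝[≠] 0] fun _ => (1 : ℂ) := hl.isBigO_one ℂ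
  have hne : ∀ᶠ ζ in 𝓝[≠] (0 : ℂ), ζ ≠ 0 := eventually_mem_nhdsWithin
  have h2 : g =O[𝓝[≠] 0] fun ζ => ζ ^ k := by
    have h3 := (isBigO_refl (fun ζ : ℂ => ζ ^ k) (𝓝[≠] 0)).mul h1
    refine (h3.congr' ?_ ?_)
    · filter_upwards [hne] with ζ hζ
      rw [← mul_assoc, mul_inv_cancel₀ (pow_ne_zero k hζ), one_mul]
    · exact Eventually.of_forall fun ζ => by simp
  have h3 : g =O[𝓝 0] fun ζ => ζ ^ k := by
    rw [← nhdsNE_sup_pure, isBigO_sup]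
    refine ⟨h2, ?_⟩
    by_cases hk : k = 0
    · subst hk
      have h4 : g =O[𝓝 0] fun _ => (1 : ℂ) := hg.continuousAt.tendsto.isBigO_one ℂ
      simpa using h4.mono (pure_le_nhds 0)
    · have h4 : g 0 = 0 := by
        have h5 : Tendsto g (𝓝[≠] 0) (𝓝 (g 0)) :=
          hg.continuousAt.tendsto.mono_left nhdsWithin_le_nhds
        have h6 : Tendsto (fun ζ : ℂ => ζ ^ k) (𝓝[≠] 0) (𝓝 0) := by
          have h7 : Tendsto (fun ζ : ℂ => ζ ^ k) (𝓝 0) (𝓝 (0 ^ k)) := (continuous_pow k).tendsto 0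
          rw [zero_pow hk] at h7
          exact h7.mono_left nhdsWithin_le_nhds
        exact tendsto_nhds_unique h5 (h2.trans_tendsto h6)
      refine IsBigO.of_bound 1 ?_
      simp [h4]
  have h4 : ∀ j < k, iteratedDeriv j g 0 = 0 := iteratedDeriv_eq_zero_of_isBigO g hg k h3
  refine ⟨h4, ?_⟩
  have h5 := tendsto_leading (X := ℂ) (fun q => g q.1) 0
    (AnalyticAt.fun_comp (g := g) (f := fun q : ℂ × ℂ => q.1) hg analyticAt_fst) k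
    (Eventually.of_forall fun _ => h4) (𝓝[≠] 0) (fun ζ : ℂ => ζ) (fun _ => (0 : ℂ))
    (tendsto_id.mono_left nhdsWithin_le_nhds) hne tendsto_const_nhds
  exact tendsto_nhds_unique h5 hl

theorem coef_of_limit {p c : ℕ} (τ : Tube p c → ℂ) (z : ℂ) (v : Fin p → ℂ) (w : Fin c → ℂ)
    (k : ℕ) (A : ℂ) (hg : AnalyticAt ℂ (fun ζ : ℂ => τ (z, ζ ^ 1 • v, ζ ^ 1 • w)) 0)
    (hl : Tendsto (fun ζ : ℂ => (ζ ^ k)⁻¹ * τ (z, ζ ^ 1 • v, ζ ^ 1 • w)) (𝓝[≠] 0) (𝓝 A)) :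
    (∀ j < k, coef 1 1 j τ (z, v, w) = 0) ∧ coef 1 1 k τ (z, v, w) = A := by
  obtain ⟨h1, h2⟩ := iteratedDeriv_of_limit _ hg k A hl
  refine ⟨fun j hj => ?_, h2⟩
  unfold coef
  simp only
  rw [h1 j hj, mul_zero]

/-- Local computation along the curve. Proof. For `z` near `0` and all `(v, w)`: `ζ ↦ Θ (z, ζ v, ζ w)` has
first component `β(ζ) = ζ * D + O(ζ^2)`, `D = (fderiv ℂ Θ (z,0,0) (0, v, w)).1` (its value at `ζ = 0` is `0`),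
and second component tending to `γ z`. So `τ (z, ζ v, ζ w) = κ(…) f (Θ (z, ζ v, ζ w)) = O(β(ζ)^k) = O(ζ^k)`,
whence `coef 1 1 j τ (z, v, w) = 0` for `j < k` (`iteratedDeriv_eq_zero_of_isBigO`), and
`(ζ^k)⁻¹ τ (z, ζ v, ζ w) → κ (z,0,0) D^k lead k f (γ z)`: if `D ≠ 0` by `tendsto_lead`
(`β(ζ) ≠ 0` for small `ζ ≠ 0`, `β(ζ)/ζ → D`); if `D = 0` then `β(ζ)^k = O(ζ^(2k))` and both sides are `0` for
`k ≥ 1`; for `k = 0`, `lead 0 f (γ z) = f (0, γ z)` and use continuity. The limit is also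
`coef 1 1 k τ (z, v, w)` (Taylor expansion of `ζ ↦ τ (z, ζ v, ζ w)`, e.g. `tendsto_leading` with
`X = Unit`). -/
theorem coef_local {p c q : ℕ} (τ κ : Tube p c → ℂ) (f : ℂ × (Fin q → ℂ) → ℂ)
    (Θ : Tube p c → ℂ × (Fin q → ℂ)) (γ : ℂ → Fin q → ℂ) (k : ℕ)
    (hτ : AnalyticAt ℂ τ 0) (hf : AnalyticAt ℂ f 0) (hΘ : AnalyticAt ℂ Θ 0) (hΘ0 : Θ 0 = 0)
    (hγ : ∀ᶠ z in 𝓝 (0 : ℂ), Θ (z, 0, 0) = (0, γ z)) (hκ : ∀ᶠ x in 𝓝 (0 : Tube p c), ContinuousAt κ x)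
    (hO : f =O[𝓝 0] fun y => y.1 ^ k)
    (h : ∀ᶠ x in 𝓝 (0 : Tube p c), τ x = κ x * f (Θ x)) :
    ∀ᶠ z in 𝓝 (0 : ℂ), ∀ v w,
      (∀ j < k, coef 1 1 j τ (z, v, w) = 0) ∧
      coef 1 1 k τ (z, v, w) =
        κ (z, 0, 0) * (fderiv ℂ Θ (z, 0, 0) (0, v, w)).1 ^ k * lead k f (γ z) := by
  have hemb : Tendsto (fun z : ℂ => ((z, 0, 0) : Tube p c)) (𝓝 0) (𝓝 0) := by
    have h1 : Continuous (fun z : ℂ => ((z, 0, 0) : Tube p c)) := by fun_prop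
    exact h1.tendsto 0
  have hΘc : Tendsto Θ (𝓝 0) (𝓝 0) := by
    have h1 := hΘ.continuousAt.tendsto
    rw [hΘ0] at h1
    exact h1
  have hΘz : Tendsto (fun z : ℂ => Θ (z, 0, 0)) (𝓝 0) (𝓝 0) := hΘc.comp hemb
  have hγz : Tendsto γ (𝓝 0) (𝓝 0) := by
    have h1 : Tendsto (fun z : ℂ => (Θ (z, 0, 0)).2) (𝓝 0) (𝓝 0) :=
      (continuous_snd.tendsto (0 : ℂ × (Fin q → ℂ))).comp hΘz
    refine h1.congr' ?_
    filter_upwards [hγ] with z hz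
    rw [hz]
  obtain ⟨B, hB⟩ := hO.bound
  have e1 := hemb.eventually hτ.eventually_analyticAt
  have e2 := hemb.eventually (eventually_eventually_nhds.2 h)
  have e3 := hemb.eventually hΘ.eventually_analyticAt
  have e4 := hemb.eventually hκ
  have e6 := hΘz.eventually hf.eventually_analyticAt
  have e7 := hΘz.eventually (eventually_eventually_nhds.2 hB)
  have e8 := hγz.eventually (tendsto_lead k f hf hO)
  filter_upwards [e1, e2, e3, e4, hγ, e6, e7, e8] with z h1 h2 h3 h4 h5 h6 h7 h8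
  intro v w
  -- the weighted line
  have hP : Tendsto (fun ζ : ℂ => ((z, ζ ^ 1 • v, ζ ^ 1 • w) : Tube p c)) (𝓝 0) (𝓝 (z, 0, 0)) := by
    have hc : Continuous (fun ζ : ℂ => ((z, ζ ^ 1 • v, ζ ^ 1 • w) : Tube p c)) := by fun_prop
    have := hc.tendsto 0
    simpa using this
  have hPa : AnalyticAt ℂ (fun ζ : ℂ => ((z, ζ ^ 1 • v, ζ ^ 1 • w) : Tube p c)) 0 := by
    fun_prop
  have hP0 : ((z, (0 : ℂ) ^ 1 • v, (0 : ℂ) ^ 1 • w) : Tube p c) = (z, 0, 0) := by simp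
  have hg : AnalyticAt ℂ (fun ζ : ℂ => τ (z, ζ ^ 1 • v, ζ ^ 1 • w)) 0 := by
    refine AnalyticAt.fun_comp (g := τ) ?_ hPa
    simpa using h1
  have hΘP : AnalyticAt ℂ (fun ζ : ℂ => Θ (z, ζ ^ 1 • v, ζ ^ 1 • w)) 0 := by
    refine AnalyticAt.fun_comp (g := Θ) ?_ hPa
    simpa using h3
  have hder : HasDerivAt (fun ζ : ℂ => (Θ (z, ζ ^ 1 • v, ζ ^ 1 • w)).1)
      ((fderiv ℂ Θ (z, 0, 0) (0, v, w)).1) 0 := by
    have k1 : HasDerivAt (fun ζ : ℂ => ((z, ζ ^ 1 • v, ζ ^ 1 • w) : Tube p c)) (0, v, w) 0 := by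
      refine (hasDerivAt_const _ _).prodMk (HasDerivAt.prodMk ?_ ?_)
      · simpa using ((hasDerivAt_id (0 : ℂ)).smul_const v)
      · simpa using ((hasDerivAt_id (0 : ℂ)).smul_const w)
    have k2 : HasFDerivAt Θ (fderiv ℂ Θ (z, 0, 0)) ((z, (0 : ℂ) ^ 1 • v, (0 : ℂ) ^ 1 • w) : Tube p c) := by
      rw [hP0]
      exact h3.differentiableAt.hasFDerivAt
    have k3 := k2.comp_hasDerivAt (0 : ℂ) k1
    exact k3.fst
  have hβ0 : (Θ (z, (0 : ℂ) ^ 1 • v, (0 : ℂ) ^ 1 • w)).1 = 0 := by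
    rw [hP0, h5]
  have hslope : Tendsto (fun ζ : ℂ => ζ⁻¹ * (Θ (z, ζ ^ 1 • v, ζ ^ 1 • w)).1) (𝓝[≠] 0)
      (𝓝 (fderiv ℂ Θ (z, 0, 0) (0, v, w)).1) := by
    have k1 := hder.tendsto_slope_zero
    refine k1.congr fun ζ => ?_
    simp only [zero_add, smul_eq_mul]
    rw [hβ0, sub_zero]
  have hΘt : Tendsto (fun ζ : ℂ => Θ (z, ζ ^ 1 • v, ζ ^ 1 • w)) (𝓝[≠] 0) (𝓝 (0, γ z)) := by
    have k1 := hΘP.continuousAt.tendsto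
    simp only [hP0, h5] at k1
    exact k1.mono_left nhdsWithin_le_nhds
  have hβt : Tendsto (fun ζ : ℂ => (Θ (z, ζ ^ 1 • v, ζ ^ 1 • w)).1) (𝓝[≠] 0) (𝓝 0) :=
    (continuous_fst.tendsto ((0 : ℂ), γ z)).comp hΘt
  have hyt : Tendsto (fun ζ : ℂ => (Θ (z, ζ ^ 1 • v, ζ ^ 1 • w)).2) (𝓝[≠] 0) (𝓝 (γ z)) :=
    (continuous_snd.tendsto ((0 : ℂ), γ z)).comp hΘt
  have hκt : Tendsto (fun ζ : ℂ => κ (z, ζ ^ 1 • v, ζ ^ 1 • w)) (𝓝[≠] 0) (𝓝 (κ (z, 0, 0))) :=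
    (h4.tendsto.comp hP).mono_left nhdsWithin_le_nhds
  have hfac : ∀ᶠ ζ in 𝓝[≠] (0 : ℂ), τ (z, ζ ^ 1 • v, ζ ^ 1 • w) =
      κ (z, ζ ^ 1 • v, ζ ^ 1 • w) * f (Θ (z, ζ ^ 1 • v, ζ ^ 1 • w)) :=
    (hP.eventually h2).filter_mono nhdsWithin_le_nhds
  have hne : ∀ᶠ ζ in 𝓝[≠] (0 : ℂ), ζ ≠ 0 := eventually_mem_nhdsWithin
  have hlim : Tendsto (fun ζ : ℂ => (ζ ^ k)⁻¹ * τ (z, ζ ^ 1 • v, ζ ^ 1 • w)) (𝓝[≠] 0)
      (𝓝 (κ (z, 0, 0) * (fderiv ℂ Θ (z, 0, 0) (0, v, w)).1 ^ k * lead k f (γ z))) := by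
    by_cases hD : (fderiv ℂ Θ (z, 0, 0) (0, v, w)).1 = 0
    · by_cases hk : k = 0
      · subst hk
        have k1 : Tendsto (fun ζ : ℂ => f (Θ (z, ζ ^ 1 • v, ζ ^ 1 • w))) (𝓝[≠] 0)
            (𝓝 (f (0, γ z))) := by
          rw [h5] at h6
          exact h6.continuousAt.tendsto.comp hΘt
        have k2 : lead 0 f (γ z) = f (0, γ z) := by
          simp [lead]
        rw [k2, pow_zero, mul_one]
        refine (hκt.mul k1).congr' ?_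
        filter_upwards [hfac] with ζ hζ
        rw [hζ, pow_zero, inv_one, one_mul]
      · rw [hD, zero_pow hk, mul_zero, zero_mul]
        rw [hD] at hslope
        have k1 : ∀ᶠ ζ in 𝓝[≠] (0 : ℂ), ‖f (Θ (z, ζ ^ 1 • v, ζ ^ 1 • w))‖ ≤
            B * ‖(Θ (z, ζ ^ 1 • v, ζ ^ 1 • w)).1 ^ k‖ := by
          rw [h5] at h7
          exact hΘt.eventually h7
        have k2 : Tendsto (fun ζ : ℂ => ‖κ (z, ζ ^ 1 • v, ζ ^ 1 • w)‖ *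
            (B * ‖ζ⁻¹ * (Θ (z, ζ ^ 1 • v, ζ ^ 1 • w)).1‖ ^ k)) (𝓝[≠] 0) (𝓝 0) := by
          have k3 := hκt.norm.mul ((hslope.norm.pow k).const_mul B)
          simpa [hk] using k3
        refine squeeze_zero_norm' ?_ k2
        filter_upwards [hfac, k1, hne] with ζ m1 m2 m3
        rw [m1, norm_mul, norm_mul, norm_inv, norm_pow, norm_mul, norm_inv, mul_pow]
        rw [norm_pow] at m2
        have m4 : 0 < ‖ζ‖ := norm_pos_iff.2 m3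
        calc (‖ζ‖ ^ k)⁻¹ * (‖κ (z, ζ ^ 1 • v, ζ ^ 1 • w)‖ * ‖f (Θ (z, ζ ^ 1 • v, ζ ^ 1 • w))‖)
            ≤ (‖ζ‖ ^ k)⁻¹ * (‖κ (z, ζ ^ 1 • v, ζ ^ 1 • w)‖ *
              (B * ‖(Θ (z, ζ ^ 1 • v, ζ ^ 1 • w)).1‖ ^ k)) := by gcongr
          _ = ‖κ (z, ζ ^ 1 • v, ζ ^ 1 • w)‖ *
              (B * (‖ζ‖⁻¹ ^ k * ‖(Θ (z, ζ ^ 1 • v, ζ ^ 1 • w)).1‖ ^ k)) := by
              rw [inv_pow]
              ring
    · have k1 : ∀ᶠ ζ in 𝓝[≠] (0 : ℂ), (Θ (z, ζ ^ 1 • v, ζ ^ 1 • w)).1 ≠ 0 := by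
        filter_upwards [hslope.eventually_ne hD] with ζ m1 m2
        exact m1 (by rw [m2, mul_zero])
      have k2 := h8 (fun ζ => (Θ (z, ζ ^ 1 • v, ζ ^ 1 • w)).1)
        (fun ζ => (Θ (z, ζ ^ 1 • v, ζ ^ 1 • w)).2) hβt k1 hyt
      refine ((hκt.mul (hslope.pow k)).mul k2).congr' ?_
      filter_upwards [hfac, k1, hne] with ζ m1 m2 m3
      rw [m1]
      simp only [Prod.mk.eta]
      have m4 : (Θ (z, ζ ^ 1 • v, ζ ^ 1 • w)).1 ^ k ≠ 0 := pow_ne_zero k m2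
      rw [mul_pow, inv_pow]
      calc κ (z, ζ ^ 1 • v, ζ ^ 1 • w) * ((ζ ^ k)⁻¹ * (Θ (z, ζ ^ 1 • v, ζ ^ 1 • w)).1 ^ k) *
            (((Θ (z, ζ ^ 1 • v, ζ ^ 1 • w)).1 ^ k)⁻¹ * f (Θ (z, ζ ^ 1 • v, ζ ^ 1 • w)))
          = (ζ ^ k)⁻¹ * (κ (z, ζ ^ 1 • v, ζ ^ 1 • w) * f (Θ (z, ζ ^ 1 • v, ζ ^ 1 • w))) *
            ((Θ (z, ζ ^ 1 • v, ζ ^ 1 • w)).1 ^ k *
              ((Θ (z, ζ ^ 1 • v, ζ ^ 1 • w)).1 ^ k)⁻¹) := by ring
        _ = _ := by rw [mul_inv_cancel₀ m4, mul_one]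
  exact coef_of_limit τ z v w k _ hg hlim

end Pool.Agent.Lib.H88V
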