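import Pool.Agent.Lib.H88V.F2
import Pool.Agent.Lib.H88V.H1

/-!
# Project H88V, chunk F3: the leading coefficient along the hypersurface germ
-/

open scoped Manifold ContDiff Topology Nat
open Filter Asymptotics Set

namespace Pool.Agent.Lib.H88V

/-- The identity theorem in the variable `z`. Proof. `z ↦ coef a b j τ (z, v, w)` is entire
(`coef_analyticAt`) and vanishes near `0` (`AnalyticOnNhd.eq_of_eventuallyEq`, `ℂ` connected). -/
theorem coef_eq_zero_of_eventually {p c : ℕ} (a b j : ℕ) (ha : 1 ≤ a) (hb : 1 ≤ b)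
    (τ : Tube p c → ℂ) (hτ : ∀ z : ℂ, AnalyticAt ℂ τ (z, 0, 0)) (v : Fin p → ℂ) (w : Fin c → ℂ)
    (h : ∀ᶠ z in 𝓝 (0 : ℂ), coef a b j τ (z, v, w) = 0) : ∀ z, coef a b j τ (z, v, w) = 0 := by
  sorry

/-- A section of order `k` along the hypersurface germ whose leading coefficient has order `> m n` at
`h 0` along a standard curve of degree `≤ n` in the germ: the leading coefficient vanishes on the curve.

Proof. Let `Θ` be from `exists_transition`, `L'` from `exists_linear C`, `τ = pull L' C.Φ₀ s`,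
`f = pull L h s`. Near `0`, `τ x = κ x * f (Θ x)` with `κ x = (det (L ∘ DΘ x ∘ L'.symm)^m)⁻¹`
(`pull_comp'`), continuous near `0`, `κ 0 ≠ 0`. By `coef_local` and
`coef_eq_zero_of_eventually`, `coef 1 1 j τ = 0` for `j < k`. Let `(v, w)` be such that
`D₀ = (fderiv ℂ Θ 0 (0, v, w)).1 ≠ 0`: it exists since `fderiv Θ 0` is onto and
`(fderiv Θ 0 (1, 0, 0)).1 = 0` (derivative of `(Θ (z,0,0)).1 = 0`). The entire function
`u z = coef 1 1 k τ (z, v, w) = κ (z,0,0) D(z)^k lead k f (γ z)` (`z` near `0`) is `O(z^μ)` with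
`μ > m n ≥ m (p + 2)`, and its derivatives at `0` of order `> m (p + 2)` vanish (`glued_pull`,
`Glued.degree_zero`), so `u = 0` (`eq_zero_of_order_of_degree`). As `κ (z,0,0) D(z)^k ≠ 0` for `z` near `0`,
`lead k f (γ z) = 0` there. -/
theorem lead_curve {n q : ℕ} {U : Type*} [TopologicalSpace U]
    [ChartedSpace (Fin n → ℂ) U] [IsManifold 𝓘(ℂ, Fin n → ℂ) ω U] {p c : ℕ}
    (C : StandardCurve n U p c) (hp : p + 2 ≤ n) (L : (ℂ × (Fin q → ℂ)) ≃L[ℂ] (Fin n → ℂ))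
    (h : ℂ × (Fin q → ℂ) → U)
    (hh : IsLocalDiffeomorphAt 𝓘(ℂ, ℂ × (Fin q → ℂ)) 𝓘(ℂ, Fin n → ℂ) ω h 0)
    (γ : ℂ → Fin q → ℂ) (hγ : AnalyticAt ℂ γ 0) (hγ0 : γ 0 = 0)
    (hC : ∀ᶠ z in 𝓝 (0 : ℂ), C.Φ₀ (z, 0, 0) = h (0, γ z)) {m : ℕ} (s : antiSections n U m)
    (k μ : ℕ) (hμ : m * n < μ) (hO : pull L h s =O[𝓝 0] fun y => y.1 ^ k)
    (hl : (fun z => lead k (pull L h s) (γ z)) =O[𝓝 0] fun z => z ^ μ) :
    ∀ᶠ z in 𝓝 (0 : ℂ), lead k (pull L h s) (γ z) = 0 := by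
  sorry

end Pool.Agent.Lib.H88V
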