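import Pool.Agent.Lib.H88V.F3

/-!
# Project H88V, chunk F3B: the order along the hypersurface germ increases
-/

open scoped Manifold ContDiff Topology Nat
open Filter Asymptotics Set

namespace Pool.Agent.Lib.H88V

/-- Proof. `a = lead k (pull L h s)` is analytic at `0` (`analyticAt_iteratedDeriv_param_zero`,
`pull_analyticAt`). Suppose it does not vanish near `0`. Then some `hom μ a` is not identically zero
(otherwise `a = O(‖y‖^K)` for all `K`, and its power series vanishes: `isBigO_of_hom`,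
`HasFPowerSeriesAt.eq_zero`-type lemma; or in `exists_mvPolynomial` terms); take `μ` minimal. By hypothesis
`μ > m n`. By `exists_mvPolynomial`, `hom μ a` is the function of a polynomial `P ≠ 0`, so by `hF` there are
`p, c, C, γ` with `eval (deriv γ 0) P ≠ 0`. By `isBigO_of_hom`, `a = O(‖y‖^μ)`, so
`a (γ z) = O(z^μ)` (`γ z = O(z)`), and by `lead_curve`, `a (γ z) = 0` for `z` near `0`. But
`(z^μ)⁻¹ a (z • (z⁻¹ • γ z)) → hom μ a (deriv γ 0)` (`tendsto_hom`), so `hom μ a (deriv γ 0) = 0`,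
contradiction. Conclude by `isBigO_succ_of_lead`. -/
theorem isBigO_succ {n q : ℕ} {U : Type*} [TopologicalSpace U]
    [ChartedSpace (Fin n → ℂ) U] [IsManifold 𝓘(ℂ, Fin n → ℂ) ω U]
    (L : (ℂ × (Fin q → ℂ)) ≃L[ℂ] (Fin n → ℂ)) (h : ℂ × (Fin q → ℂ) → U)
    (hh : IsLocalDiffeomorphAt 𝓘(ℂ, ℂ × (Fin q → ℂ)) 𝓘(ℂ, Fin n → ℂ) ω h 0)
    (hF : ∀ G : MvPolynomial (Fin q) ℂ,
      (∀ (p c : ℕ) (C : StandardCurve n U p c) (γ : ℂ → Fin q → ℂ), p + 2 ≤ n →
        AnalyticAt ℂ γ 0 → γ 0 = 0 → (∀ᶠ z in 𝓝 (0 : ℂ), C.Φ₀ (z, 0, 0) = h (0, γ z)) →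
        MvPolynomial.eval (deriv γ 0) G = 0) → G = 0)
    {m : ℕ} (s : antiSections n U m) (k : ℕ) (hO : pull L h s =O[𝓝 0] fun y => y.1 ^ k)
    (h0 : ∀ j ≤ m * n, ∀ y, hom j (lead k (pull L h s)) y = 0) :
    pull L h s =O[𝓝 0] fun y => y.1 ^ (k + 1) := by
  sorry

end Pool.Agent.Lib.H88V
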