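import Mathlib

/-!
# Project H88V, chunk H2: homogeneous polynomials
-/

open scoped Topology Nat
open Filter Asymptotics Set

namespace Pool.Agent.Lib.H88V

/-- Proof. The homogeneous polynomials of degree `k` are spanned by the monomials, of which there are
`multichoose q k` (`Finset.piAntidiag univ k`, `Finset.Nat.card_piAntidiag`; `q = 0` separately). -/
theorem exists_finset_homogeneous (q k : ℕ) : ∃ S : Finset (MvPolynomial (Fin q) ℂ),
    S.card ≤ Nat.multichoose q k ∧
    ∀ P : MvPolynomial (Fin q) ℂ, P.IsHomogeneous k → P ∈ Submodule.span ℂ (S : Set _) := by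
  sorry

end Pool.Agent.Lib.H88V
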