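import Pool.Agent.Lib.H88V.C2
import Pool.Agent.Lib.H88V.F3B
import Pool.Agent.Lib.H88V.H2
import Pool.Agent.Lib.H88V.LA

/-!
# Project H88V, chunk F4: the count of sections for a hypersurface germ filled by curves
-/

open scoped Manifold ContDiff Topology Nat ENNReal
open Filter Asymptotics Set

namespace Pool.Agent.Lib.H88V

/-- Proof. Let `G k` be the submodule of the `s` with `pull L h s = O(y.1^k)` (`pull_add`, `pull_smul`),
`G 0 = ⊤` (`pull_analyticAt`, bounded near `0`). Show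
`finrank (G k) ≤ finrank (G (k+1)) + ∑_{j ≤ m n} multichoose q j` by `finrank_le_of_maps` with the maps
`Ψ j s = hom j (lead k (pull L h s))`, `j ≤ m n` (linear: `hom_add`, `iteratedDeriv_add`; the functions
`lead k (pull L h s)` are analytic at `0`), whose values are functions of homogeneous polynomials of degree
`j` (`exists_mvPolynomial`, `exists_finset_homogeneous`); if all vanish then `s ∈ G (k+1)` by
`isBigO_succ`. The sum is `multichoose (q+1) (m n)` (`sum_multichoose`). Use the divisor of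
`exists_divisor_hyper`: `G K ≤ D.sub m K`. -/
theorem count_hyper {n q : ℕ} {U : Type*} [TopologicalSpace U]
    [ChartedSpace (Fin n → ℂ) U] [IsManifold 𝓘(ℂ, Fin n → ℂ) ω U]
    (hfin : ∀ m, FiniteDimensional ℂ (antiSections n U m)) (h : ℂ × (Fin q → ℂ) → U)
    (hh : IsLocalDiffeomorphAt 𝓘(ℂ, ℂ × (Fin q → ℂ)) 𝓘(ℂ, Fin n → ℂ) ω h 0)
    (hF : ∀ G : MvPolynomial (Fin q) ℂ,
      (∀ (p c : ℕ) (C : StandardCurve n U p c) (γ : ℂ → Fin q → ℂ), p + 2 ≤ n →
        AnalyticAt ℂ γ 0 → γ 0 = 0 → (∀ᶠ z in 𝓝 (0 : ℂ), C.Φ₀ (z, 0, 0) = h (0, γ z)) →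
        MvPolynomial.eval (deriv γ 0) G = 0) → G = 0) :
    ∃ D : DivisorOver n U, D.logDiscrepancy ≤ 1 ∧
      ∀ m K : ℕ, Module.finrank ℂ (antiSections n U m) ≤
        Module.finrank ℂ (D.sub m K) + K * Nat.multichoose (q + 1) (m * n) := by
  sorry

end Pool.Agent.Lib.H88V
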