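import Pool.Agent.Lib.H88V.F4
import Pool.Agent.Lib.H88V.P2

/-!
# Project H88V, chunk F5: the volume bound from a hypersurface germ filled by curves
-/

open scoped Manifold ContDiff Topology Nat ENNReal
open Filter Asymptotics Set

namespace Pool.Agent.Lib.H88V

/-- Proof. `n = q + 1` (`exists_linear'`), `principle` with `T = 2`, `A = 1`,
`cnt m K = K * multichoose (q+1) (m n)`: `∑_{j < 2m} (j + 1) = m (2 m + 1)`, and
`β m = n! m (2m+1) ((m n + q)^q / q!) / m^(n+1) → 2 n n^q = 2 n^n` (`multichoose_le q (m n)`). So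
`(2 - 1) V ≤ 2 n^n`. -/
theorem case_filled {n : ℕ} {U : Type*} [TopologicalSpace U]
    [ChartedSpace (Fin n → ℂ) U] [IsManifold 𝓘(ℂ, Fin n → ℂ) ω U]
    (hfin : ∀ m, FiniteDimensional ℂ (antiSections n U m)) (hV : antiVolume n U ≠ ⊤)
    (hK : IsKSemistable n U) (h : HasHypersurfaceFilledByCurves n U) :
    antiVolume n U ≤ 2 * (n : ℝ≥0∞) ^ n := by
  sorry

end Pool.Agent.Lib.H88V
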