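import Pool.Agent.Lib.H88V.D4
import Pool.Agent.Lib.H88V.E7
import Pool.Agent.Lib.H88V.F5

/-!
# Project H88V: the volume bound
-/

open scoped Manifold ContDiff Topology Nat ENNReal
open Filter Asymptotics Set

namespace Pool.Agent.Lib.H88V

/-- A K-semistable complex manifold of dimension `n` (with finite anticanonical volume and finite
dimensional spaces of sections of the powers of the anticanonical bundle) which contains a standard
rational curve of degree at most `n - 1`, or has enough standard rational curves of degree at most `n`
through one point, has anticanonical volume at most `2 nⁿ`. -/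
theorem volume_le {n : ℕ} {U : Type*} [TopologicalSpace U]
    [ChartedSpace (Fin n → ℂ) U] [IsManifold 𝓘(ℂ, Fin n → ℂ) ω U]
    (hfin : ∀ m, FiniteDimensional ℂ (antiSections n U m)) (hV : antiVolume n U ≠ ⊤)
    (hK : IsKSemistable n U)
    (h : (∃ p c : ℕ, p + 3 ≤ n ∧ Nonempty (StandardCurve n U p c)) ∨
      HasHypersurfaceOfCurves n U ∨ HasHypersurfaceFilledByCurves n U) :
    antiVolume n U ≤ 2 * (n : ℝ≥0∞) ^ n := by
  rcases h with ⟨p, c, hp, ⟨C⟩⟩ | h | h
  · exact case_curve hfin hV hK C hp
  · exact case_hypersurface hfin hV hK h
  · exact case_filled hfin hV hK h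

end Pool.Agent.Lib.H88V
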