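import Mathlib

/-!
# Project H88V: the numerical inequality, definitions

`φ(k) = k^k / k!`, `K(m, μ) = φ(m) φ(μ) / (2 φ(m + μ - 1))`,
`S(m, μ) = ∑_{k ≤ μ+1} T(μ, k) R(m, k)`; the inequality is `K(m, μ) S(m, μ) ≤ 1` for `m, μ ≥ 2`
(equality for `m = 2`).
-/

open scoped Nat
open Finset

namespace Pool.Agent.Lib.H88V

/-- `k^k / k!` -/
noncomputable def phi (k : ℕ) : ℝ := (k : ℝ) ^ k / (k ! : ℝ)

/-- `φ(m) φ(μ) / (2 φ(m + μ - 1))` -/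
noncomputable def KK (m μ : ℕ) : ℝ := phi m * phi μ / (2 * phi (m + μ - 1))

/-- `(μ/(μ+1)) C(μ+1, k) (k+1)! / (2μ)^k` -/
noncomputable def TT (μ k : ℕ) : ℝ :=
  (μ : ℝ) / (μ + 1) * ((μ + 1).choose k : ℝ) * ((k + 1)! : ℝ) / (2 * μ : ℝ) ^ k

/-- `m^k (m-1)! / (m+k-1)!` -/
noncomputable def RR (m k : ℕ) : ℝ := (m : ℝ) ^ k * ((m - 1)! : ℝ) / ((m + k - 1)! : ℝ)

/-- `∑_{k ≤ μ+1} T(μ, k) R(m, k)` -/
noncomputable def SS (m μ : ℕ) : ℝ := ∑ k ∈ range (μ + 2), TT μ k * RR m k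

end Pool.Agent.Lib.H88V
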