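import Pool.Agent.Lib.H88V.N0

/-!
# Project H88V, chunk N1: `φ` and `K`
-/

open scoped Nat
open Finset

namespace Pool.Agent.Lib.H88V

theorem phi_pos (k : ℕ) : 0 < phi k := by
  unfold phi
  rcases Nat.eq_zero_or_pos k with h | h
  · subst h
    simp
  · have hk : (0 : ℝ) < k := by exact_mod_cast h
    positivity

/-- Proof. `(k+1)^(k+1) / (k+1)! = (k+1)^k / k!`. -/
theorem phi_succ (k : ℕ) (hk : 1 ≤ k) : phi (k + 1) = (1 + 1 / (k : ℝ)) ^ k * phi k := by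
  unfold phi
  have hk0 : (k : ℝ) ≠ 0 := by
    have : (0 : ℝ) < k := by exact_mod_cast hk
    exact this.ne'
  have hf : (k ! : ℝ) ≠ 0 := by positivity
  have hs : ((k : ℝ) + 1) ≠ 0 := by positivity
  have h1 : (1 + 1 / (k : ℝ)) ^ k = ((k : ℝ) + 1) ^ k / (k : ℝ) ^ k := by
    rw [← div_pow]
    congr 1
    field_simp
  rw [h1, Nat.factorial_succ]
  push_cast
  field_simp
  ring

/-- The sequence `(1 + 1/k)^k` is increasing. Proof. One step: with `x = 1/(k+1)^2`,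
`(1 + 1/(k+1))^(k+1) / (1 + 1/k)^k = (1 - x)^(k+1) (1 + 1/k)` and Bernoulli
`(1 - x)^(k+1) ≥ 1 - (k+1) x = k/(k+1)` (`one_add_mul_le_pow`). Then induction. -/
theorem e_mono (k l : ℕ) (hk : 1 ≤ k) (hkl : k ≤ l) :
    (1 + 1 / (k : ℝ)) ^ k ≤ (1 + 1 / (l : ℝ)) ^ l := by
  have step : ∀ j : ℕ, 1 ≤ j → (1 + 1 / (j : ℝ)) ^ j ≤ (1 + 1 / ((j + 1 : ℕ) : ℝ)) ^ (j + 1) := by
    intro j hj
    have hj0 : (0 : ℝ) < j := by exact_mod_cast hj
    have hb : 1 + ((j + 1 : ℕ) : ℝ) * (-(1 / ((j : ℝ) + 1) ^ 2)) ≤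
        (1 + -(1 / ((j : ℝ) + 1) ^ 2)) ^ (j + 1) := by
      refine one_add_mul_le_pow ?_ (j + 1)
      have h3 : 1 / ((j : ℝ) + 1) ^ 2 ≤ 1 := by
        rw [div_le_one (by positivity)]
        nlinarith
      linarith
    have e1 : 1 + ((j + 1 : ℕ) : ℝ) * (-(1 / ((j : ℝ) + 1) ^ 2)) = (j : ℝ) / (j + 1) := by
      push_cast
      field_simp
      ring
    have e2 : (1 + -(1 / ((j : ℝ) + 1) ^ 2)) = (j * (j + 2) : ℝ) / ((j : ℝ) + 1) ^ 2 := by
      field_simp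
      ring
    have e3 : (1 + 1 / ((j + 1 : ℕ) : ℝ)) = (j + 2 : ℝ) / ((j : ℝ) + 1) := by
      push_cast
      field_simp
      ring
    have e4 : (1 + 1 / (j : ℝ)) = ((j : ℝ) + 1) / j := by
      field_simp
    rw [e1, e2] at hb
    rw [e3, e4]
    have e5 : ((j + 2 : ℝ) / ((j : ℝ) + 1)) ^ (j + 1) =
        ((j * (j + 2) : ℝ) / ((j : ℝ) + 1) ^ 2) ^ (j + 1) * (((j : ℝ) + 1) / j) ^ (j + 1) := by
      rw [← mul_pow]
      congr 1
      field_simp
    rw [e5]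
    calc (((j : ℝ) + 1) / j) ^ j = (j : ℝ) / (j + 1) * (((j : ℝ) + 1) / j) ^ (j + 1) := by
          rw [pow_succ]
          field_simp
      _ ≤ _ := mul_le_mul_of_nonneg_right hb (by positivity)
  induction l, hkl using Nat.le_induction with
  | base => exact le_rfl
  | succ l hl ih => exact ih.trans (step l (hk.trans hl))

theorem KK_pos (m μ : ℕ) : 0 < KK m μ := by
  unfold KK
  have := phi_pos m
  have := phi_pos μ
  have := phi_pos (m + μ - 1)
  positivity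

/-- Proof. `K(m+1, μ) / K(m, μ) = (1 + 1/m)^m / (1 + 1/(m+μ-1))^(m+μ-1) ≤ 1` by `phi_succ` and `e_mono`
(`m ≤ m + μ - 1`). Induction from `m₀` to `m`. -/
theorem KK_anti_left (m₀ m μ : ℕ) (h0 : 1 ≤ m₀) (hm : m₀ ≤ m) (hμ : 1 ≤ μ) :
    KK m μ ≤ KK m₀ μ := by
  have step : ∀ j : ℕ, 1 ≤ j → KK (j + 1) μ ≤ KK j μ := by
    intro j hj
    have h1 := phi_succ j hj
    have h2 := phi_succ (j + μ - 1) (by omega)
    have h3 := e_mono j (j + μ - 1) hj (by omega)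
    have p1 := phi_pos j
    have p2 := phi_pos μ
    have p3 := phi_pos (j + μ - 1)
    have he : j + 1 + μ - 1 = (j + μ - 1) + 1 := by omega
    unfold KK
    rw [he, h1, h2]
    have hE : 0 < (1 + 1 / ((j + μ - 1 : ℕ) : ℝ)) ^ (j + μ - 1) := by positivity
    rw [div_le_div_iff₀ (by positivity) (by positivity)]
    have h4 := mul_le_mul_of_nonneg_right h3
      (by positivity : 0 ≤ phi j * phi μ * (2 * phi (j + μ - 1)))
    linarith
  induction m, hm using Nat.le_induction with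
  | base => exact le_rfl
  | succ l hl ih => exact (step l (h0.trans hl)).trans ih

/-- Proof. `K` is symmetric; `KK_anti_left`. -/
theorem KK_anti_right (m μ₀ μ : ℕ) (h0 : 1 ≤ μ₀) (hμ : μ₀ ≤ μ) (hm : 1 ≤ m) :
    KK m μ ≤ KK m μ₀ := by
  have sym : ∀ a b : ℕ, KK a b = KK b a := by
    intro a b
    unfold KK
    rw [mul_comm (phi a) (phi b), add_comm a b]
  rw [sym m μ, sym m μ₀]
  exact KK_anti_left μ₀ μ m h0 hμ hm

end Pool.Agent.Lib.H88V
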