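import Pool.Agent.Lib.H88V.N1
import Pool.Agent.Lib.H88V.N2

/-!
# Project H88V, chunk N3: the case `m = 2` and the quadrant
-/

open scoped Nat
open Finset

namespace Pool.Agent.Lib.H88V

/-- Equality for `m = 2`. Proof. `R(2, k) = 2^k/(k+1)!`, so
`S(2, μ) = (μ/(μ+1)) ∑_k C(μ+1, k) μ^(-k) = (μ/(μ+1)) (1 + 1/μ)^(μ+1) = (1 + 1/μ)^μ` (binomial theorem,
`add_pow`), and `K(2, μ) = φ(2) φ(μ) / (2 φ(μ+1)) = 1/(1+1/μ)^μ` by `phi_succ` and `φ(2) = 2`. -/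
theorem main_two (μ : ℕ) (hμ : 2 ≤ μ) : KK 2 μ * SS 2 μ ≤ 1 := by
  have hμ0 : (0 : ℝ) < μ := by
    have : 0 < μ := by omega
    exact_mod_cast this
  have hx : (0 : ℝ) < 1 + 1 / (μ : ℝ) := by positivity
  have hp := phi_pos μ
  have h2 : phi 2 = 2 := by
    unfold phi
    norm_num [Nat.factorial]
  have hK : KK 2 μ = 1 / (1 + 1 / (μ : ℝ)) ^ μ := by
    unfold KK
    have e1 : 2 + μ - 1 = μ + 1 := by omega
    rw [e1, phi_succ μ (by omega), h2]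
    have h3 : (1 + 1 / (μ : ℝ)) ^ μ ≠ 0 := (pow_pos hx μ).ne'
    field_simp
  have hterm : ∀ k ∈ range (μ + 1 + 1), TT μ k * RR 2 k =
      (μ : ℝ) / (μ + 1) * ((1 / (μ : ℝ)) ^ k * 1 ^ (μ + 1 - k) * ((μ + 1).choose k : ℝ)) := by
    intro k _
    unfold TT RR
    have e1 : 2 + k - 1 = k + 1 := by omega
    have hf : ((k + 1)! : ℝ) ≠ 0 := by exact_mod_cast (Nat.factorial_ne_zero (k + 1))
    rw [e1, one_pow, mul_one, mul_pow, one_div, inv_pow]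
    have h4 : (2 : ℝ) ^ k ≠ 0 := by positivity
    have h5 : (μ : ℝ) ^ k ≠ 0 := by positivity
    have h6 : (μ : ℝ) + 1 ≠ 0 := by positivity
    have h7 : ((2 - 1)! : ℝ) = 1 := by norm_num [Nat.factorial]
    rw [h7]
    push_cast
    field_simp
  have hS : SS 2 μ = (1 + 1 / (μ : ℝ)) ^ μ := by
    unfold SS
    rw [sum_congr rfl hterm, ← mul_sum, ← add_pow, add_comm (1 / (μ : ℝ)) 1, pow_succ]
    have h6 : (μ : ℝ) + 1 ≠ 0 := by positivity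
    have h8 : (μ : ℝ) / (μ + 1) * (1 + 1 / (μ : ℝ)) = 1 := by
      field_simp
    calc (μ : ℝ) / (μ + 1) * ((1 + 1 / (μ : ℝ)) ^ μ * (1 + 1 / (μ : ℝ)))
        = (μ : ℝ) / (μ + 1) * (1 + 1 / (μ : ℝ)) * (1 + 1 / (μ : ℝ)) ^ μ := by ring
      _ = (1 + 1 / (μ : ℝ)) ^ μ := by rw [h8, one_mul]
  rw [hK, hS, one_div, inv_mul_cancel₀ (pow_pos hx μ).ne']

/-- Proof. `K(m, μ) ≤ K(9, 9)`, `S ≤ 4` and `4 K(9, 9) = 0.9802 ≤ 1` (`norm_num [KK, phi, Nat.factorial]`: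
`K(9,9) = (9^9/9!)^2 / (2 * 17^17/17!)`). -/
theorem main_quadrant (m μ : ℕ) (hm : 9 ≤ m) (hμ : 9 ≤ μ) : KK m μ * SS m μ ≤ 1 := by
  have h1 : KK m μ ≤ KK 9 9 :=
    (KK_anti_left 9 m μ (by omega) hm (by omega)).trans
      (KK_anti_right 9 9 μ (by omega) hμ (by omega))
  have h2 : SS m μ ≤ 4 := SS_le_four m μ (by omega) (by omega)
  have h3 : KK 9 9 * 4 ≤ 1 := by
    unfold KK phi
    norm_num [Nat.factorial]
  have h4 := KK_pos m μ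
  have h5 := KK_pos 9 9
  nlinarith [mul_le_mul_of_nonneg_left h2 h4.le]

end Pool.Agent.Lib.H88V
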