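import Pool.Agent.Lib.H88V.Defs

/-!
# Project H88V, chunk P1: step functions and the reverse Fatou lemma
-/

open scoped Topology ENNReal Nat
open Filter Asymptotics MeasureTheory Set

namespace Pool.Agent.Lib.H88V

theorem measurable_step (F : ℕ → ℝ≥0∞) (m : ℕ) : Measurable fun t : ℝ => F ⌈m * t⌉₊ :=
  (measurable_from_nat (f := F)).comp (Nat.measurable_ceil.comp (measurable_const_mul (m : ℝ)))

/-- Proof. `(0, T] ⊇` the disjoint intervals `(j/m, (j+1)/m]`, `j < T m`; on such an interval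
`⌈m t⌉₊ = j + 1`, so the integral over it is `F (j + 1) * (1/m)` (`lintegral_const`,
`Real.volume_Ioc`, `ENNReal.ofReal`). Sum: `lintegral_biUnion_finset` (or induction on `T m` with
`Ioc 0 ((j+1)/m)`). `t ↦ F ⌈m t⌉₊` is measurable (`Nat.measurable_ceil`, `measurable_from_nat`). -/
theorem sum_le_lintegral (F : ℕ → ℝ≥0∞) (m T : ℕ) (hm : 1 ≤ m) :
    (∑ j ∈ Finset.range (T * m), F (j + 1)) / (m : ℝ≥0∞) ≤
      ∫⁻ t in Ioc (0 : ℝ) T, F ⌈m * t⌉₊ := by
  have hm0 : (0 : ℝ) < m := by exact_mod_cast hm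
  have hmeas := measurable_step F m
  have key : ∀ K : ℕ, (∑ j ∈ Finset.range K, F (j + 1)) / (m : ℝ≥0∞) ≤
      ∫⁻ t in Ioc (0 : ℝ) (K / m), F ⌈m * t⌉₊ := by
    intro K
    induction K with
    | zero => simp
    | succ K ih =>
      have h1 : (0 : ℝ) ≤ K / m := by positivity
      have h2 : (K : ℝ) / m ≤ ((K + 1 : ℕ) : ℝ) / m := by
        push_cast
        gcongr
        linarith
      have hun : Ioc (0 : ℝ) (((K + 1 : ℕ) : ℝ) / m) =
          Ioc (0 : ℝ) (K / m) ∪ Ioc ((K : ℝ) / m) (((K + 1 : ℕ) : ℝ) / m) :=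
        (Ioc_union_Ioc_eq_Ioc h1 h2).symm
      have hdisj : Disjoint (Ioc (0 : ℝ) (K / m)) (Ioc ((K : ℝ) / m) (((K + 1 : ℕ) : ℝ) / m)) := by
        rw [Set.disjoint_left]
        rintro x ⟨_, hx1⟩ ⟨hx2, _⟩
        exact absurd hx2 (not_lt.2 hx1)
      rw [hun, lintegral_union measurableSet_Ioc hdisj, Finset.sum_range_succ, ENNReal.add_div]
      refine add_le_add ih ?_
      have hc : ∫⁻ t in Ioc ((K : ℝ) / m) (((K + 1 : ℕ) : ℝ) / m), F ⌈m * t⌉₊ =
          ∫⁻ _ in Ioc ((K : ℝ) / m) (((K + 1 : ℕ) : ℝ) / m), F (K + 1) := by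
        refine setLIntegral_congr_fun measurableSet_Ioc fun t ht => ?_
        have hceil : ⌈(m : ℝ) * t⌉₊ = K + 1 := by
          rw [Nat.ceil_eq_iff (by omega)]
          refine ⟨?_, ?_⟩
          · have := ht.1
            rw [div_lt_iff₀ hm0] at this
            simp only [Nat.add_sub_cancel]
            linarith
          · have := ht.2
            rw [le_div_iff₀ hm0] at this
            linarith
        simp only [hceil]
      rw [hc, lintegral_const, Measure.restrict_apply MeasurableSet.univ, univ_inter,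
        Real.volume_Ioc]
      have h3 : ((K + 1 : ℕ) : ℝ) / m - K / m = 1 / m := by
        push_cast
        field_simp
        ring
      rw [h3, ENNReal.div_eq_inv_mul, mul_comm]
      refine mul_le_mul_right ?_ _
      rw [ENNReal.ofReal_div_of_pos hm0, ENNReal.ofReal_one, ENNReal.ofReal_natCast, one_div]
  have h := key (T * m)
  have hT : ((T * m : ℕ) : ℝ) / m = T := by
    push_cast
    field_simp
  rw [hT] at h
  exact h

/-- Proof. Reverse Fatou (`limsup_lintegral_le`) on `(0, T]` for the sequence shifted so that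
`F m k ≤ B` holds for all `m` (`Filter.limsup_nat_add`), with the constant bound `B`, of finite integral
`B T`. Measurability as in `sum_le_lintegral`. Then `Ioc 0 T ⊆ Ioi 0`. -/
theorem limsup_le_lintegral (F : ℕ → ℕ → ℝ≥0∞) (B : ℝ≥0∞) (hB : B ≠ ⊤)
    (hF : ∀ᶠ m in atTop, ∀ k, F m k ≤ B) (T : ℕ) :
    limsup (fun m : ℕ => ∫⁻ t in Ioc (0 : ℝ) T, F m ⌈m * t⌉₊) atTop ≤
      ∫⁻ t in Ioi (0 : ℝ), limsup (fun m : ℕ => F m ⌈m * t⌉₊) atTop := by
  obtain ⟨N, hN⟩ := eventually_atTop.1 hF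
  have h1 : limsup (fun m : ℕ => ∫⁻ t in Ioc (0 : ℝ) T, F m ⌈m * t⌉₊) atTop =
      limsup (fun m : ℕ => ∫⁻ t in Ioc (0 : ℝ) T, F (m + N) ⌈((m + N : ℕ) : ℝ) * t⌉₊) atTop :=
    (Filter.limsup_nat_add (fun m : ℕ => ∫⁻ t in Ioc (0 : ℝ) T, F m ⌈m * t⌉₊) N).symm
  rw [h1]
  have h2 : limsup (fun m : ℕ => ∫⁻ t in Ioc (0 : ℝ) T, F (m + N) ⌈((m + N : ℕ) : ℝ) * t⌉₊) atTop ≤
      ∫⁻ t in Ioc (0 : ℝ) T, limsup (fun m : ℕ => F (m + N) ⌈((m + N : ℕ) : ℝ) * t⌉₊) atTop := by
    refine limsup_lintegral_le (fun _ => B) (fun m => measurable_step (F (m + N)) (m + N))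
      (fun m => ?_) ?_
    · exact Filter.Eventually.of_forall fun t => hN (m + N) (by omega) _
    · rw [lintegral_const, Measure.restrict_apply MeasurableSet.univ, univ_inter, Real.volume_Ioc]
      exact ENNReal.mul_ne_top hB ENNReal.ofReal_ne_top
  refine h2.trans ?_
  have h3 : ∀ t : ℝ, limsup (fun m : ℕ => F (m + N) ⌈((m + N : ℕ) : ℝ) * t⌉₊) atTop =
      limsup (fun m : ℕ => F m ⌈m * t⌉₊) atTop := fun t =>
    Filter.limsup_nat_add (fun m : ℕ => F m ⌈m * t⌉₊) N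
  simp only [h3]
  exact lintegral_mono_set Ioc_subset_Ioi_self

end Pool.Agent.Lib.H88V
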