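import Pool.Agent.Lib.H88V.An

/-!
# Project H88V, chunk T4: counting monomials
-/

open scoped Topology Nat
open Filter Asymptotics Set

namespace Pool.Agent.Lib.H88V

/-- The number of exponents `(r, I, J)` with `r + |I| = j` and `a |I| + b |J| = k`. -/
def cardS (p c a b j k : ℕ) : ℕ :=
  ∑ i ∈ Finset.range (j + 1), ∑ l ∈ Finset.range (k + 1),
    if a * i + b * l = k then Nat.multichoose p i * Nat.multichoose c l else 0

/-- Proof. The set `monos a b j k` is the union over `i ≤ j` (`i = |I|`, `r = j - i`) and `l ≤ k` (`l = |J|`;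
`l ≤ k` as `b ≥ 1`) with `a i + b l = k` of the images of
`Finset.piAntidiag univ i ×ˢ Finset.piAntidiag univ l` (functions `Fin p → ℕ` with sum `i`, functions
`Fin c → ℕ` with sum `l`), whose cardinalities are `multichoose p i` and `multichoose c l`
(`Finset.Nat.card_piAntidiag` / `Finset.card_piAntidiag...`, `Nat.multichoose_eq`; for `p = 0` check
separately; or `Sym.card_sym_fin_eq_multichoose`). Take the `Finset.biUnion` of the images. -/
theorem exists_finset_monos (p c a b j k : ℕ) (hb : 1 ≤ b) :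
    ∃ S : Finset (Tube p c → ℂ), (monos a b j k : Set (Tube p c → ℂ)) ⊆ S ∧
      S.card ≤ cardS p c a b j k := by
  classical
  let e1 : ∀ i, Sym (Fin p) i ≃ {P : Fin p → ℕ // ∑ x, P x = i} :=
    fun i => Sym.equivNatSumOfFintype (Fin p) i
  let e2 : ∀ l, Sym (Fin c) l ≃ {P : Fin c → ℕ // ∑ x, P x = l} :=
    fun l => Sym.equivNatSumOfFintype (Fin c) l
  refine ⟨(Finset.range (j + 1)).biUnion fun i => (Finset.range (k + 1)).biUnion fun l =>
      if a * i + b * l = k then (Finset.univ : Finset (Sym (Fin p) i × Sym (Fin c) l)).image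
        (fun s => mono (j - i) (e1 i s.1).1 (e2 l s.2).1) else ∅, ?_, ?_⟩
  · rintro g ⟨r, I, J, h1, h2, rfl⟩
    rw [Finset.mem_coe, Finset.mem_biUnion]
    refine ⟨∑ i, I i, Finset.mem_range.2 (by omega), ?_⟩
    rw [Finset.mem_biUnion]
    have h3 : ∑ i, J i ≤ b * ∑ i, J i := Nat.le_mul_of_pos_left _ hb
    refine ⟨∑ i, J i, Finset.mem_range.2 (by omega), ?_⟩
    rw [if_pos h2, Finset.mem_image]
    refine ⟨((e1 _).symm ⟨I, rfl⟩, (e2 _).symm ⟨J, rfl⟩), Finset.mem_univ _, ?_⟩
    simp only [Equiv.apply_symm_apply]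
    have h4 : j - ∑ i, I i = r := by omega
    rw [h4]
  · unfold cardS
    refine Finset.card_biUnion_le.trans (Finset.sum_le_sum fun i _ =>
      Finset.card_biUnion_le.trans (Finset.sum_le_sum fun l _ => ?_))
    split_ifs
    · refine Finset.card_image_le.trans (le_of_eq ?_)
      rw [Finset.card_univ, Fintype.card_prod, Sym.card_sym_fin_eq_multichoose,
        Sym.card_sym_fin_eq_multichoose]
    · simp

end Pool.Agent.Lib.H88V
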